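import Pool.Agent.Helper21K9.OD.Loc3

/-! Regularity of the local rings of the charts. -/

set_option autoImplicit false
set_option linter.unusedSectionVars false
set_option linter.unusedVariables false

open MvPolynomial
open scoped Pointwise

namespace Pool.Agent.Helper21K9.OD

open Pool.Agent.H918R2.Quad Pool.Agent.TH214.RM

variable {R F σ : Type} [CommRing R] [IsDomain R] [IsDiscreteValuationRing R] [Field F]
  [Algebra R F] [Fintype σ] [DecidableEq σ]

theorem zval_mem (𝒪 : Subring F) (p : F) (y : σ → F) (s : ℕ) (i : σ)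
    (h1 : p ^ (s + 1) / y i ∈ 𝒪) (h2 : y i / p ^ s ∈ 𝒪) (h3 : ∀ l, y l / y i ∈ 𝒪)
    (v : Option σ) : zval p y s i v ∈ 𝒪 := by
  cases v with
  | none => exact h1
  | some l =>
    simp only [zval]
    split_ifs
    · exact h2
    · exact h3 l

theorem core (rep : S_REP) (lg : S_LG) (reg : S_REG) (𝒪 : Subring F) (hloc : IsLoc 𝒪)
    (hR : ∀ r : R, algebraMap R F r ∈ 𝒪) (hRU : ∀ r : R, U 𝒪 (algebraMap R F r) → IsUnit r)
    (hinj : Function.Injective (algebraMap R F))
    (ϖ : R) (hϖ : Irreducible ϖ) (t : σ → F) (ht : ∀ j, t j ∈ 𝒪) (E : MvPolynomial σ R)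
    (hE0 : E ≠ 0) (hEt : aeval t E = 0)
    (j₀ : σ) (hj₀ : AlgebraicIndependent R (fun j : {j // j ≠ j₀} => t j))
    (hnd : (∃ j, U 𝒪 (aeval t (pderiv j E))) ∨ U 𝒪 (aeval t (hess E).det))
    (v m : ℕ) (hvm : v < 2 * m)
    (hv : C ϖ ^ v ∈ Ideal.span (insert E (Set.range fun j => pderiv j E)))
    (θ : ℕ → F) (hθ0 : ∀ j ∈ Finset.Icc 1 m, θ j ≠ 0)
    (hF1 : ∀ j ∈ Finset.Icc 1 m, algebraMap R F ϖ ^ j / θ j ∈ 𝒪)
    (hF2 : ∀ j ∈ Finset.Icc 1 m, ∀ i, aeval t (pderiv i E) / θ j ∈ 𝒪)
    (hF3 : ∀ j ∈ Finset.Icc 1 m, ∃ (a : F) (b : σ → F), a ∈ 𝒪 ∧ (∀ i, b i ∈ 𝒪) ∧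
      θ j = a * algebraMap R F ϖ ^ j + ∑ i, b i * aeval t (pderiv i E))
    (𝒢 : Set F) (g : F) (X₀ : F) (hX : X₀ ≠ 0)
    (hgen : ∀ h ∈ 𝒢, ∃ (a : MvPolynomial σ R) (β : ℕ → F),
      h = X₀ * aeval t a * ∏ j ∈ Finset.Icc 1 m, β j ∧
      ∀ j ∈ Finset.Icc 1 m, ∃ (a : MvPolynomial σ R) (b : σ → MvPolynomial σ R),
        β j = aeval t a * algebraMap R F ϖ ^ j + ∑ i, aeval t (b i) * aeval t (pderiv i E))
    (hg : g ∈ Submodule.span R 𝒢) (hU : U 𝒪 (g / (X₀ * ∏ j ∈ Finset.Icc 1 m, θ j)))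
    (hloc2 : IsLocOf 𝒪 (chart R (Submodule.span R 𝒢) g)) : IsRegularLocalRing 𝒪 := by
  classical
  set p : F := algebraMap R F ϖ with hpdef
  have hp : p ≠ 0 := by
    rw [hpdef, Ne, map_eq_zero_iff _ hinj]
    exact hϖ.ne_zero
  have hpO : p ∈ 𝒪 := hR ϖ
  have hpU : ¬ U 𝒪 p := fun h => hϖ.not_isUnit (hRU ϖ h)
  let eB : MvPolynomial σ R →ₐ[R] F := aeval t
  have heB : ∀ b, eB b ∈ 𝒪 := aeval_mem 𝒪 hR t ht
  by_cases hcr : ∃ j, U 𝒪 (aeval t (pderiv j E))
  · obtain ⟨j₁, hj₁⟩ := hcr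
    have hθU : ∀ j ∈ Finset.Icc 1 m, U 𝒪 (θ j) := by
      intro j hj
      have h1 : θ j ∈ 𝒪 := by
        obtain ⟨a, b, ha, hb, hθ⟩ := hF3 j hj
        rw [hθ]
        exact 𝒪.add_mem (𝒪.mul_mem ha (𝒪.pow_mem hpO _))
          (Subring.sum_mem _ fun i _ => 𝒪.mul_mem (hb i) (heB _))
      have h2 : U 𝒪 (aeval t (pderiv j₁ E) / θ j * θ j) := by
        rw [div_mul_cancel₀ _ (hθ0 j hj)]
        exact hj₁
      exact h2.of_mul_right (hF2 j hj j₁) h1
    refine core_noncrit 𝒪 hloc hR t ht E hE0 hEt j₀ hj₀ j₁ hj₁ 𝒢 g X₀ hX ?_ hg ?_ hloc2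
    · intro h hh
      obtain ⟨a, β, hhe, hβ⟩ := hgen h hh
      have hβ' : ∀ j, ∃ w : MvPolynomial σ R, j ∈ Finset.Icc 1 m → β j = eB w := by
        intro j
        by_cases hj : j ∈ Finset.Icc 1 m
        · obtain ⟨a, b, hb⟩ := hβ j hj
          refine ⟨a * C ϖ ^ j + ∑ i, b i * pderiv i E, fun _ => ?_⟩
          rw [hb]
          simp only [eB, map_add, map_mul, map_pow, map_sum, aeval_C]
          rfl
        · exact ⟨0, fun h => absurd h hj⟩
      choose w hw using hβ'
      refine ⟨a * ∏ j ∈ Finset.Icc 1 m, w j, ?_⟩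
      rw [hhe, map_mul, map_prod, mul_assoc]
      congr 2
      exact Finset.prod_congr rfl fun j hj => hw j hj
    · have h1 : g / X₀ = g / (X₀ * ∏ j ∈ Finset.Icc 1 m, θ j) * ∏ j ∈ Finset.Icc 1 m, θ j := by
        have h2 : ∏ j ∈ Finset.Icc 1 m, θ j ≠ 0 := Finset.prod_ne_zero_iff.2 hθ0
        field_simp
      rw [h1]
      exact hU.mul (prod_unit _ _ hθU)
  · have hdet : U 𝒪 (aeval t (hess E).det) := hnd.resolve_left hcr
    push Not at hcr
    let Q : Ideal (MvPolynomial σ R) := primeOf hloc (eB : MvPolynomial σ R →+* F) heB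
    have hQp : Q.IsPrime := primeOf_isPrime hloc _ heB
    have hQ : ∀ b, b ∈ Q ↔ ¬ U 𝒪 (eB b) := fun b => mem_primeOf hloc _ heB b
    have hQC : ∀ r : R, C r ∈ Q ↔ ¬ IsUnit r := by
      intro r
      rw [hQ]
      change ¬ U 𝒪 (aeval t (C r)) ↔ _
      rw [aeval_C]
      refine not_congr ⟨hRU r, fun h => ?_⟩
      obtain ⟨u, rfl⟩ := h
      have h1 : algebraMap R F (u : R) * algebraMap R F ((u⁻¹ : Rˣ) : R) = 1 := by
        rw [← map_mul, Units.mul_inv, map_one]
      refine ⟨left_ne_zero_of_mul_eq_one h1, hR _, ?_⟩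
      rw [inv_eq_of_mul_eq_one_right h1]
      exact hR _
    have hyQ : ∀ j, pderiv j E ∈ Q := fun j => (hQ _).2 (hcr j)
    have hdQ : (hess E).det ∉ Q := fun h => (hQ _).1 h hdet
    have hEQ : E ∈ Q := by
      rw [hQ]
      change ¬ U 𝒪 (aeval t E)
      rw [hEt]
      exact not_U_zero
    obtain ⟨hQm, hQh, hQg⟩ := lg R σ ϖ hϖ E Q hQp hQC hyQ hdQ
    obtain ⟨k, c, γ, h, hk1, hkv, hc, hγ, hrep, hh⟩ := rep R σ ϖ hϖ E Q hQp hQC hEQ hyQ hdQ v
      ⟨1, (Ideal.ne_top_iff_one Q).1 hQp.ne_top, by rw [one_mul]; exact hv⟩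
    have hγU : U 𝒪 (eB γ) := by
      by_contra hcon
      exact hγ ((hQ γ).2 hcon)
    set y : σ → F := fun l => aeval t (pderiv l E) with hy
    have hyO : ∀ l, y l ∈ 𝒪 := fun l => heB _
    have hrepF : p ^ k * eB γ + ∑ a, ∑ b, eB (h a b) * y a * y b = 0 := by
      have h1 := congrArg eB hrep
      rw [map_mul] at h1
      change eB c * aeval t E = _ at h1
      rw [hEt, mul_zero] at h1
      rw [h1]
      simp only [eB, map_add, map_mul, map_pow, map_sum, aeval_C]
      rfl
    -- the scale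
    have hnm : ¬ ∀ l, y l / p ^ m ∈ 𝒪 := by
      intro hcon
      have h1 := order_bound p (eB γ) (∑ a, ∑ b, eB (h a b) * (y a / p ^ m) * (y b / p ^ m)) 1 hp
        hpO hpU hγU (Subring.sum_mem _ fun a _ => Subring.sum_mem _ fun b _ =>
          𝒪.mul_mem (𝒪.mul_mem (heB _) (hcon a)) (hcon b)) 𝒪.one_mem k m (by
          rw [← hrepF, one_pow, mul_one, Finset.mul_sum]
          congr 1
          refine Finset.sum_congr rfl fun a _ => ?_
          rw [Finset.mul_sum]
          refine Finset.sum_congr rfl fun b _ => ?_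
          have := pow_ne_zero m hp
          have h2 : p ^ (2 * m) = p ^ m * p ^ m := by rw [← pow_add]; congr 1; omega
          rw [h2]
          field_simp)
      omega
    obtain ⟨s, hsm, hs1, hs2⟩ := exists_scale p y m hyO hnm
    obtain ⟨i, hi0, hi1, hi2⟩ := exists_min hloc p hp y m s hsm hs2 θ hθ0 hF1 hF2 hF3
    have hui : y i / p ^ s ∈ 𝒪 := hs1 i
    have hk2 : 2 * s ≤ k := by
      refine order_bound p (eB γ) (∑ a, ∑ b, eB (h a b) * (y a / y i) * (y b / y i)) (y i / p ^ s)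
        hp hpO hpU hγU (Subring.sum_mem _ fun a _ => Subring.sum_mem _ fun b _ =>
          𝒪.mul_mem (𝒪.mul_mem (heB _) (hi1 a)) (hi1 b)) hui k s ?_
      rw [← hrepF, Finset.mul_sum]
      congr 1
      refine Finset.sum_congr rfl fun a _ => ?_
      rw [Finset.mul_sum]
      refine Finset.sum_congr rfl fun b _ => ?_
      have := pow_ne_zero s hp
      have h2 : p ^ (2 * s) = p ^ s * p ^ s := by rw [← pow_add]; congr 1; omega
      rw [h2]
      field_simp
    -- the presentation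
    let e : MvPolynomial (Option σ) (MvPolynomial σ R) →ₐ[R] F := ext eB (zval p y s i)
    have heC : ∀ b, e (C b) = eB b := fun b => ext_C eB _ b
    have he : ∀ w, e w ∈ 𝒪 := by
      intro w
      induction w using MvPolynomial.induction_on with
      | C b => rw [heC]; exact heB b
      | add a b ha hb => rw [map_add]; exact 𝒪.add_mem ha hb
      | mul_X a v ha =>
        rw [map_mul]
        refine 𝒪.mul_mem ha ?_
        change ext eB (zval p y s i) (X v) ∈ 𝒪
        rw [ext_X]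
        exact zval_mem 𝒪 p y s i hi2 hui hi1 v
    have hpe : eB (C ϖ) = p := aeval_C _ _
    have hrelv : ∀ v, e (rel (C ϖ) (fun j => pderiv j E) s i v) = 0 := by
      intro v
      have h1 := rel_val eB (C ϖ) (fun j => pderiv j E) s i (by rw [hpe]; exact hp) hi0 v
      rw [hpe] at h1
      exact h1
    have heqnv : e (eqn (C ϖ) γ h s k i) = 0 := by
      have h1 := eqn_val eB (C ϖ) γ (fun j => pderiv j E) h s k hk2 i (by rw [hpe]; exact hp) hi0
        (by rw [hpe]; exact hrepF)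
      rw [hpe] at h1
      exact h1
    let I : Ideal (MvPolynomial (Option σ) (MvPolynomial σ R)) :=
      Ideal.span (insert (eqn (C ϖ) γ h s k i) (Set.range (rel (C ϖ) (fun j => pderiv j E) s i)))
    have hI : ∀ w ∈ I, e w = 0 := by
      intro w hw
      have h1 : I ≤ RingHom.ker (e : MvPolynomial (Option σ) (MvPolynomial σ R) →+* F) := by
        rw [Ideal.span_le]
        rintro x (rfl | ⟨v, rfl⟩)
        · exact heqnv
        · exact hrelv v
      exact h1 hw
    obtain ⟨A, _, _, pr, hpr, hprk, hpr0⟩ := exists_quot (R := R) I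
    obtain ⟨hq1, hq2, hq3⟩ := quot_rel (pr : MvPolynomial (Option σ) (MvPolynomial σ R) →+* A)
      (C ϖ) γ (fun j => pderiv j E) h s k hk2 i hprk
    -- fractions
    let θ' : ℕ → F := fun j => if j ≤ s then p ^ j else y i
    have hθ'0 : ∀ j, θ' j ≠ 0 := by
      intro j
      simp only [θ']
      split_ifs
      · exact pow_ne_zero _ hp
      · exact hi0
    have hzz : ∀ l, e (zz i l) = y l / y i := fun l => zz_val eB p y s i hi0 l
    have hXu : e (X (some i)) = y i / p ^ s := by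
      change ext eB (zval p y s i) (X (some i)) = _
      rw [ext_X]
      simp [zval]
    have hXw : e (X none) = p ^ (s + 1) / y i := by
      change ext eB (zval p y s i) (X none) = _
      rw [ext_X]
      rfl
    have hps := pow_ne_zero s hp
    have hgen' : ∀ h ∈ 𝒢, ∃ w, h = (X₀ * ∏ j ∈ Finset.Icc 1 m, θ' j) * e w := by
      intro h' hh'
      obtain ⟨a, β, hhe, hβ⟩ := hgen h' hh'
      have hβ' : ∀ j, ∃ w, j ∈ Finset.Icc 1 m → β j = θ' j * e w := by
        intro j
        by_cases hj : j ∈ Finset.Icc 1 m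
        · obtain ⟨a, b, hb⟩ := hβ j hj
          by_cases hjs : j ≤ s
          · refine ⟨C a + ∑ l, C (b l) * (C (C ϖ) ^ (s - j) * X (some i) * zz i l), fun _ => ?_⟩
            have h2 : p ^ s = p ^ j * p ^ (s - j) := by rw [← pow_add]; congr 1; omega
            simp only [θ', if_pos hjs]
            rw [hb, map_add, map_sum, heC, mul_add, Finset.mul_sum, mul_comm (aeval t a)]
            congr 1
            refine Finset.sum_congr rfl fun l _ => ?_
            rw [map_mul, map_mul, map_mul, map_pow, heC, heC, hpe, hXu, hzz]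
            change eB (b l) * y l = _
            rw [h2]
            have := pow_ne_zero j hp
            have := pow_ne_zero (s - j) hp
            field_simp
          · refine ⟨C a * C (C ϖ) ^ (j - (s + 1)) * X none + ∑ l, C (b l) * zz i l, fun _ => ?_⟩
            have h2 : p ^ j = p ^ (j - (s + 1)) * p ^ (s + 1) := by
              rw [← pow_add]; congr 1; omega
            simp only [θ', if_neg hjs]
            rw [hb, map_add, map_sum, mul_add, Finset.mul_sum]
            congr 1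
            · rw [map_mul, map_mul, map_pow, heC, heC, hpe, hXw, h2]
              field_simp
              rfl
            · refine Finset.sum_congr rfl fun l _ => ?_
              rw [map_mul, heC, hzz]
              change eB (b l) * y l = _
              field_simp
        · exact ⟨0, fun h => absurd h hj⟩
      choose w hw using hβ'
      refine ⟨C a * ∏ j ∈ Finset.Icc 1 m, w j, ?_⟩
      rw [hhe, Finset.prod_congr rfl fun j hj => hw j hj, Finset.prod_mul_distrib, map_mul,
        map_prod, heC]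
      change X₀ * eB a * _ = _
      ring
    have hUg : U 𝒪 (g / (X₀ * ∏ j ∈ Finset.Icc 1 m, θ' j)) := by
      have h2 : ∏ j ∈ Finset.Icc 1 m, θ j ≠ 0 := Finset.prod_ne_zero_iff.2 hθ0
      have h3 : ∏ j ∈ Finset.Icc 1 m, θ' j ≠ 0 := Finset.prod_ne_zero_iff.2 fun j _ => hθ'0 j
      have h1 : g / (X₀ * ∏ j ∈ Finset.Icc 1 m, θ' j) =
          g / (X₀ * ∏ j ∈ Finset.Icc 1 m, θ j) * ∏ j ∈ Finset.Icc 1 m, (θ j / θ' j) := by
        rw [Finset.prod_div_distrib]
        field_simp
      rw [h1]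
      exact hU.mul (prod_unit _ _ fun j hj =>
        unit_ratio p hp hpO y m s hs1 i hi0 hi1 hi2 θ hθ0 hF1 hF2 hF3 j hj)
    have hfrac := frac_of_chart e he 𝒢 g (X₀ * ∏ j ∈ Finset.Icc 1 m, θ' j)
      (mul_ne_zero hX (Finset.prod_ne_zero_iff.2 fun j _ => hθ'0 j)) hgen' hg hUg hloc2
    have haev : ∀ q : MvPolynomial σ R, aeval (fun j : σ =>
        (C (X j) : MvPolynomial (Option σ) (MvPolynomial σ R))) q = C q := by
      intro q
      have h1 : (aeval (fun j : σ => (C (X j) : MvPolynomial (Option σ) (MvPolynomial σ R))) :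
          MvPolynomial σ R →ₐ[R] _) =
          IsScalarTower.toAlgHom R (MvPolynomial σ R)
            (MvPolynomial (Option σ) (MvPolynomial σ R)) := by
        apply MvPolynomial.algHom_ext
        intro j
        rw [aeval_X]
        rfl
      rw [h1]
      rfl
    refine regular_of_pres 𝒪 hloc pr hpr e ?_ he hfrac ?_ (fun j : σ => C (X j)) (c * E) ?_ ?_
      j₀ ?_ ?_
    · intro w hw
      exact hI w ((hpr0 w).1 hw)
    · intro q hq hqm
      refine reg (MvPolynomial σ R) σ A Q hQm (C ϖ) (fun j => pderiv j E)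
        ((hQC ϖ).2 hϖ.not_isUnit) hyQ hQh hQg h γ hγ hh s k i hk2 hk1
        (pr : MvPolynomial (Option σ) (MvPolynomial σ R) →+* A) hpr hprk q ?_
      intro b
      rw [hQ]
      refine (hqm (C b)).trans ?_
      rw [heC]
    · refine mul_ne_zero ?_ hE0
      rintro rfl
      exact hc Q.zero_mem
    · rw [haev]
      have h1 : pr (C (c * E)) = (pr : MvPolynomial (Option σ) (MvPolynomial σ R) →+* A)
          (C (c * E)) := rfl
      rw [h1, hrep, map_add, map_add, map_mul, map_mul, map_pow, map_pow, map_sum, map_sum]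
      rw [← hq3]
      congr 1
      refine Finset.sum_congr rfl fun a _ => ?_
      rw [map_sum, map_sum]
      refine Finset.sum_congr rfl fun b _ => ?_
      rw [map_mul, map_mul, map_mul, map_mul]
    · convert hj₀ using 2 with j
      rw [heC]
      exact aeval_X _ _
    · intro w
      obtain ⟨N, q, hq⟩ := quot_frac (pr : MvPolynomial (Option σ) (MvPolynomial σ R) →+* A)
        (C ϖ) (fun j => pderiv j E) s i hq1 hq2 w
      refine ⟨q, (C ϖ * pderiv i E) ^ N, ?_, ?_⟩
      · rw [haev, heC, map_pow, map_mul, hpe]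
        exact pow_ne_zero _ (mul_ne_zero hp hi0)
      · rw [haev, haev]
        exact hq

end Pool.Agent.Helper21K9.OD
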