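import Pool.Agent.Helper21K9.OD.Core

/-! Regularity of the local rings of the charts. -/

set_option autoImplicit false
set_option linter.unusedSectionVars false
set_option linter.unusedVariables false

open MvPolynomial
open scoped Pointwise

namespace Pool.Agent.Helper21K9.OD

open Pool.Agent.H918R2.Quad Pool.Agent.TH214.RM

variable {R F σ : Type} [CommRing R] [IsDomain R] [IsDiscreteValuationRing R] [Field F]
  [Algebra R F] [Fintype σ] [DecidableEq σ]

/-- The chart at a nondegenerate critical point, with a unit denominator `c₂`. -/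
theorem core_crit (rep : S_REP) (lg : S_LG) (reg : S_REG) (𝒪 : Subring F) (hloc : IsLoc 𝒪)
    (hR : ∀ r : R, algebraMap R F r ∈ 𝒪) (hRU : ∀ r : R, U 𝒪 (algebraMap R F r) → IsUnit r)
    (hinj : Function.Injective (algebraMap R F))
    (ϖ : R) (hϖ : Irreducible ϖ) (t : σ → F) (ht : ∀ j, t j ∈ 𝒪) (E : MvPolynomial σ R)
    (hE0 : E ≠ 0) (hEt : aeval t E = 0)
    (j₀ : σ) (hj₀ : AlgebraicIndependent R (fun j : {j // j ≠ j₀} => t j))
    (hcr : ∀ j, ¬ U 𝒪 (aeval t (pderiv j E))) (hdet : U 𝒪 (aeval t (hess E).det))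
    (v m : ℕ) (hvm : v < 2 * m)
    (hv : C ϖ ^ v ∈ Ideal.span (insert E (Set.range fun j => pderiv j E)))
    (θ : ℕ → F) (hθ0 : ∀ j ∈ Finset.Icc 1 m, θ j ≠ 0)
    (hF1 : ∀ j ∈ Finset.Icc 1 m, algebraMap R F ϖ ^ j / θ j ∈ 𝒪)
    (hF2 : ∀ j ∈ Finset.Icc 1 m, ∀ i, aeval t (pderiv i E) / θ j ∈ 𝒪)
    (hF3 : ∀ j ∈ Finset.Icc 1 m, ∃ (a : F) (b : σ → F), a ∈ 𝒪 ∧ (∀ i, b i ∈ 𝒪) ∧
      θ j = a * algebraMap R F ϖ ^ j + ∑ i, b i * aeval t (pderiv i E))
    (𝒢 : Set F) (g : F) (X₀ : F) (hX : X₀ ≠ 0)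
    (c₂ : MvPolynomial σ R) (hc₂ : U 𝒪 (aeval t c₂))
    (hgen : ∀ h ∈ 𝒢, ∃ (a : MvPolynomial σ R) (β : ℕ → F),
      aeval t c₂ * h = X₀ * aeval t a * ∏ j ∈ Finset.Icc 1 m, β j ∧
      ∀ j ∈ Finset.Icc 1 m, ∃ (a : MvPolynomial σ R) (b : σ → MvPolynomial σ R),
        β j = aeval t a * algebraMap R F ϖ ^ j + ∑ i, aeval t (b i) * aeval t (pderiv i E))
    (hg : g ∈ Submodule.span R 𝒢) (hU : U 𝒪 (g / (X₀ * ∏ j ∈ Finset.Icc 1 m, θ j)))
    (hloc2 : IsLocOf 𝒪 (chart R (Submodule.span R 𝒢) g)) : IsRegularLocalRing 𝒪 := by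
  classical
  set p : F := algebraMap R F ϖ with hpdef
  have hp : p ≠ 0 := by
    rw [hpdef, Ne, map_eq_zero_iff _ hinj]
    exact hϖ.ne_zero
  have hpO : p ∈ 𝒪 := hR ϖ
  have hpU : ¬ U 𝒪 p := fun h => hϖ.not_isUnit (hRU ϖ h)
  let eB : MvPolynomial σ R →ₐ[R] F := aeval t
  have heB : ∀ b, eB b ∈ 𝒪 := aeval_mem 𝒪 hR t ht
  let Q : Ideal (MvPolynomial σ R) := primeOf hloc (eB : MvPolynomial σ R →+* F) heB
  have hQp : Q.IsPrime := primeOf_isPrime hloc _ heB
  have hQ : ∀ b, b ∈ Q ↔ ¬ U 𝒪 (eB b) := fun b => mem_primeOf hloc _ heB b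
  have hQC : ∀ r : R, C r ∈ Q ↔ ¬ IsUnit r := by
    intro r
    rw [hQ]
    change ¬ U 𝒪 (aeval t (C r)) ↔ _
    rw [aeval_C]
    refine not_congr ⟨hRU r, fun h => ?_⟩
    obtain ⟨u, rfl⟩ := h
    have h1 : algebraMap R F (u : R) * algebraMap R F ((u⁻¹ : Rˣ) : R) = 1 := by
      rw [← map_mul, Units.mul_inv, map_one]
    refine ⟨left_ne_zero_of_mul_eq_one h1, hR _, ?_⟩
    rw [inv_eq_of_mul_eq_one_right h1]
    exact hR _
  have hyQ : ∀ j, pderiv j E ∈ Q := fun j => (hQ _).2 (hcr j)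
  have hdQ : (hess E).det ∉ Q := fun h => (hQ _).1 h hdet
  have hEQ : E ∈ Q := by
    rw [hQ]
    change ¬ U 𝒪 (aeval t E)
    rw [hEt]
    exact not_U_zero
  obtain ⟨hQm, hQh, hQg⟩ := lg R σ ϖ hϖ E Q hQp hQC hyQ hdQ
  obtain ⟨k, c, γ, h, hk1, hkv, hc, hγ, hrep, hh⟩ := rep R σ ϖ hϖ E Q hQp hQC hEQ hyQ hdQ v
    ⟨1, (Ideal.ne_top_iff_one Q).1 hQp.ne_top, by rw [one_mul]; exact hv⟩
  have hγU : U 𝒪 (eB γ) := by
    by_contra hcon
    exact hγ ((hQ γ).2 hcon)
  set y : σ → F := fun l => aeval t (pderiv l E) with hy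
  have hyO : ∀ l, y l ∈ 𝒪 := fun l => heB _
  have hrepF : p ^ k * eB γ + ∑ a, ∑ b, eB (h a b) * y a * y b = 0 := by
    have h1 := congrArg eB hrep
    rw [map_mul] at h1
    change eB c * aeval t E = _ at h1
    rw [hEt, mul_zero] at h1
    rw [h1]
    simp only [eB, map_add, map_mul, map_pow, map_sum, aeval_C]
    rfl
  -- the scale
  have hnm : ¬ ∀ l, y l / p ^ m ∈ 𝒪 := by
    intro hcon
    have h1 := order_bound p (eB γ) (∑ a, ∑ b, eB (h a b) * (y a / p ^ m) * (y b / p ^ m)) 1 hp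
      hpO hpU hγU (Subring.sum_mem _ fun a _ => Subring.sum_mem _ fun b _ =>
        𝒪.mul_mem (𝒪.mul_mem (heB _) (hcon a)) (hcon b)) 𝒪.one_mem k m (by
        rw [← hrepF, one_pow, mul_one, Finset.mul_sum]
        congr 1
        refine Finset.sum_congr rfl fun a _ => ?_
        rw [Finset.mul_sum]
        refine Finset.sum_congr rfl fun b _ => ?_
        have := pow_ne_zero m hp
        have h2 : p ^ (2 * m) = p ^ m * p ^ m := by rw [← pow_add]; congr 1; omega
        rw [h2]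
        field_simp)
    omega
  obtain ⟨s, hsm, hs1, hs2⟩ := exists_scale p y m hyO hnm
  obtain ⟨i, hi0, hi1, hi2⟩ := exists_min hloc p hp y m s hsm hs2 θ hθ0 hF1 hF2 hF3
  have hui : y i / p ^ s ∈ 𝒪 := hs1 i
  have hk2 : 2 * s ≤ k := by
    refine order_bound p (eB γ) (∑ a, ∑ b, eB (h a b) * (y a / y i) * (y b / y i)) (y i / p ^ s)
      hp hpO hpU hγU (Subring.sum_mem _ fun a _ => Subring.sum_mem _ fun b _ =>
        𝒪.mul_mem (𝒪.mul_mem (heB _) (hi1 a)) (hi1 b)) hui k s ?_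
    rw [← hrepF, Finset.mul_sum]
    congr 1
    refine Finset.sum_congr rfl fun a _ => ?_
    rw [Finset.mul_sum]
    refine Finset.sum_congr rfl fun b _ => ?_
    have := pow_ne_zero s hp
    have h2 : p ^ (2 * s) = p ^ s * p ^ s := by rw [← pow_add]; congr 1; omega
    rw [h2]
    field_simp
  -- the presentation
  let e : MvPolynomial (Option σ) (MvPolynomial σ R) →ₐ[R] F := ext eB (zval p y s i)
  have heC : ∀ b, e (C b) = eB b := fun b => ext_C eB _ b
  have he : ∀ w, e w ∈ 𝒪 := by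
    intro w
    induction w using MvPolynomial.induction_on with
    | C b => rw [heC]; exact heB b
    | add a b ha hb => rw [map_add]; exact 𝒪.add_mem ha hb
    | mul_X a v ha =>
      rw [map_mul]
      refine 𝒪.mul_mem ha ?_
      change ext eB (zval p y s i) (X v) ∈ 𝒪
      rw [ext_X]
      exact zval_mem 𝒪 p y s i hi2 hui hi1 v
  have hpe : eB (C ϖ) = p := aeval_C _ _
  have hrelv : ∀ v, e (rel (C ϖ) (fun j => pderiv j E) s i v) = 0 := by
    intro v
    have h1 := rel_val eB (C ϖ) (fun j => pderiv j E) s i (by rw [hpe]; exact hp) hi0 v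
    rw [hpe] at h1
    exact h1
  have heqnv : e (eqn (C ϖ) γ h s k i) = 0 := by
    have h1 := eqn_val eB (C ϖ) γ (fun j => pderiv j E) h s k hk2 i (by rw [hpe]; exact hp) hi0
      (by rw [hpe]; exact hrepF)
    rw [hpe] at h1
    exact h1
  let I : Ideal (MvPolynomial (Option σ) (MvPolynomial σ R)) :=
    Ideal.span (insert (eqn (C ϖ) γ h s k i) (Set.range (rel (C ϖ) (fun j => pderiv j E) s i)))
  have hI : ∀ w ∈ I, e w = 0 := by
    intro w hw
    have h1 : I ≤ RingHom.ker (e : MvPolynomial (Option σ) (MvPolynomial σ R) →+* F) := by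
      rw [Ideal.span_le]
      rintro x (rfl | ⟨v, rfl⟩)
      · exact heqnv
      · exact hrelv v
    exact h1 hw
  obtain ⟨A, _, _, pr, hpr, hprk, hpr0⟩ := exists_quot (R := R) I
  obtain ⟨hq1, hq2, hq3⟩ := quot_rel (pr : MvPolynomial (Option σ) (MvPolynomial σ R) →+* A)
    (C ϖ) γ (fun j => pderiv j E) h s k hk2 i hprk
  -- fractions
  let θ' : ℕ → F := fun j => if j ≤ s then p ^ j else y i
  have hθ'0 : ∀ j, θ' j ≠ 0 := by
    intro j
    simp only [θ']
    split_ifs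
    · exact pow_ne_zero _ hp
    · exact hi0
  have hzz : ∀ l, e (zz i l) = y l / y i := fun l => zz_val eB p y s i hi0 l
  have hXu : e (X (some i)) = y i / p ^ s := by
    change ext eB (zval p y s i) (X (some i)) = _
    rw [ext_X]
    simp [zval]
  have hXw : e (X none) = p ^ (s + 1) / y i := by
    change ext eB (zval p y s i) (X none) = _
    rw [ext_X]
    rfl
  have hps := pow_ne_zero s hp
  have hc₂0 : eB c₂ ≠ 0 := hc₂.1
  have hgen' : ∀ h ∈ 𝒢, ∃ w, h = (X₀ * (∏ j ∈ Finset.Icc 1 m, θ' j) / eB c₂) * e w := by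
    intro h' hh'
    obtain ⟨a, β, hhe, hβ⟩ := hgen h' hh'
    have hβ' : ∀ j, ∃ w, j ∈ Finset.Icc 1 m → β j = θ' j * e w := by
      intro j
      by_cases hj : j ∈ Finset.Icc 1 m
      · obtain ⟨a, b, hb⟩ := hβ j hj
        by_cases hjs : j ≤ s
        · refine ⟨C a + ∑ l, C (b l) * (C (C ϖ) ^ (s - j) * X (some i) * zz i l), fun _ => ?_⟩
          have h2 : p ^ s = p ^ j * p ^ (s - j) := by rw [← pow_add]; congr 1; omega
          simp only [θ', if_pos hjs]
          rw [hb, map_add, map_sum, heC, mul_add, Finset.mul_sum, mul_comm (aeval t a)]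
          congr 1
          refine Finset.sum_congr rfl fun l _ => ?_
          rw [map_mul, map_mul, map_mul, map_pow, heC, heC, hpe, hXu, hzz]
          change eB (b l) * y l = _
          rw [h2]
          have := pow_ne_zero j hp
          have := pow_ne_zero (s - j) hp
          field_simp
        · refine ⟨C a * C (C ϖ) ^ (j - (s + 1)) * X none + ∑ l, C (b l) * zz i l, fun _ => ?_⟩
          have h2 : p ^ j = p ^ (j - (s + 1)) * p ^ (s + 1) := by
            rw [← pow_add]; congr 1; omega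
          simp only [θ', if_neg hjs]
          rw [hb, map_add, map_sum, mul_add, Finset.mul_sum]
          congr 1
          · rw [map_mul, map_mul, map_pow, heC, heC, hpe, hXw, h2]
            field_simp
            rfl
          · refine Finset.sum_congr rfl fun l _ => ?_
            rw [map_mul, heC, hzz]
            change eB (b l) * y l = _
            field_simp
      · exact ⟨0, fun h => absurd h hj⟩
    choose w hw using hβ'
    refine ⟨C a * ∏ j ∈ Finset.Icc 1 m, w j, ?_⟩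
    have hhe' : h' = X₀ * eB a * (∏ j ∈ Finset.Icc 1 m, β j) / eB c₂ := by
      rw [eq_div_iff hc₂0, mul_comm]
      exact hhe
    rw [hhe', Finset.prod_congr rfl fun j hj => hw j hj, Finset.prod_mul_distrib, map_mul,
      map_prod, heC]
    ring
  have hUg : U 𝒪 (g / (X₀ * (∏ j ∈ Finset.Icc 1 m, θ' j) / eB c₂)) := by
    have h2 : ∏ j ∈ Finset.Icc 1 m, θ j ≠ 0 := Finset.prod_ne_zero_iff.2 hθ0
    have h3 : ∏ j ∈ Finset.Icc 1 m, θ' j ≠ 0 := Finset.prod_ne_zero_iff.2 fun j _ => hθ'0 j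
    have h1 : g / (X₀ * (∏ j ∈ Finset.Icc 1 m, θ' j) / eB c₂) =
        g / (X₀ * ∏ j ∈ Finset.Icc 1 m, θ j) * (∏ j ∈ Finset.Icc 1 m, (θ j / θ' j)) * eB c₂ := by
      rw [Finset.prod_div_distrib]
      field_simp
    rw [h1]
    exact (hU.mul (prod_unit _ _ fun j hj =>
      unit_ratio p hp hpO y m s hs1 i hi0 hi1 hi2 θ hθ0 hF1 hF2 hF3 j hj)).mul hc₂
  have hfrac := frac_of_chart e he 𝒢 g (X₀ * (∏ j ∈ Finset.Icc 1 m, θ' j) / eB c₂)
    (div_ne_zero (mul_ne_zero hX (Finset.prod_ne_zero_iff.2 fun j _ => hθ'0 j)) hc₂0) hgen' hg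
    hUg hloc2
  have haev : ∀ q : MvPolynomial σ R, aeval (fun j : σ =>
      (C (X j) : MvPolynomial (Option σ) (MvPolynomial σ R))) q = C q := by
    intro q
    have h1 : (aeval (fun j : σ => (C (X j) : MvPolynomial (Option σ) (MvPolynomial σ R))) :
        MvPolynomial σ R →ₐ[R] _) =
        IsScalarTower.toAlgHom R (MvPolynomial σ R)
          (MvPolynomial (Option σ) (MvPolynomial σ R)) := by
      apply MvPolynomial.algHom_ext
      intro j
      rw [aeval_X]
      rfl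
    rw [h1]
    rfl
  refine regular_of_pres 𝒪 hloc pr hpr e ?_ he hfrac ?_ (fun j : σ => C (X j)) (c * E) ?_ ?_
    j₀ ?_ ?_
  · intro w hw
    exact hI w ((hpr0 w).1 hw)
  · intro q hq hqm
    refine reg (MvPolynomial σ R) σ A Q hQm (C ϖ) (fun j => pderiv j E)
      ((hQC ϖ).2 hϖ.not_isUnit) hyQ hQh hQg h γ hγ hh s k i hk2 hk1
      (pr : MvPolynomial (Option σ) (MvPolynomial σ R) →+* A) hpr hprk q ?_
    intro b
    rw [hQ]
    refine (hqm (C b)).trans ?_
    rw [heC]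
  · refine mul_ne_zero ?_ hE0
    rintro rfl
    exact hc Q.zero_mem
  · rw [haev]
    have h1 : pr (C (c * E)) = (pr : MvPolynomial (Option σ) (MvPolynomial σ R) →+* A)
        (C (c * E)) := rfl
    rw [h1, hrep, map_add, map_add, map_mul, map_mul, map_pow, map_pow, map_sum, map_sum]
    rw [← hq3]
    congr 1
    refine Finset.sum_congr rfl fun a _ => ?_
    rw [map_sum, map_sum]
    refine Finset.sum_congr rfl fun b _ => ?_
    rw [map_mul, map_mul, map_mul, map_mul]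
  · convert hj₀ using 2 with j
    rw [heC]
    exact aeval_X _ _
  · intro w
    obtain ⟨N, q, hq⟩ := quot_frac (pr : MvPolynomial (Option σ) (MvPolynomial σ R) →+* A)
      (C ϖ) (fun j => pderiv j E) s i hq1 hq2 w
    refine ⟨q, (C ϖ * pderiv i E) ^ N, ?_, ?_⟩
    · rw [haev, heC, map_pow, map_mul, hpe]
      exact pow_ne_zero _ (mul_ne_zero hp hi0)
    · rw [haev, haev]
      exact hq

end Pool.Agent.Helper21K9.OD
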