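import Pool.Agent.Helper21K9.OD.Forms
import Pool.Agent.TH214.RM.Smooth

/-! A positive proportion of the integral forms is good at all primes. -/

set_option autoImplicit false
set_option linter.unusedSectionVars false
set_option linter.unusedVariables false

open MvPolynomial

namespace Pool.Agent.Helper21K9.OD

open Pool.Agent.TH214.RM Pool.Agent.Helper21K9.SV

/-- The fibre of the form over `p` has only nondegenerate quadratic singularities. -/
def GoodAt {n : ℕ} (G : MvPolynomial (Fin (n + 2)) ℤ) (p : ℕ) : Prop :=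
  ∀ (s : Fin (n + 2)) (Q : Ideal (MvPolynomial {j // j ≠ s} ℤ)), Q.IsPrime →
    (∀ z : ℤ, C z ∈ Q ↔ (p : ℤ) ∣ z) → deh s G ∈ Q →
    (∃ j, pderiv j (deh s G) ∉ Q) ∨ (hess (deh s G)).det ∉ Q

theorem form_map {R S : Type} [CommRing R] [CommRing S] (φ : R →+* S) {n d : ℕ}
    (a : Mon n d → R) : map φ (form a) = form fun m => φ (a m) := by
  unfold form
  rw [map_sum]
  exact Finset.sum_congr rfl fun m _ => map_monomial _ _ _

theorem form_homog {R : Type} [CommRing R] {n d : ℕ} (a : Mon n d → R) :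
    (form a).IsHomogeneous d := by
  unfold form
  refine IsHomogeneous.sum _ _ _ fun m _ => ?_
  refine isHomogeneous_monomial _ ?_
  have h1 := (Finset.mem_finsuppAntidiag.1 m.2).1
  exact (Finsupp.degree_eq_sum _).trans h1

theorem degIdeal_map {R S : Type} [CommRing R] [CommRing S] (φ : R →+* S) {n : ℕ}
    (s : Fin (n + 2)) (G : MvPolynomial (Fin (n + 2)) R) :
    (degIdeal s G).map (map φ : MvPolynomial {j // j ≠ s} R →+* MvPolynomial {j // j ≠ s} S) ≤
      degIdeal s (map φ G) := by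
  unfold degIdeal
  rw [Ideal.map_span, Ideal.span_le]
  rintro _ ⟨f, (rfl | rfl | ⟨j, rfl⟩), rfl⟩
  · rw [map_deh]
    exact Ideal.subset_span (Or.inl rfl)
  · rw [RingHom.map_det, RingHom.mapMatrix_apply]
    have h1 : (hess (deh s G)).map (map φ) = hess (deh s (map φ G)) := by
      rw [← map_deh]
      ext1 i j
      simp only [Matrix.map_apply, hess, Matrix.of_apply]
      rw [pderiv_map, pderiv_map]
    rw [h1]
    exact Ideal.subset_span (Or.inr (Or.inl rfl))
  · simp only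
    rw [← pderiv_map, map_deh]
    exact Ideal.subset_span (Or.inr (Or.inr ⟨j, rfl⟩))

theorem good_of_uni {n d : ℕ} (a : Mon n d → ℤ) (p : ℕ)
    (h : ∀ s : Fin (n + 2), ∃ Φ Ψ : MvPolynomial (Mon n d) ℤ,
      C Φ ∈ degIdeal s (gform n d) ∧ C Ψ ∈ degIdeal s (gform n d) ∧
      ¬ ((p : ℤ) ∣ eval a Φ ∧ (p : ℤ) ∣ eval a Ψ)) : GoodAt (form a) p := by
  intro s Q hQ hQC hG
  by_contra hcon
  push Not at hcon
  obtain ⟨hder, hdet⟩ := hcon
  obtain ⟨Φ, Ψ, hΦ, hΨ, hn⟩ := h s
  have hle : degIdeal s (form a) ≤ Q := by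
    unfold degIdeal
    rw [Ideal.span_le]
    rintro f (rfl | rfl | ⟨j, rfl⟩)
    · exact hG
    · exact hdet
    · exact hder j
  have hg : map (eval a) (gform n d) = form a := by
    unfold gform
    rw [form_map]
    congr 1
    funext m
    exact eval_X _
  have key : ∀ Θ : MvPolynomial (Mon n d) ℤ, C Θ ∈ degIdeal s (gform n d) →
      (p : ℤ) ∣ eval a Θ := by
    intro Θ hΘ
    rw [← hQC]
    apply hle
    have h1 := degIdeal_map (eval a) s (gform n d) (Ideal.mem_map_of_mem _ hΘ)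
    rw [map_C, hg] at h1
    exact h1
  exact hn ⟨key Φ hΦ, key Ψ hΨ⟩

/-- Simultaneous congruences. -/
theorem exists_crt {ι : Type} (S : Finset ℕ) (hS : ∀ p ∈ S, p.Prime) (r : ℕ → ι → ℤ) :
    ∃ r₀ : ι → ℤ, ∀ p ∈ S, ∀ i, (p : ℤ) ∣ r₀ i - r p i := by
  classical
  induction S using Finset.induction_on with
  | empty => exact ⟨0, by simp⟩
  | insert q S hq ih =>
    obtain ⟨r₁, hr₁⟩ := ih fun p hp => hS p (Finset.mem_insert_of_mem hp)
    have hqp := hS q (Finset.mem_insert_self _ _)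
    have hcop : IsCoprime (q : ℤ) (∏ p ∈ S, (p : ℤ)) := by
      refine IsCoprime.prod_right fun p hp => ?_
      rw [Nat.isCoprime_iff_coprime]
      refine (Nat.coprime_primes hqp (hS p (Finset.mem_insert_of_mem hp))).2 ?_
      rintro rfl
      exact hq hp
    obtain ⟨u, v, huv⟩ := hcop
    refine ⟨fun i => r₁ i * (u * q) + r q i * (v * ∏ p ∈ S, (p : ℤ)), ?_⟩
    intro p hp i
    rcases Finset.mem_insert.1 hp with rfl | hp
    · refine ⟨(r₁ i - r p i) * u, ?_⟩
      simp only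
      linear_combination (r p i) * huv
    · obtain ⟨c, hc⟩ := hr₁ p hp i
      obtain ⟨e, he⟩ := Finset.dvd_prod_of_mem (fun p : ℕ => (p : ℤ)) hp
      refine ⟨c + (r q i - r₁ i) * v * e, ?_⟩
      simp only at he ⊢
      linear_combination hc + (r₁ i) * huv + (r q i - r₁ i) * v * he

/-- The number of integers in a residue class. -/
theorem count_class (H P : ℕ) (hP : 0 < P) (hPH : P ≤ 2 * H + 1) (r : ℤ) :
    2 * H + 1 ≤ 2 * P *
      ((Finset.Icc (-(H : ℤ)) H).filter fun z => (P : ℤ) ∣ z - r).card := by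
  classical
  set N := (2 * H + 1) / P with hN
  have h1 : N ≤ ((Finset.Icc (-(H : ℤ)) H).filter fun z => (P : ℤ) ∣ z - r).card := by
    have h2 : (Finset.range N).card ≤
        ((Finset.Icc (-(H : ℤ)) H).filter fun z => (P : ℤ) ∣ z - r).card := by
      refine Finset.card_le_card_of_injOn
        (fun k => -(H : ℤ) + (r + H) % P + k * P) ?_ ?_
      · intro k hk
        rw [Finset.mem_coe, Finset.mem_range] at hk
        rw [Finset.mem_coe, Finset.mem_filter, Finset.mem_Icc]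
        have hP' : (0 : ℤ) < P := by exact_mod_cast hP
        have h3 := Int.emod_nonneg (r + H) hP'.ne'
        have h4 := Int.emod_lt_of_pos (r + H) hP'
        have h5 : (k + 1) * P ≤ 2 * H + 1 := by
          calc (k + 1) * P ≤ N * P := Nat.mul_le_mul_right _ (by omega)
            _ ≤ 2 * H + 1 := Nat.div_mul_le_self _ _
        have h6 : ((k : ℤ) + 1) * P ≤ 2 * H + 1 := by exact_mod_cast h5
        have h7 : (0 : ℤ) ≤ k * P := by positivity
        refine ⟨⟨by linarith, by linarith⟩, ?_⟩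
        have h8 := Int.emod_add_mul_ediv (r + H) P
        refine ⟨k - (r + H) / P, ?_⟩
        linear_combination h8
      · intro a _ b _ hab
        have hP' : (P : ℤ) ≠ 0 := by exact_mod_cast hP.ne'
        simp only at hab
        have h3 : (a : ℤ) * P = b * P := by linarith
        have h4 := mul_right_cancel₀ hP' h3
        exact_mod_cast h4
    rwa [Finset.card_range] at h2
  have h2 : 2 * H + 1 < (N + 1) * P := by
    have := Nat.lt_div_mul_add (a := 2 * H + 1) hP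
    rw [hN, add_mul, one_mul]
    exact this
  have h3 : 1 ≤ N := (Nat.one_le_div_iff hP).2 hPH
  calc 2 * H + 1 ≤ (N + 1) * P := h2.le
    _ ≤ (2 * N) * P := Nat.mul_le_mul_right _ (by omega)
    _ = 2 * P * N := by ring
    _ ≤ _ := Nat.mul_le_mul_left _ h1

theorem count_box {ι : Type} [Fintype ι] [DecidableEq ι] (H P : ℕ) (hP : 0 < P)
    (hPH : P ≤ 2 * H + 1) (r : ι → ℤ) :
    (2 * H + 1) ^ Fintype.card ι ≤ (2 * P) ^ Fintype.card ι *
      ((box ι H).filter fun a => ∀ i, (P : ℤ) ∣ a i - r i).card := by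
  classical
  have h1 : (box ι H).filter (fun a => ∀ i, (P : ℤ) ∣ a i - r i) =
      Fintype.piFinset fun i => (Finset.Icc (-(H : ℤ)) H).filter fun z => (P : ℤ) ∣ z - r i := by
    ext a
    simp only [box, Finset.mem_filter, Fintype.mem_piFinset]
    constructor
    · rintro ⟨h1, h2⟩ i
      exact ⟨h1 i, h2 i⟩
    · intro h
      exact ⟨fun i => (h i).1, fun i => (h i).2⟩
  rw [h1, Fintype.card_piFinset, ← Finset.card_univ, ← Finset.prod_const, ← Finset.prod_const,
    ← Finset.prod_mul_distrib]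
  exact Finset.prod_le_prod' fun i _ => count_class H P hP hPH (r i)

theorem dens_arith (M X S B G P p₀ c : ℕ) (hcount : X ≤ (2 * P) ^ M * c)
    (h1 : p₀ * P ^ M * B ≤ S * X) (h2 : 2 ^ (M + 1) * S ≤ p₀) (hp : 0 < p₀) (hP : 0 < P)
    (hcard : c ≤ B + G) : X ≤ 2 ^ (M + 1) * P ^ M * G := by
  have h3 : 2 ^ (M + 1) * S * (P ^ M * B) ≤ S * X := by
    calc 2 ^ (M + 1) * S * (P ^ M * B)
        ≤ p₀ * (P ^ M * B) := Nat.mul_le_mul_right _ h2
      _ = p₀ * P ^ M * B := by ring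
      _ ≤ _ := h1
  have h4 : 2 ^ (M + 1) * (P ^ M * B) ≤ X := by
    rcases Nat.eq_zero_or_pos S with hS0 | hS0
    · have h5 : B = 0 := by
        have h6 : p₀ * P ^ M * B ≤ 0 := by
          rw [hS0, zero_mul] at h1
          exact h1
        have h7 : 0 < p₀ * P ^ M := by positivity
        exact (Nat.mul_eq_zero.1 (Nat.le_zero.1 h6)).resolve_left h7.ne'
      rw [h5, mul_zero, mul_zero]
      exact Nat.zero_le _
    · have h5 : S * (2 ^ (M + 1) * (P ^ M * B)) ≤ S * X := by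
        calc S * (2 ^ (M + 1) * (P ^ M * B)) = 2 ^ (M + 1) * S * (P ^ M * B) := by ring
          _ ≤ _ := h3
      exact Nat.le_of_mul_le_mul_left h5 hS0
  have h5 : 2 * X ≤ X + 2 ^ (M + 1) * P ^ M * G := by
    calc 2 * X ≤ 2 * ((2 * P) ^ M * c) := Nat.mul_le_mul_left _ hcount
      _ = 2 ^ (M + 1) * P ^ M * c := by rw [mul_pow, pow_succ]; ring
      _ ≤ 2 ^ (M + 1) * P ^ M * (B + G) := Nat.mul_le_mul_left _ hcard
      _ = 2 ^ (M + 1) * (P ^ M * B) + 2 ^ (M + 1) * P ^ M * G := by ring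
      _ ≤ _ := Nat.add_le_add_right h4 _
  omega

/-- The good forms. -/
def goodSet (n d H : ℕ) : Set (Mon n d → ℤ) :=
  {a | a ∈ box (Mon n d) H ∧ Smooth (map (Int.castRingHom ℚ) (form a)) ∧
    ∀ p : ℕ, p.Prime → GoodAt (form a) p}

theorem dens (ek : S_EK) (uni : S_UNI) (sm : S_SM) (smq : S_SMQ) (n d : ℕ) (hd : 3 ≤ d) :
    ∃ c : ℕ, 0 < c ∧ ∃ H₀ : ℕ, ∀ H : ℕ, H₀ ≤ H →
      (2 * H + 1) ^ Fintype.card (Mon n d) ≤ c * (goodSet n d H).ncard := by
  classical
  set M := Fintype.card (Mon n d) with hM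
  choose Φ Ψ hcop hΦ hΨ using uni n d (by omega)
  choose Cs hCs using fun s => ek (Mon n d) (Φ s) (Ψ s) (hcop s)
  set p₀ : ℕ := 2 ^ (M + 1) * (∑ s, Cs s) + (∑ s, Cs s) + 2 with hp₀
  have hCp : ∀ s, Cs s ≤ p₀ := by
    intro s
    have h1 : Cs s ≤ ∑ s, Cs s := Finset.single_le_sum (fun _ _ => Nat.zero_le _)
      (Finset.mem_univ s)
    omega
  set T : Finset ℕ := (Finset.range (p₀ + 1)).filter Nat.Prime with hT
  set P : ℕ := ∏ p ∈ T, p with hP
  have hP0 : 0 < P := Finset.prod_pos fun p hp => (Finset.mem_filter.1 hp).2.pos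
  have hTP : ∀ p, p.Prime → p ≤ p₀ → p ∣ P := by
    intro p hp hpp
    refine Finset.dvd_prod_of_mem _ ?_
    rw [hT, Finset.mem_filter, Finset.mem_range]
    exact ⟨by omega, hp⟩
  have hPT : ∀ p, p.Prime → p ∣ P → p ≤ p₀ := by
    intro p hp hpP
    obtain ⟨q, hq, hpq⟩ := (Prime.dvd_finsetProd_iff hp.prime _).1 hpP
    have h1 := Finset.mem_filter.1 hq
    have h2 := (Nat.prime_dvd_prime_iff_eq hp h1.2).1 hpq
    rw [h2]
    have h3 := Finset.mem_range.1 h1.1
    omega
  have hr : ∀ p : ℕ, ∃ r : Mon n d → ℤ, p.Prime → ∀ a : Mon n d → ℤ,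
      (∀ m, (p : ℤ) ∣ a m - r m) → ∀ (s : Fin (n + 2)) (Q : Ideal (MvPolynomial {j // j ≠ s} ℤ)),
      Q.IsPrime → (∀ z : ℤ, C z ∈ Q ↔ (p : ℤ) ∣ z) → deh s (form a) ∈ Q →
      ∃ j, pderiv j (deh s (form a)) ∉ Q := by
    intro p
    by_cases hp : p.Prime
    · obtain ⟨r, hr⟩ := sm n d p hd hp
      exact ⟨r, fun _ => hr⟩
    · exact ⟨0, fun h => absurd h hp⟩
  choose r hr using hr
  obtain ⟨r₀, hr₀⟩ := exists_crt T (fun p hp => (Finset.mem_filter.1 hp).2) r
  have hbad : ∀ s, ∃ H₀ : ℕ, ∀ H : ℕ, H₀ ≤ H →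
        p₀ * P ^ M * Set.ncard {a : Mon n d → ℤ | a ∈ box (Mon n d) H ∧
          (∀ i, (P : ℤ) ∣ a i - r₀ i) ∧
          ∃ p : ℕ, p.Prime ∧ p₀ < p ∧ (p : ℤ) ∣ eval a (Φ s) ∧ (p : ℤ) ∣ eval a (Ψ s)} ≤
        Cs s * (2 * H + 1) ^ M := fun s => hCs s p₀ P (hCp s) hP0 hPT r₀
  choose H₀ hH₀ using hbad
  refine ⟨2 ^ (M + 1) * P ^ M, by positivity, (∑ s, H₀ s) + P, fun H hH => ?_⟩
  have hHs : ∀ s, H₀ s ≤ H := by
    intro s
    have h1 : H₀ s ≤ ∑ s, H₀ s := Finset.single_le_sum (fun _ _ => Nat.zero_le _)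
      (Finset.mem_univ s)
    omega
  set cls : Finset (Mon n d → ℤ) :=
    (box (Mon n d) H).filter fun a => ∀ i, (P : ℤ) ∣ a i - r₀ i with hcls
  set bad : Fin (n + 2) → Finset (Mon n d → ℤ) := fun s => cls.filter fun a =>
    ∃ p : ℕ, p.Prime ∧ p₀ < p ∧ (p : ℤ) ∣ eval a (Φ s) ∧ (p : ℤ) ∣ eval a (Ψ s) with hbad
  have hcount := count_box H P hP0 (by omega) r₀
  rw [← hcls, ← hM] at hcount
  have hbadc : ∀ s, p₀ * P ^ M * (bad s).card ≤ Cs s * (2 * H + 1) ^ M := by
    intro s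
    have h1 := hH₀ s H (hHs s)
    have h2 : {a : Mon n d → ℤ | a ∈ box (Mon n d) H ∧
          (∀ i, (P : ℤ) ∣ a i - r₀ i) ∧
          ∃ p : ℕ, p.Prime ∧ p₀ < p ∧ (p : ℤ) ∣ eval a (Φ s) ∧ (p : ℤ) ∣ eval a (Ψ s)} =
        ((bad s : Finset (Mon n d → ℤ)) : Set (Mon n d → ℤ)) := by
      ext a
      simp only [hbad, hcls, Finset.coe_filter, Finset.mem_filter, Set.mem_ofPred_eq, and_assoc]
    rw [h2, Set.ncard_coe_finset] at h1
    exact h1
  have hsub : cls ⊆ (Finset.univ.biUnion bad) ∪ (cls.filter fun a => a ∈ goodSet n d H) := by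
    intro a ha
    rw [Finset.mem_union, Finset.mem_filter, Finset.mem_biUnion]
    by_cases hb : ∃ s, a ∈ bad s
    · obtain ⟨s, hs⟩ := hb
      exact Or.inl ⟨s, Finset.mem_univ _, hs⟩
    · right
      refine ⟨ha, ?_⟩
      push Not at hb
      rw [hcls, Finset.mem_filter] at ha
      have hsmall : ∀ p : ℕ, p.Prime → p ≤ p₀ → ∀ (s : Fin (n + 2))
          (Q : Ideal (MvPolynomial {j // j ≠ s} ℤ)),
          Q.IsPrime → (∀ z : ℤ, C z ∈ Q ↔ (p : ℤ) ∣ z) → deh s (form a) ∈ Q →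
          ∃ j, pderiv j (deh s (form a)) ∉ Q := by
        intro p hp hpp
        refine hr p hp a fun m => ?_
        have h1 : (p : ℤ) ∣ (P : ℤ) := by exact_mod_cast hTP p hp hpp
        have h2 := h1.trans (ha.2 m)
        have h3 := hr₀ p (by
          rw [hT, Finset.mem_filter, Finset.mem_range]
          exact ⟨by omega, hp⟩) m
        have h4 := dvd_add h2 h3
        rwa [sub_add_sub_cancel] at h4
      refine ⟨ha.1, ?_, ?_⟩
      · exact smq n d 2 (by omega) Nat.prime_two (form a) (form_homog a)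
          (hsmall 2 Nat.prime_two (by omega))
      · intro p hp
        by_cases hpp : p ≤ p₀
        · intro s Q hQ hQC hG
          exact Or.inl (hsmall p hp hpp s Q hQ hQC hG)
        · refine good_of_uni a p fun s => ⟨Φ s, Ψ s, hΦ s, hΨ s, ?_⟩
          rintro ⟨h1, h2⟩
          apply hb s
          rw [hbad]
          simp only
          rw [Finset.mem_filter]
          refine ⟨?_, p, hp, by omega, h1, h2⟩
          rw [hcls, Finset.mem_filter]
          exact ha
  have hfin : (goodSet n d H).Finite := (Finset.finite_toSet (box (Mon n d) H)).subset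
    fun a ha => ha.1
  have hle : (cls.filter fun a => a ∈ goodSet n d H).card ≤ (goodSet n d H).ncard := by
    rw [← Set.ncard_coe_finset]
    refine Set.ncard_le_ncard ?_ hfin
    intro a ha
    exact (Finset.mem_filter.1 ha).2
  have hcard : cls.card ≤ (∑ s, (bad s).card) + (goodSet n d H).ncard := by
    refine (Finset.card_le_card hsub).trans ((Finset.card_union_le _ _).trans ?_)
    exact Nat.add_le_add Finset.card_biUnion_le hle
  refine dens_arith M _ (∑ s, Cs s) (∑ s, (bad s).card) _ P p₀ cls.card hcount ?_ (by omega)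
    (by omega) hP0 hcard
  rw [Finset.mul_sum, Finset.sum_mul]
  exact Finset.sum_le_sum fun s _ => hbadc s

end Pool.Agent.Helper21K9.OD
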