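import Pool.Agent.H918R2.Quad.Reg2

/-! Hypersurfaces over a discrete valuation ring with nondegenerate quadratic singularities: the
statements of the local steps. -/

set_option autoImplicit false

open MvPolynomial

namespace Pool.Agent.Helper21K9.OD

/-- The Hessian matrix. -/
noncomputable def hess {R σ : Type} [CommRing R] (f : MvPolynomial σ R) :
    Matrix σ σ (MvPolynomial σ R) :=
  Matrix.of fun i j => pderiv i (pderiv j f)

/-- [LG] Local generators of the prime of a nondegenerate critical point in the closed fibre. -/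
def S_LG : Prop :=
  ∀ (R σ : Type) [CommRing R] [IsDomain R] [IsDiscreteValuationRing R] [Fintype σ]
    [DecidableEq σ] (ϖ : R), Irreducible ϖ → ∀ (f : MvPolynomial σ R)
    (Q : Ideal (MvPolynomial σ R)), Q.IsPrime → (∀ r : R, C r ∈ Q ↔ ¬ IsUnit r) →
    (∀ j, pderiv j f ∈ Q) → (hess f).det ∉ Q →
    Q.IsMaximal ∧ ((Fintype.card σ + 1 : ℕ) : ℕ∞) ≤ Q.height ∧
      ∀ z ∈ Q, ∃ c, c ∉ Q ∧ c * z ∈ Ideal.span (insert (C ϖ) (Set.range fun j => pderiv j f))

/-- [REP] The normal form of `f` at a nondegenerate critical point. -/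
def S_REP : Prop :=
  ∀ (R σ : Type) [CommRing R] [IsDomain R] [IsDiscreteValuationRing R] [Fintype σ]
    [DecidableEq σ] (ϖ : R), Irreducible ϖ → ∀ (f : MvPolynomial σ R)
    (Q : Ideal (MvPolynomial σ R)), Q.IsPrime → (∀ r : R, C r ∈ Q ↔ ¬ IsUnit r) → f ∈ Q →
    (∀ j, pderiv j f ∈ Q) → (hess f).det ∉ Q → ∀ v : ℕ,
    (∃ c, c ∉ Q ∧ c * C ϖ ^ v ∈ Ideal.span (insert f (Set.range fun j => pderiv j f))) →
    ∃ (k : ℕ) (c γ : MvPolynomial σ R) (h : σ → σ → MvPolynomial σ R), 1 ≤ k ∧ k ≤ v ∧ c ∉ Q ∧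
      γ ∉ Q ∧ c * f = C ϖ ^ k * γ + ∑ i, ∑ j, h i j * pderiv i f * pderiv j f ∧
      (Matrix.of fun i j => h i j + h j i).det ∉ Q

/-- The coordinates of the chart `i` of the blow-up: `z_i = 1`. -/
noncomputable def zz {B σ : Type} [CommRing B] [DecidableEq σ] (i l : σ) :
    MvPolynomial (Option σ) B :=
  if l = i then 1 else X (some l)

/-- The quadratic form `h` in these coordinates. -/
noncomputable def qq {B σ : Type} [CommRing B] [Fintype σ] [DecidableEq σ] (h : σ → σ → B)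
    (i : σ) : MvPolynomial (Option σ) B :=
  ∑ a, ∑ b, C (h a b) * zz i a * zz i b

/-- The relations of the chart (variables: `X (some i)` is `u = y_i / π ^ s`, `X none` is
`w = π ^ (s + 1) / y_i`, `X (some l)` is `y_l / y_i` for `l ≠ i`). -/
noncomputable def rel {B σ : Type} [CommRing B] [DecidableEq σ] (π : B) (y : σ → B) (s : ℕ)
    (i : σ) : Option σ → MvPolynomial (Option σ) B
  | none => C π - X (some i) * X none
  | some l => C (y l) - C π ^ s * X (some i) * zz i l

/-- The equation of the strict transform of `π ^ k γ + h(y)`, for `2 s ≤ k`. -/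
noncomputable def eqn {B σ : Type} [CommRing B] [Fintype σ] [DecidableEq σ] (π γ : B)
    (h : σ → σ → B) (s k : ℕ) (i : σ) : MvPolynomial (Option σ) B :=
  if k = 2 * s then C γ + X (some i) ^ 2 * qq h i
  else if k = 2 * s + 1 then X none * C γ + X (some i) * qq h i
  else X none ^ 2 * C π ^ (k - 2 * s - 2) * C γ + qq h i

/-- [REG] Regularity of the charts. -/
def S_REG : Prop :=
  ∀ (B σ A : Type) [CommRing B] [IsRegularRing B] [CommRing A] [Fintype σ] [DecidableEq σ]
    (Q : Ideal B), Q.IsMaximal → ∀ (π : B) (y : σ → B), π ∈ Q → (∀ j, y j ∈ Q) →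
    ((Fintype.card σ + 1 : ℕ) : ℕ∞) ≤ Q.height →
    (∀ z ∈ Q, ∃ c, c ∉ Q ∧ c * z ∈ Ideal.span (insert π (Set.range y))) →
    ∀ (h : σ → σ → B) (γ : B), γ ∉ Q → (Matrix.of fun a b => h a b + h b a).det ∉ Q →
    ∀ (s k : ℕ) (i : σ), 2 * s ≤ k → 1 ≤ k →
    ∀ pr : MvPolynomial (Option σ) B →+* A, Function.Surjective pr →
    RingHom.ker pr = Ideal.span (insert (eqn π γ h s k i) (Set.range (rel π y s i))) →
    ∀ (q : Ideal A) [q.IsPrime], (∀ b : B, pr (C b) ∈ q ↔ b ∈ Q) →
    IsRegularLocalRing (Localization.AtPrime q)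

end Pool.Agent.Helper21K9.OD
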