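import Pool.Agent.TH214.RM.Crit
import Pool.Agent.Helper21K9.OD.Stm
import Pool.Agent.Helper21K9.SV.Stm

/-! Forms with integral coefficients: statements. -/

set_option autoImplicit false

open MvPolynomial

namespace Pool.Agent.Helper21K9.OD

open Pool.Agent.TH214.RM Pool.Agent.Helper21K9.SV

/-- The exponents of the monomials of degree `d` in `n + 2` variables. -/
abbrev Mon (n d : ℕ) : Type :=
  ↥(Finset.finsuppAntidiag (Finset.univ : Finset (Fin (n + 2))) d)

/-- The form with coefficients `a`. -/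
noncomputable def form {R : Type} [CommRing R] {n d : ℕ} (a : Mon n d → R) :
    MvPolynomial (Fin (n + 2)) R :=
  ∑ m, monomial m.1 (a m)

/-- The form with indeterminate coefficients. -/
noncomputable def gform (n d : ℕ) : MvPolynomial (Fin (n + 2)) (MvPolynomial (Mon n d) ℤ) :=
  form fun m => X m

/-- The ideal of the degenerate critical points in the chart `s`. -/
noncomputable def degIdeal {R : Type} [CommRing R] {n : ℕ} (s : Fin (n + 2))
    (G : MvPolynomial (Fin (n + 2)) R) : Ideal (MvPolynomial {j // j ≠ s} R) :=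
  Ideal.span (insert (deh s G) (insert (hess (deh s G)).det
    (Set.range fun j => pderiv j (deh s G))))

/-- [UNI] Two coprime polynomials in the coefficients which vanish at the forms with a degenerate
singular point in the chart `s`. -/
def S_UNI : Prop :=
  ∀ (n d : ℕ), 2 ≤ d → ∀ s : Fin (n + 2), ∃ Φ Ψ : MvPolynomial (Mon n d) ℤ, Cop Φ Ψ ∧
    C Φ ∈ degIdeal s (gform n d) ∧ C Ψ ∈ degIdeal s (gform n d)

/-- [SM] Smooth forms over the prime fields. -/
def S_SM : Prop :=
  ∀ (n d p : ℕ), 3 ≤ d → p.Prime → ∃ r : Mon n d → ℤ, ∀ a : Mon n d → ℤ,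
    (∀ m, (p : ℤ) ∣ a m - r m) → ∀ (s : Fin (n + 2)) (Q : Ideal (MvPolynomial {j // j ≠ s} ℤ)),
    Q.IsPrime → (∀ z : ℤ, C z ∈ Q ↔ (p : ℤ) ∣ z) → deh s (form a) ∈ Q →
    ∃ j, pderiv j (deh s (form a)) ∉ Q

/-- [SMQ] A form which is smooth modulo a prime is smooth over the rational numbers. -/
def S_SMQ : Prop :=
  ∀ (n d p : ℕ), 1 ≤ d → p.Prime → ∀ G : MvPolynomial (Fin (n + 2)) ℤ, G.IsHomogeneous d →
    (∀ (s : Fin (n + 2)) (Q : Ideal (MvPolynomial {j // j ≠ s} ℤ)),
      Q.IsPrime → (∀ z : ℤ, C z ∈ Q ↔ (p : ℤ) ∣ z) → deh s G ∈ Q →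
      ∃ j, pderiv j (deh s G) ∉ Q) →
    ∀ i, X i ∈ (Ideal.span (Set.range fun j =>
      pderiv j (map (Int.castRingHom ℚ) G))).radical

end Pool.Agent.Helper21K9.OD
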