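import Pool.Agent.Helper21K9.OD.Core
import Pool.Agent.TH214.RM.Smooth

/-! From the homogeneous generators to the affine chart. -/

set_option autoImplicit false
set_option linter.unusedSectionVars false
set_option linter.unusedVariables false

open MvPolynomial
open scoped Pointwise

namespace Pool.Agent.Helper21K9.OD

open Pool.Agent.H918R2.Quad Pool.Agent.TH214.RM

section

variable {F ι : Type} [Field F]

/-- The generators of the ideal `(p ^ j, ξ)` in degree `e`. -/
def HH (x : ι → F) (p : F) (ξ : ι → F) (e j : ℕ) : Set F :=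
  {z | ∃ y ∈ Set.range x ^ e, z = p ^ j * y} ∪ Set.range ξ

/-- The generators of the lattice. -/
def GG (x : ι → F) (p : F) (ξ : ι → F) (e D' : ℕ) : ℕ → Set F
  | 0 => Set.range x ^ D'
  | m + 1 => GG x p ξ e D' m * HH x p ξ e (m + 1)

theorem split (𝒪 : Subring F) (x : ι → F) (p : F) (ξ : ι → F) (e D' : ℕ) :
    ∀ (m : ℕ) (f : F), (∀ h ∈ GG x p ξ e D' m, h / f ∈ 𝒪) →
    (∃ g ∈ GG x p ξ e D' m, U 𝒪 (g / f)) →
    ∃ g₀ ∈ Set.range x ^ D', (∀ h ∈ Set.range x ^ D', h / g₀ ∈ 𝒪) ∧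
      ∃ g : ℕ → F, (∀ j ∈ Finset.Icc 1 m, g j ∈ HH x p ξ e j ∧
        ∀ h ∈ HH x p ξ e j, h / g j ∈ 𝒪) ∧
        U 𝒪 (f / (g₀ * ∏ j ∈ Finset.Icc 1 m, g j)) := by
  intro m
  induction m with
  | zero =>
    rintro f hf ⟨g, hg, hU⟩
    refine ⟨g, hg, ?_, fun _ => 1, ?_, ?_⟩
    · intro h hh
      have h1 : g ≠ 0 := by rintro rfl; rw [zero_div] at hU; exact not_U_zero hU
      have h2 : f ≠ 0 := by rintro rfl; rw [div_zero] at hU; exact not_U_zero hU
      have h3 : h / g = h / f * (g / f)⁻¹ := by field_simp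
      rw [h3]
      exact 𝒪.mul_mem (hf h hh) hU.2.2
    · intro j hj
      simp at hj
    · simp only [Finset.Icc_eq_empty (show ¬ 1 ≤ 0 by omega), Finset.prod_empty, mul_one]
      have h3 : f / g = (g / f)⁻¹ := by rw [inv_div]
      rw [h3]
      exact hU.inv
  | succ m ih =>
    rintro f hf ⟨g, hg, hU⟩
    obtain ⟨a, ha, b, hb, hab⟩ := Set.mem_mul.1 hg
    have h1 : g ≠ 0 := by rintro rfl; rw [zero_div] at hU; exact not_U_zero hU
    have h2 : f ≠ 0 := by rintro rfl; rw [div_zero] at hU; exact not_U_zero hU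
    have ha0 : a ≠ 0 := by rintro rfl; rw [zero_mul] at hab; exact h1 hab.symm
    have hb0 : b ≠ 0 := by rintro rfl; rw [mul_zero] at hab; exact h1 hab.symm
    have key : ∀ h ∈ GG x p ξ e D' (m + 1), h / g ∈ 𝒪 := by
      intro h hh
      have h3 : h / g = h / f * (g / f)⁻¹ := by field_simp
      rw [h3]
      exact 𝒪.mul_mem (hf h hh) hU.2.2
    obtain ⟨g₀, hg₀, hg₀2, g', hg', hU'⟩ := ih a (fun h hh => by
      have h3 := key (h * b) (Set.mul_mem_mul hh hb)
      rw [← hab, mul_div_mul_right _ _ hb0] at h3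
      exact h3) ⟨a, ha, by rw [div_self ha0]; exact U_one⟩
    refine ⟨g₀, hg₀, hg₀2, fun j => if j = m + 1 then b else g' j, ?_, ?_⟩
    · intro j hj
      by_cases hjm : j = m + 1
      · subst hjm
        simp only [if_true]
        refine ⟨hb, fun h hh => ?_⟩
        have h3 := key (a * h) (Set.mul_mem_mul ha hh)
        rw [← hab, mul_div_mul_left _ _ ha0] at h3
        exact h3
      · simp only [if_neg hjm]
        refine hg' j ?_
        rw [Finset.mem_Icc] at hj ⊢
        omega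
    · rw [Finset.prod_Icc_succ_top (by omega)]
      simp only [if_true]
      have h4 : ∏ j ∈ Finset.Icc 1 m, (if j = m + 1 then b else g' j) =
          ∏ j ∈ Finset.Icc 1 m, g' j := by
        refine Finset.prod_congr rfl fun j hj => ?_
        rw [if_neg]
        rw [Finset.mem_Icc] at hj
        omega
      rw [h4]
      have h5 : f / (g₀ * ((∏ j ∈ Finset.Icc 1 m, g' j) * b)) =
          (g / f)⁻¹ * (a / (g₀ * ∏ j ∈ Finset.Icc 1 m, g' j)) := by
        have h6 : g₀ * ∏ j ∈ Finset.Icc 1 m, g' j ≠ 0 := by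
          intro h
          rw [h, div_zero] at hU'
          exact not_U_zero hU'
        have h7 := left_ne_zero_of_mul h6
        have h8 := right_ne_zero_of_mul h6
        rw [← hab, inv_div]
        field_simp
      rw [h5]
      exact hU.inv.mul hU'

end

section

variable {R F ι : Type} [CommRing R] [IsDomain R] [IsDiscreteValuationRing R] [Field F]
  [Algebra R F] [Fintype ι] [DecidableEq ι]

theorem aeval_chart_val (s : ι) (x : ι → F) (hs : x s ≠ 0) (P : MvPolynomial ι R) (e : ℕ)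
    (hP : P.IsHomogeneous e) :
    aeval (fun j : {j // j ≠ s} => x j / x s) (deh s P) = aeval x P / x s ^ e := by
  have h1 : (fun j => x j / x s) s = 1 := div_self hs
  rw [aeval_deh s (fun j => x j / x s) h1 P]
  have h2 : (fun j => x j / x s) = fun j => x j * (x s)⁻¹ := by
    funext j
    rw [div_eq_mul_inv]
  rw [h2, aeval_scale x _ e P hP, inv_pow, div_eq_mul_inv]

theorem euler_chart (s : ι) (G : MvPolynomial ι R) (d : ℕ) (hG : G.IsHomogeneous d)
    (t : {j // j ≠ s} → F) (ht : aeval t (deh s G) = 0) :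
    aeval t (deh s (pderiv s G)) =
      ∑ i : {j // j ≠ s}, aeval t (-(X i) : MvPolynomial {j // j ≠ s} R) *
        aeval t (pderiv i (deh s G)) := by
  have h1 := congrArg (aeval (tau s) : MvPolynomial ι R →ₐ[R] MvPolynomial _ R)
    hG.sum_X_mul_pderiv
  rw [map_sum, map_nsmul] at h1
  rw [Finset.sum_eq_add_sum_sdiff_singleton_of_mem (Finset.mem_univ s)] at h1
  simp only [map_mul, aeval_X] at h1
  have h2 : (tau s s : MvPolynomial {i : ι // i ≠ s} R) = 1 := by
    unfold tau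
    rw [dif_pos rfl]
  rw [h2, one_mul] at h1
  have h3 : deh s (pderiv s G) = d • deh s G -
      ∑ i ∈ Finset.univ \ {s}, tau s i * deh s (pderiv i G) := by
    rw [eq_sub_iff_add_eq]
    exact h1
  rw [h3, map_sub, map_nsmul, ht, smul_zero, zero_sub, map_sum, ← Finset.sum_neg_distrib]
  have h4 : (Finset.univ \ {s} : Finset ι) = Finset.univ.filter (fun i => i ≠ s) := by
    ext i; simp
  rw [h4, Finset.sum_filter, ← Finset.sum_filter,
    ← Finset.sum_subtype_eq_sum_filter]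
  have h5 : (Finset.univ : Finset ι).subtype (fun i => i ≠ s) = Finset.univ := by
    ext i; simp
  rw [h5]
  refine Finset.sum_congr rfl fun i _ => ?_
  rw [pderiv_deh, map_mul, map_neg, neg_mul, aeval_X]
  congr 2
  unfold tau
  rw [dif_neg i.2, aeval_X]

theorem HH_form (s : ι) (x : ι → F) (hs : x s ≠ 0) (G : MvPolynomial ι R) (d : ℕ)
    (hG : G.IsHomogeneous d) (hrel : aeval x G = 0) (p : F) (j : ℕ) (h : F)
    (hh : h ∈ HH x p (fun i => aeval x (pderiv i G)) (d - 1) j) :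
    ∃ (a : MvPolynomial {j // j ≠ s} R) (b : {j // j ≠ s} → MvPolynomial {j // j ≠ s} R),
      h / x s ^ (d - 1) = aeval (fun j : {j // j ≠ s} => x j / x s) a * p ^ j +
        ∑ i, aeval (fun j : {j // j ≠ s} => x j / x s) (b i) *
          aeval (fun j : {j // j ≠ s} => x j / x s) (pderiv i (deh s G)) := by
  have hξ : ∀ i, aeval x (pderiv i G) / x s ^ (d - 1) =
      aeval (fun j : {j // j ≠ s} => x j / x s) (deh s (pderiv i G)) := fun i =>
    (aeval_chart_val s x hs _ _ hG.pderiv).symm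
  rcases hh with ⟨y, hy, rfl⟩ | ⟨i, rfl⟩
  · obtain ⟨φ, rfl⟩ := (Pool.Agent.H945R2.D.GD1aux.mem_range_pow x (d - 1) y).1 hy
    refine ⟨∏ i, tau s (φ i), 0, ?_⟩
    simp only [Pi.zero_apply, map_zero, zero_mul, Finset.sum_const_zero, add_zero]
    rw [map_prod]
    have h1 : ∀ i, aeval (fun j : {j // j ≠ s} => x j / x s) (tau (R := R) s i) = x i / x s :=
      fun i => Pool.Agent.H945R2.D.GD1aux.aeval_tau' s (fun j => x j / x s) (div_self hs) i
    rw [Finset.prod_congr rfl fun i _ => h1 (φ i), Finset.prod_div_distrib, Finset.prod_const,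
      Finset.card_univ, Fintype.card_fin, mul_comm, mul_div_assoc, mul_comm]
    ring
  · simp only
    rw [hξ]
    by_cases hi : i = s
    · subst hi
      refine ⟨0, fun l => -(X l), ?_⟩
      rw [map_zero, zero_mul, zero_add]
      refine euler_chart i G d hG _ ?_
      rw [aeval_chart_val i x hs G d hG, hrel, zero_div]
    · refine ⟨0, Pi.single ⟨i, hi⟩ 1, ?_⟩
      rw [map_zero, zero_mul, zero_add, Finset.sum_eq_single (⟨i, hi⟩ : {j // j ≠ s})]
      · rw [Pi.single_eq_same, map_one, one_mul, pderiv_deh]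
      · intro l _ hl
        rw [Pi.single_eq_of_ne hl, map_zero, zero_mul]
      · intro h
        exact absurd (Finset.mem_univ _) h

theorem GG_form (s : ι) (x : ι → F) (hs : x s ≠ 0) (G : MvPolynomial ι R) (d : ℕ)
    (hG : G.IsHomogeneous d) (hrel : aeval x G = 0) (p : F) (D' m : ℕ) :
    ∀ h ∈ GG x p (fun i => aeval x (pderiv i G)) (d - 1) D' m,
    ∃ (a : MvPolynomial {j // j ≠ s} R) (β : ℕ → F),
      h = (x s ^ D' * (x s ^ (d - 1)) ^ m) * aeval (fun j : {j // j ≠ s} => x j / x s) a *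
        ∏ j ∈ Finset.Icc 1 m, β j ∧
      ∀ j ∈ Finset.Icc 1 m, ∃ (a : MvPolynomial {j // j ≠ s} R)
        (b : {j // j ≠ s} → MvPolynomial {j // j ≠ s} R),
        β j = aeval (fun j : {j // j ≠ s} => x j / x s) a * p ^ j +
        ∑ i, aeval (fun j : {j // j ≠ s} => x j / x s) (b i) *
          aeval (fun j : {j // j ≠ s} => x j / x s) (pderiv i (deh s G)) := by
  induction m with
  | zero =>
    intro h hh
    obtain ⟨φ, rfl⟩ := (Pool.Agent.H945R2.D.GD1aux.mem_range_pow x D' h).1 hh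
    refine ⟨∏ i, tau s (φ i), fun _ => 1, ?_, fun j hj => by simp at hj⟩
    rw [map_prod]
    have h1 : ∀ i, aeval (fun j : {j // j ≠ s} => x j / x s) (tau (R := R) s i) = x i / x s :=
      fun i => Pool.Agent.H945R2.D.GD1aux.aeval_tau' s (fun j => x j / x s) (div_self hs) i
    rw [Finset.prod_congr rfl fun i _ => h1 (φ i), Finset.prod_div_distrib, Finset.prod_const,
      Finset.card_univ, Fintype.card_fin]
    have := pow_ne_zero D' hs
    simp
    field_simp
  | succ m ih =>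
    intro h hh
    obtain ⟨a', ha', b', hb', rfl⟩ := Set.mem_mul.1 hh
    obtain ⟨a, β, hae, hβ⟩ := ih a' ha'
    obtain ⟨c, b, hcb⟩ := HH_form s x hs G d hG hrel p (m + 1) b' hb'
    refine ⟨a, fun j => if j = m + 1 then b' / x s ^ (d - 1) else β j, ?_, ?_⟩
    · rw [Finset.prod_Icc_succ_top (by omega)]
      simp only [if_true]
      have h4 : ∏ j ∈ Finset.Icc 1 m, (if j = m + 1 then b' / x s ^ (d - 1) else β j) =
          ∏ j ∈ Finset.Icc 1 m, β j := by
        refine Finset.prod_congr rfl fun j hj => ?_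
        rw [if_neg]
        rw [Finset.mem_Icc] at hj
        omega
      rw [h4, hae]
      have := pow_ne_zero (d - 1) hs
      rw [pow_succ]
      field_simp
    · intro j hj
      by_cases hjm : j = m + 1
      · subst hjm
        simp only [if_true]
        exact ⟨c, b, hcb⟩
      · simp only [if_neg hjm]
        refine hβ j ?_
        rw [Finset.mem_Icc] at hj ⊢
        omega

/-- Regularity of the local rings of the charts of the lattice. -/
theorem gdgo (rep : S_REP) (lg : S_LG) (reg : S_REG) (𝒪 : Subring F) (hloc : IsLoc 𝒪)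
    (hR : ∀ r : R, algebraMap R F r ∈ 𝒪) (hRU : ∀ r : R, U 𝒪 (algebraMap R F r) → IsUnit r)
    (hinj : Function.Injective (algebraMap R F))
    (ϖ : R) (hϖ : Irreducible ϖ) (G : MvPolynomial ι R) (hG0 : G ≠ 0) (d : ℕ)
    (hGd : G.IsHomogeneous d)
    (hnd : ∀ (s : ι) (Q : Ideal (MvPolynomial {j // j ≠ s} R)), Q.IsPrime → deh s G ∈ Q →
      (∀ r : R, C r ∈ Q ↔ ¬ IsUnit r) → (∃ j, pderiv j (deh s G) ∉ Q) ∨
        (hess (deh s G)).det ∉ Q)
    (v m : ℕ) (hvm : v < 2 * m)
    (hv : ∀ s, C ϖ ^ v ∈ Ideal.span (insert (deh s G)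
      (Set.range fun j => pderiv j (deh s G))))
    (x : ι → F) (hrel : aeval x G = 0)
    (hind : ∀ s, x s ≠ 0 → ∃ j₀ : {i : ι // i ≠ s},
      AlgebraicIndependent R (fun i : {i : {i : ι // i ≠ s} // i ≠ j₀} => x i / x s))
    (D' : ℕ) (hD' : 1 ≤ D') (g : F) (hg0 : g ≠ 0)
    (hg : g ∈ Submodule.span R (GG x (algebraMap R F ϖ) (fun i => aeval x (pderiv i G))
      (d - 1) D' m))
    (hG : ∀ h ∈ GG x (algebraMap R F ϖ) (fun i => aeval x (pderiv i G)) (d - 1) D' m,
      h / g ∈ 𝒪)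
    (hloc2 : IsLocOf 𝒪 (chart R (Submodule.span R (GG x (algebraMap R F ϖ)
      (fun i => aeval x (pderiv i G)) (d - 1) D' m)) g)) :
    IsRegularLocalRing 𝒪 := by
  obtain ⟨g₁, hg₁, hU₁⟩ := exists_U_gen hloc hR _ g hg0 hG hg
  obtain ⟨g₀, hg₀, hg₀2, gs, hgs, hU⟩ := split 𝒪 x _ _ _ D' m g hG ⟨g₁, hg₁, hU₁⟩
  have hne : g₀ * ∏ j ∈ Finset.Icc 1 m, gs j ≠ 0 := by
    intro h
    rw [h, div_zero] at hU
    exact not_U_zero hU
  have hg₀0 : g₀ ≠ 0 := left_ne_zero_of_mul hne
  have hgs0 : ∀ j ∈ Finset.Icc 1 m, gs j ≠ 0 := Finset.prod_ne_zero_iff.1 (right_ne_zero_of_mul hne)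
  obtain ⟨s, hs, hz, hU0⟩ := Pool.Agent.H945R2.D.GD1aux.exists_coord 𝒪 x D' hD' g₀ hg₀2 g₀ hg₀
    (by rw [div_self hg₀0]; exact U_one)
  obtain ⟨j₀, hj₀⟩ := hind s hs
  set t : {j // j ≠ s} → F := fun j => x j / x s with ht
  have htO : ∀ j, t j ∈ 𝒪 := fun j => hz j
  have hEt : aeval t (deh s G) = 0 := by
    rw [ht, aeval_chart_val s x hs G d hGd, hrel, zero_div]
  have hxe : x s ^ (d - 1) ≠ 0 := pow_ne_zero _ hs
  have heB : ∀ b : MvPolynomial {j // j ≠ s} R, aeval t b ∈ 𝒪 := aeval_mem 𝒪 hR t htO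
  have hnd' : (∃ j, U 𝒪 (aeval t (pderiv j (deh s G)))) ∨
      U 𝒪 (aeval t (hess (deh s G)).det) := by
    let eB : MvPolynomial {j // j ≠ s} R →ₐ[R] F := aeval t
    let Q : Ideal (MvPolynomial {j // j ≠ s} R) :=
      primeOf hloc (eB : MvPolynomial {j // j ≠ s} R →+* F) heB
    have hQp : Q.IsPrime := primeOf_isPrime hloc _ heB
    have hQ : ∀ b, b ∈ Q ↔ ¬ U 𝒪 (eB b) := fun b => mem_primeOf hloc _ heB b
    have hQC : ∀ r : R, C r ∈ Q ↔ ¬ IsUnit r := by
      intro r
      rw [hQ]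
      change ¬ U 𝒪 (aeval t (C r)) ↔ _
      rw [aeval_C]
      refine not_congr ⟨hRU r, fun h => ?_⟩
      obtain ⟨u, rfl⟩ := h
      have h1 : algebraMap R F (u : R) * algebraMap R F ((u⁻¹ : Rˣ) : R) = 1 := by
        rw [← map_mul, Units.mul_inv, map_one]
      refine ⟨left_ne_zero_of_mul_eq_one h1, hR _, ?_⟩
      rw [inv_eq_of_mul_eq_one_right h1]
      exact hR _
    have hEQ : deh s G ∈ Q := by
      rw [hQ]
      change ¬ U 𝒪 (aeval t (deh s G))
      rw [hEt]
      exact not_U_zero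
    rcases hnd s Q hQp hEQ hQC with ⟨j, hj⟩ | h
    · left
      refine ⟨j, ?_⟩
      by_contra hcon
      exact hj ((hQ _).2 hcon)
    · right
      by_contra hcon
      exact h ((hQ _).2 hcon)
  refine core rep lg reg 𝒪 hloc hR hRU hinj ϖ hϖ t htO (deh s G) (deh_ne_zero s G hG0 d hGd) hEt
    j₀ hj₀ hnd' v m hvm (hv s) (fun j => gs j / x s ^ (d - 1)) ?_ ?_ ?_ ?_ _ g
    (x s ^ D' * (x s ^ (d - 1)) ^ m) (mul_ne_zero (pow_ne_zero _ hs) (pow_ne_zero _ hxe))
    (GG_form s x hs G d hGd hrel (algebraMap R F ϖ) D' m) hg ?_ hloc2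
  · intro j hj
    exact div_ne_zero (hgs0 j hj) hxe
  · intro j hj
    have h0 := hgs0 j hj
    have h1 : algebraMap R F ϖ ^ j / (gs j / x s ^ (d - 1)) =
        (algebraMap R F ϖ ^ j * x s ^ (d - 1)) / gs j := by
      field_simp
    rw [h1]
    exact (hgs j hj).2 _ (Or.inl ⟨_, Set.pow_mem_pow ⟨s, rfl⟩, rfl⟩)
  · intro j hj i
    have h0 := hgs0 j hj
    have h1 : aeval t (pderiv i (deh s G)) / (gs j / x s ^ (d - 1)) =
        aeval x (pderiv (i : ι) G) / gs j := by
      rw [pderiv_deh, ht, aeval_chart_val s x hs _ _ hGd.pderiv]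
      field_simp
    rw [h1]
    exact (hgs j hj).2 _ (Or.inr ⟨i, rfl⟩)
  · intro j hj
    obtain ⟨a, b, hab⟩ := HH_form s x hs G d hGd hrel (algebraMap R F ϖ) j (gs j) (hgs j hj).1
    exact ⟨aeval t a, fun i => aeval t (b i), heB a, fun i => heB _, hab⟩
  · have h1 : x s ^ D' * (x s ^ (d - 1)) ^ m * ∏ j ∈ Finset.Icc 1 m, gs j / x s ^ (d - 1) =
        x s ^ D' * ∏ j ∈ Finset.Icc 1 m, gs j := by
      rw [Finset.prod_div_distrib, Finset.prod_const, Nat.card_Icc, Nat.add_sub_cancel]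
      have := pow_ne_zero m hxe
      field_simp
    rw [h1]
    have h2 : g / (x s ^ D' * ∏ j ∈ Finset.Icc 1 m, gs j) =
        g / (g₀ * ∏ j ∈ Finset.Icc 1 m, gs j) * (g₀ / x s ^ D') := by
      have := pow_ne_zero D' hs
      have := right_ne_zero_of_mul hne
      field_simp
    rw [h2]
    exact hU.mul hU0

end

end Pool.Agent.Helper21K9.OD
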