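import Pool.Agent.Helper21K9.OD.Core2
import Pool.Agent.Helper21K9.OD.Hom

/-! From the homogeneous generators to the affine chart, with regular critical points. -/

set_option autoImplicit false
set_option linter.unusedSectionVars false
set_option linter.unusedVariables false

open MvPolynomial
open scoped Pointwise

namespace Pool.Agent.Helper21K9.OD

open Pool.Agent.H918R2.Quad Pool.Agent.TH214.RM

section

variable {R F σ : Type} [CommRing R] [IsDomain R] [IsDiscreteValuationRing R] [Field F]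
  [Algebra R F] [Fintype σ] [DecidableEq σ]

/-- Points where the equation is regular and the generators are units. -/
theorem core_unit (𝒪 : Subring F) (hloc : IsLoc 𝒪)
    (hR : ∀ r : R, algebraMap R F r ∈ 𝒪)
    (t : σ → F) (ht : ∀ j, t j ∈ 𝒪) (E : MvPolynomial σ R) (hE0 : E ≠ 0) (hEt : aeval t E = 0)
    (j₀ : σ) (hj₀ : AlgebraicIndependent R (fun j : {j // j ≠ j₀} => t j))
    (hreg : ∀ Q : Ideal (MvPolynomial σ R), Q.IsPrime → (∀ b, b ∈ Q ↔ ¬ U 𝒪 (aeval t b)) →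
      (∃ j, pderiv j E ∉ Q) ∨ ∀ h, h ∉ Q → h * E ∉ Q ^ 2)
    (𝒢 : Set F) (g : F) (X₀ : F) (hX : X₀ ≠ 0)
    (hgen : ∀ h ∈ 𝒢, ∃ a : MvPolynomial σ R, h = X₀ * aeval t a)
    (hg : g ∈ Submodule.span R 𝒢) (hU : U 𝒪 (g / X₀))
    (hloc2 : IsLocOf 𝒪 (chart R (Submodule.span R 𝒢) g)) : IsRegularLocalRing 𝒪 := by
  let eW : MvPolynomial σ R →ₐ[R] F := aeval t
  have heW : ∀ w, eW w ∈ 𝒪 := aeval_mem 𝒪 hR t ht
  let I : Ideal (MvPolynomial σ R) := Ideal.span {E}
  have hI : ∀ w ∈ I, eW w = 0 := by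
    intro w hw
    obtain ⟨c, rfl⟩ := Ideal.mem_span_singleton.1 hw
    change aeval t (E * c) = 0
    rw [map_mul, hEt, zero_mul]
  have hfrac := frac_of_chart eW heW 𝒢 g X₀ hX hgen hg hU hloc2
  obtain ⟨A, _, _, pr, hpr, hprk, hpr0⟩ := exists_quot (R := R) I
  have haev : ∀ p : MvPolynomial σ R, aeval (fun j : σ => (X j : MvPolynomial σ R)) p = p := by
    intro p
    rw [aeval_X_left_apply]
  refine regular_of_pres 𝒪 hloc pr hpr eW ?_ heW hfrac ?_ (fun j : σ => X j) E hE0 ?_ j₀ ?_ ?_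
  · intro w hw
    exact hI w ((hpr0 w).1 hw)
  · intro q hq hqm
    let Q : Ideal (MvPolynomial σ R) := q.comap (pr : _ →+* A)
    have hQ : Q.IsPrime := Ideal.comap_isPrime _ _
    have hEq : pr E = 0 := (hpr0 E).2 (Ideal.mem_span_singleton_self _)
    rcases hreg Q hQ (fun b => hqm b) with ⟨j, hj⟩ | h
    · exact regular_of_pderiv E (pr : _ →+* A) hpr hprk q j hj
    · have hid : (q.comap (pr : _ →+* A)).map (RingHom.id _) = Q := Ideal.map_id _
      refine reg_crit_one (W := MvPolynomial σ R) (pr : _ →+* A) hpr {E}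
        (by rw [Finset.coe_singleton]; exact hprk) q (RingHom.id _)
        (fun z => ⟨z, rfl⟩) ?_ ∅ (by simp) ?_ E hEq ?_ ?_
      · intro z hz
        have h0 : z = 0 := by simpa using hz
        rw [h0]
        exact Ideal.zero_mem _
      · intro z hz
        have h0 : z = 0 := by simpa using hz
        refine ⟨1, ?_, ?_⟩
        · rw [map_one]
          exact (Ideal.ne_top_iff_one q).1 hq.ne_top
        · rw [h0, mul_zero, map_zero]
          exact Ideal.zero_mem _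
      · intro c hc
        rw [hid] at hc ⊢
        exact h c hc
      · simp
  · rw [haev, hpr0]
    exact Ideal.mem_span_singleton_self _
  · convert hj₀ using 2 with j
    exact aeval_X _ _
  · intro w
    refine ⟨w, 1, by simp, ?_⟩
    rw [haev 1, one_mul, haev]

/-- The local ideals of the lattice. -/
noncomputable def LI {β : Type} (ϖ : R) (E : MvPolynomial σ R) (τ : β → MvPolynomial σ R)
    (j : ℕ) : Ideal (MvPolynomial σ R) :=
  Ideal.span (insert (C ϖ ^ j) (Set.range fun i => pderiv i E)) ⊔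
    (Ideal.span (Set.range τ)) ^ j

theorem pow_le_aux {A : Type} [CommRing A] (a : A) (Y : Set A) (j : ℕ) :
    (Ideal.span (insert a Y)) ^ j ≤ Ideal.span (insert (a ^ j) Y) := by
  induction j with
  | zero =>
    rw [pow_zero, pow_zero]
    intro x _
    have h1 : (1 : A) ∈ Ideal.span (insert 1 Y) := Ideal.subset_span (Set.mem_insert _ _)
    rw [(Ideal.eq_top_iff_one _).2 h1]
    trivial
  | succ j ih =>
    rw [pow_succ, Ideal.mul_le]
    intro r hr z hz
    obtain ⟨c, y, hy, rfl⟩ := Ideal.mem_span_insert.1 (ih hr)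
    obtain ⟨d, y', hy', rfl⟩ := Ideal.mem_span_insert.1 hz
    refine Ideal.mem_span_insert.2 ⟨c * d, (c * a ^ j + y) * y' + d * a * y,
      Ideal.add_mem _ (Ideal.mul_mem_left _ _ hy') (Ideal.mul_mem_left _ _ hy), ?_⟩
    ring

/-- At a nondegenerate critical point the local ideals are generated by `ϖ ^ j` and the partial
derivatives. -/
theorem LI_crit {β : Type} [Fintype β] (ϖ : R) (E : MvPolynomial σ R) (τ : β → MvPolynomial σ R)
    (Q : Ideal (MvPolynomial σ R)) (hQ : Q.IsPrime)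
    (hQg : ∀ z ∈ Q, ∃ c, c ∉ Q ∧ c * z ∈ Ideal.span (insert (C ϖ)
      (Set.range fun j => pderiv j E))) (hτ : ∀ b, τ b ∈ Q) (m : ℕ) :
    ∃ c, c ∉ Q ∧ ∀ j, j ≤ m → ∀ w ∈ LI ϖ E τ j,
      c * w ∈ Ideal.span (insert (C ϖ ^ j) (Set.range fun i => pderiv i E)) := by
  classical
  choose c hc hcτ using fun b => hQg (τ b) (hτ b)
  set J := Ideal.span (insert (C ϖ) (Set.range fun j => pderiv j E)) with hJ
  set c₀ := ∏ b, c b with hc₀
  have hc₀Q : c₀ ∉ Q := by
    intro h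
    obtain ⟨b, _, hb⟩ := (Ideal.IsPrime.prod_mem_iff).1 h
    exact hc b hb
  have h1 : Ideal.span {c₀} * Ideal.span (Set.range τ) ≤ J := by
    rw [Ideal.span_mul_span', Ideal.span_le]
    rintro _ ⟨_, h, _, ⟨b, rfl⟩, rfl⟩
    rw [Set.mem_singleton_iff.1 h]
    obtain ⟨e, he⟩ := Finset.dvd_prod_of_mem c (Finset.mem_univ b)
    have h2 : c₀ * τ b = e * (c b * τ b) := by
      rw [hc₀, he]
      ring
    change c₀ * τ b ∈ J
    rw [h2]
    exact J.mul_mem_left _ (hcτ b)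
  refine ⟨c₀ ^ m, fun h => hc₀Q (hQ.mem_of_pow_mem _ h), fun j hj w hw => ?_⟩
  obtain ⟨a, ha, b, hb, rfl⟩ := Submodule.mem_sup.1 hw
  rw [mul_add]
  refine Ideal.add_mem _ (Ideal.mul_mem_left _ _ ha) ?_
  have h3 : c₀ ^ j * b ∈ J ^ j := by
    have h4 : c₀ ^ j * b ∈ (Ideal.span {c₀} * Ideal.span (Set.range τ)) ^ j := by
      rw [mul_pow]
      exact Ideal.mul_mem_mul (Ideal.pow_mem_pow (Ideal.mem_span_singleton_self _) _) hb
    exact Ideal.pow_right_mono h1 j h4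
  have h5 : c₀ ^ m * b = c₀ ^ (m - j) * (c₀ ^ j * b) := by
    rw [← mul_assoc, ← pow_add]
    congr 2
    omega
  rw [h5]
  exact Ideal.mul_mem_left _ _ (pow_le_aux _ _ j h3)

theorem mem_insert_form (ϖ : R) (E : MvPolynomial σ R) (j : ℕ) (w : MvPolynomial σ R)
    (hw : w ∈ Ideal.span (insert (C ϖ ^ j) (Set.range fun i => pderiv i E))) :
    ∃ (a : MvPolynomial σ R) (b : σ → MvPolynomial σ R),
      w = a * C ϖ ^ j + ∑ i, b i * pderiv i E := by
  obtain ⟨a, z, hz, rfl⟩ := Ideal.mem_span_insert.1 hw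
  obtain ⟨b, hb⟩ := (Ideal.mem_span_range_iff_exists_fun (R := MvPolynomial σ R)).1 hz
  exact ⟨a, b, by rw [hb]⟩

end

section

variable {F ι : Type} [Field F]

/-- Products of the generators in the degrees `1, ..., m`. -/
def GF (x : ι → F) (D' : ℕ) (𝓗 : ℕ → Set F) : ℕ → Set F
  | 0 => Set.range x ^ D'
  | m + 1 => GF x D' 𝓗 m * 𝓗 (m + 1)

theorem split' (𝒪 : Subring F) (x : ι → F) (D' : ℕ) (𝓗 : ℕ → Set F) :
    ∀ (m : ℕ) (f : F), (∀ h ∈ GF x D' 𝓗 m, h / f ∈ 𝒪) →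
    (∃ g ∈ GF x D' 𝓗 m, U 𝒪 (g / f)) →
    ∃ g₀ ∈ Set.range x ^ D', (∀ h ∈ Set.range x ^ D', h / g₀ ∈ 𝒪) ∧
      ∃ g : ℕ → F, (∀ j ∈ Finset.Icc 1 m, g j ∈ 𝓗 j ∧
        ∀ h ∈ 𝓗 j, h / g j ∈ 𝒪) ∧
        U 𝒪 (f / (g₀ * ∏ j ∈ Finset.Icc 1 m, g j)) := by
  intro m
  induction m with
  | zero =>
    rintro f hf ⟨g, hg, hU⟩
    refine ⟨g, hg, ?_, fun _ => 1, ?_, ?_⟩
    · intro h hh
      have h1 : g ≠ 0 := by rintro rfl; rw [zero_div] at hU; exact not_U_zero hU
      have h2 : f ≠ 0 := by rintro rfl; rw [div_zero] at hU; exact not_U_zero hU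
      have h3 : h / g = h / f * (g / f)⁻¹ := by field_simp
      rw [h3]
      exact 𝒪.mul_mem (hf h hh) hU.2.2
    · intro j hj
      simp at hj
    · simp only [Finset.Icc_eq_empty (show ¬ 1 ≤ 0 by omega), Finset.prod_empty, mul_one]
      have h3 : f / g = (g / f)⁻¹ := by rw [inv_div]
      rw [h3]
      exact hU.inv
  | succ m ih =>
    rintro f hf ⟨g, hg, hU⟩
    obtain ⟨a, ha, b, hb, hab⟩ := Set.mem_mul.1 hg
    have h1 : g ≠ 0 := by rintro rfl; rw [zero_div] at hU; exact not_U_zero hU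
    have h2 : f ≠ 0 := by rintro rfl; rw [div_zero] at hU; exact not_U_zero hU
    have ha0 : a ≠ 0 := by rintro rfl; rw [zero_mul] at hab; exact h1 hab.symm
    have hb0 : b ≠ 0 := by rintro rfl; rw [mul_zero] at hab; exact h1 hab.symm
    have key : ∀ h ∈ GF x D' 𝓗 (m + 1), h / g ∈ 𝒪 := by
      intro h hh
      have h3 : h / g = h / f * (g / f)⁻¹ := by field_simp
      rw [h3]
      exact 𝒪.mul_mem (hf h hh) hU.2.2
    obtain ⟨g₀, hg₀, hg₀2, g', hg', hU'⟩ := ih a (fun h hh => by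
      have h3 := key (h * b) (Set.mul_mem_mul hh hb)
      rw [← hab, mul_div_mul_right _ _ hb0] at h3
      exact h3) ⟨a, ha, by rw [div_self ha0]; exact U_one⟩
    refine ⟨g₀, hg₀, hg₀2, fun j => if j = m + 1 then b else g' j, ?_, ?_⟩
    · intro j hj
      by_cases hjm : j = m + 1
      · subst hjm
        simp only [if_true]
        refine ⟨hb, fun h hh => ?_⟩
        have h3 := key (a * h) (Set.mul_mem_mul ha hh)
        rw [← hab, mul_div_mul_left _ _ ha0] at h3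
        exact h3
      · simp only [if_neg hjm]
        refine hg' j ?_
        rw [Finset.mem_Icc] at hj ⊢
        omega
    · rw [Finset.prod_Icc_succ_top (by omega)]
      simp only [if_true]
      have h4 : ∏ j ∈ Finset.Icc 1 m, (if j = m + 1 then b else g' j) =
          ∏ j ∈ Finset.Icc 1 m, g' j := by
        refine Finset.prod_congr rfl fun j hj => ?_
        rw [if_neg]
        rw [Finset.mem_Icc] at hj
        omega
      rw [h4]
      have h5 : f / (g₀ * ((∏ j ∈ Finset.Icc 1 m, g' j) * b)) =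
          (g / f)⁻¹ * (a / (g₀ * ∏ j ∈ Finset.Icc 1 m, g' j)) := by
        have h6 : g₀ * ∏ j ∈ Finset.Icc 1 m, g' j ≠ 0 := by
          intro h
          rw [h, div_zero] at hU'
          exact not_U_zero hU'
        have h7 := left_ne_zero_of_mul h6
        have h8 := right_ne_zero_of_mul h6
        rw [← hab, inv_div]
        field_simp
      rw [h5]
      exact hU.inv.mul hU'

/-- The generators of the local ideal in degree `e₁ + m e₂`. -/
def HM {β : Type} (x : ι → F) (p : F) (ξ : ι → F) (τ : β → F) (e₁ e₂ m j : ℕ) : Set F :=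
  {z | ∃ y ∈ Set.range x ^ (e₁ + m * e₂), z = p ^ j * y} ∪
  {z | ∃ i, ∃ y ∈ Set.range x ^ (m * e₂), z = ξ i * y} ∪
  {z | ∃ φ : Fin j → β, ∃ y ∈ Set.range x ^ (e₁ + (m - j) * e₂), z = (∏ l, τ (φ l)) * y}

end

section

variable {R F ι β : Type} [CommRing R] [IsDomain R] [IsDiscreteValuationRing R] [Field F]
  [Algebra R F] [Fintype ι] [DecidableEq ι] [Fintype β]

theorem mono_val (s : ι) (x : ι → F) (hs : x s ≠ 0) (D : ℕ) (y : F) (hy : y ∈ Set.range x ^ D) :
    ∃ w : MvPolynomial {j // j ≠ s} R,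
      y = x s ^ D * aeval (fun j : {j // j ≠ s} => x j / x s) w := by
  obtain ⟨φ, rfl⟩ := (Pool.Agent.H945R2.D.GD1aux.mem_range_pow x D y).1 hy
  refine ⟨∏ i, tau s (φ i), ?_⟩
  have h1 : ∀ i, aeval (fun j : {j // j ≠ s} => x j / x s) (tau (R := R) s i) = x i / x s :=
    fun i => Pool.Agent.H945R2.D.GD1aux.aeval_tau' s (fun j => x j / x s) (div_self hs) i
  rw [map_prod, Finset.prod_congr rfl fun i _ => h1 (φ i), Finset.prod_div_distrib,
    Finset.prod_const, Finset.card_univ, Fintype.card_fin]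
  have := pow_ne_zero D hs
  field_simp

theorem sum_mem_aux {A τ : Type} [CommRing A] (J : Ideal A) (s : Finset τ) (a b : τ → A)
    (h : ∀ l, b l ∈ J) : ∑ l ∈ s, a l * b l ∈ J :=
  Ideal.sum_mem _ fun l _ => Ideal.mul_mem_left _ _ (h l)

theorem euler_mem (s : ι) (G : MvPolynomial ι R) (d : ℕ) (hG : G.IsHomogeneous d)
    (t : {j // j ≠ s} → F) (ht : aeval t (deh s G) = 0) (ϖ : R) (j : ℕ) (i : ι) :
    ∃ z ∈ Ideal.span (insert (C ϖ ^ j) (Set.range fun i => pderiv i (deh s G))),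
      aeval t (deh s (pderiv i G)) = aeval t z := by
  have hmem : ∀ l : {j // j ≠ s}, pderiv l (deh s G) ∈
      Ideal.span (insert (C ϖ ^ j) (Set.range fun i => pderiv i (deh s G))) := fun l =>
    Ideal.subset_span (Set.mem_insert_of_mem _ (Set.mem_range_self l))
  by_cases hi : i = s
  · have h1 := euler_chart s G d hG t ht
    rw [hi, h1]
    refine ⟨∑ l : {j // j ≠ s}, (-(X l) : MvPolynomial {j // j ≠ s} R) * pderiv l (deh s G),
      sum_mem_aux _ _ _ _ hmem, ?_⟩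
    simp only [map_sum, map_mul]
  · refine ⟨pderiv (⟨i, hi⟩ : {j // j ≠ s}) (deh s G), hmem ⟨i, hi⟩, ?_⟩
    rw [pderiv_deh]

theorem HM_form (s : ι) (x : ι → F) (hs : x s ≠ 0) (G : MvPolynomial ι R) (d : ℕ)
    (hG : G.IsHomogeneous d) (hrel : aeval x G = 0) (T : β → MvPolynomial ι R) (e₂ : ℕ)
    (hT : ∀ b, (T b).IsHomogeneous e₂) (ϖ : R) (m j : ℕ) (hj : j ≤ m) (h : F)
    (hh : h ∈ HM x (algebraMap R F ϖ) (fun i => aeval x (pderiv i G)) (fun b => aeval x (T b))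
      (d - 1) e₂ m j) :
    ∃ w ∈ LI ϖ (deh s G) (fun b => deh s (T b)) j,
      h = x s ^ (d - 1 + m * e₂) * aeval (fun j : {j // j ≠ s} => x j / x s) w := by
  set t : {j // j ≠ s} → F := fun j => x j / x s with ht
  have hxs : ∀ (e : ℕ) (P : MvPolynomial ι R), P.IsHomogeneous e →
      aeval x P = x s ^ e * aeval t (deh s P) := by
    intro e P hP
    rw [ht, aeval_chart_val s x hs _ _ hP]
    have := pow_ne_zero e hs
    field_simp
  rcases hh with (⟨y, hy, rfl⟩ | ⟨i, y, hy, rfl⟩) | ⟨φ, y, hy, rfl⟩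
  · obtain ⟨w, hw⟩ := mono_val (R := R) s x hs _ y hy
    refine ⟨w * C ϖ ^ j, ?_, ?_⟩
    · exact Submodule.mem_sup_left (Ideal.mul_mem_left _ _ (Ideal.subset_span
        (Set.mem_insert _ _)))
    · rw [hw, map_mul, map_pow, aeval_C]
      ring
  · obtain ⟨w, hw⟩ := mono_val (R := R) s x hs _ y hy
    obtain ⟨z, hz, hze⟩ := euler_mem s G d hG t (by
      rw [ht, aeval_chart_val s x hs G d hG, hrel, zero_div]) ϖ j i
    refine ⟨w * z, Submodule.mem_sup_left (Ideal.mul_mem_left _ _ hz), ?_⟩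
    change aeval x (pderiv i G) * y = _
    rw [hw, map_mul, ← hze, hxs _ _ hG.pderiv, pow_add]
    ring
  · obtain ⟨w, hw⟩ := mono_val (R := R) s x hs _ y hy
    refine ⟨w * ∏ l, deh s (T (φ l)), ?_, ?_⟩
    · refine Submodule.mem_sup_right (Ideal.mul_mem_left _ _ ?_)
      have h1 : ∀ l ∈ (Finset.univ : Finset (Fin j)), deh s (T (φ l)) ∈
          Ideal.span (Set.range fun b => deh s (T b)) := fun l _ =>
        Ideal.subset_span ⟨φ l, rfl⟩
      have h2 := Ideal.prod_mem_prod h1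
      rwa [Finset.prod_const, Finset.card_univ, Fintype.card_fin] at h2
    · have h1 : ∏ l, aeval x (T (φ l)) = x s ^ (j * e₂) * ∏ l, aeval t (deh s (T (φ l))) := by
        rw [Finset.prod_congr rfl fun l _ => hxs _ _ (hT (φ l)), Finset.prod_mul_distrib,
          Finset.prod_const, Finset.card_univ, Fintype.card_fin, ← pow_mul, mul_comm e₂]
      have h2 : d - 1 + m * e₂ = j * e₂ + (d - 1 + (m - j) * e₂) := by
        have h3 : m * e₂ = j * e₂ + (m - j) * e₂ := by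
          rw [← add_mul]
          congr 1
          omega
        omega
      rw [h1, hw, map_mul, map_prod, h2, pow_add]
      ring

theorem GF_form (s : ι) (x : ι → F) (hs : x s ≠ 0) (G : MvPolynomial ι R) (d : ℕ)
    (hG : G.IsHomogeneous d) (hrel : aeval x G = 0) (T : β → MvPolynomial ι R) (e₂ : ℕ)
    (hT : ∀ b, (T b).IsHomogeneous e₂) (ϖ : R) (m₀ D' m : ℕ) (hm : m ≤ m₀) :
    ∀ h ∈ GF x D' (HM x (algebraMap R F ϖ) (fun i => aeval x (pderiv i G))
      (fun b => aeval x (T b)) (d - 1) e₂ m₀) m,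
    ∃ (a : MvPolynomial {j // j ≠ s} R) (β : ℕ → MvPolynomial {j // j ≠ s} R),
      h = (x s ^ D' * (x s ^ (d - 1 + m₀ * e₂)) ^ m) *
        aeval (fun j : {j // j ≠ s} => x j / x s) a *
        ∏ j ∈ Finset.Icc 1 m, aeval (fun j : {j // j ≠ s} => x j / x s) (β j) ∧
      ∀ j ∈ Finset.Icc 1 m, β j ∈ LI ϖ (deh s G) (fun b => deh s (T b)) j := by
  induction m with
  | zero =>
    intro h hh
    obtain ⟨w, hw⟩ := mono_val (R := R) s x hs D' h hh
    refine ⟨w, fun _ => 1, ?_, fun j hj => by simp at hj⟩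
    rw [hw]
    simp
  | succ m ih =>
    intro h hh
    obtain ⟨a', ha', b', hb', rfl⟩ := Set.mem_mul.1 hh
    obtain ⟨a, β, hae, hβ⟩ := ih (by omega) a' ha'
    obtain ⟨w, hw, hwb⟩ := HM_form s x hs G d hG hrel T e₂ hT ϖ m₀ (m + 1) hm b' hb'
    refine ⟨a, fun j => if j = m + 1 then w else β j, ?_, ?_⟩
    · rw [Finset.prod_Icc_succ_top (by omega)]
      simp only [if_true]
      have h4 : ∏ j ∈ Finset.Icc 1 m, aeval (fun j : {j // j ≠ s} => x j / x s)
          (if j = m + 1 then w else β j) =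
          ∏ j ∈ Finset.Icc 1 m, aeval (fun j : {j // j ≠ s} => x j / x s) (β j) := by
        refine Finset.prod_congr rfl fun j hj => ?_
        rw [if_neg]
        rw [Finset.mem_Icc] at hj
        omega
      rw [h4, hae, hwb, pow_succ]
      ring
    · intro j hj
      by_cases hjm : j = m + 1
      · subst hjm
        simp only [if_true]
        exact hw
      · simp only [if_neg hjm]
        refine hβ j ?_
        rw [Finset.mem_Icc] at hj ⊢
        omega

/-- Regularity of the local rings of the charts of the lattice. -/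
theorem gdgm (rep : S_REP) (lg : S_LG) (reg : S_REG) (𝒪 : Subring F) (hloc : IsLoc 𝒪)
    (hR : ∀ r : R, algebraMap R F r ∈ 𝒪) (hRU : ∀ r : R, U 𝒪 (algebraMap R F r) → IsUnit r)
    (hinj : Function.Injective (algebraMap R F))
    (ϖ : R) (hϖ : Irreducible ϖ) (G : MvPolynomial ι R) (hG0 : G ≠ 0) (d : ℕ)
    (hGd : G.IsHomogeneous d) (T : β → MvPolynomial ι R) (e₂ : ℕ)
    (hT : ∀ b, (T b).IsHomogeneous e₂)
    (hnd : ∀ (s : ι) (Q : Ideal (MvPolynomial {j // j ≠ s} R)), Q.IsPrime → deh s G ∈ Q →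
      (∀ r : R, C r ∈ Q ↔ ¬ IsUnit r) → (∃ j, pderiv j (deh s G) ∉ Q) ∨
        ((∀ h, h ∉ Q → h * deh s G ∉ Q ^ 2) ∧ ∃ b, deh s (T b) ∉ Q) ∨
        ((hess (deh s G)).det ∉ Q ∧ ∀ b, deh s (T b) ∈ Q))
    (v m : ℕ) (hvm : v < 2 * m)
    (hv : ∀ s, C ϖ ^ v ∈ Ideal.span (insert (deh s G)
      (Set.range fun j => pderiv j (deh s G))))
    (x : ι → F) (hrel : aeval x G = 0)
    (hind : ∀ s, x s ≠ 0 → ∃ j₀ : {i : ι // i ≠ s},
      AlgebraicIndependent R (fun i : {i : {i : ι // i ≠ s} // i ≠ j₀} => x i / x s))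
    (D' : ℕ) (hD' : 1 ≤ D') (g : F) (hg0 : g ≠ 0) (𝒢 : Set F)
    (h𝒢 : 𝒢 = GF x D' (HM x (algebraMap R F ϖ) (fun i => aeval x (pderiv i G))
      (fun b => aeval x (T b)) (d - 1) e₂ m) m)
    (hg : g ∈ Submodule.span R 𝒢) (hG : ∀ h ∈ 𝒢, h / g ∈ 𝒪)
    (hloc2 : IsLocOf 𝒪 (chart R (Submodule.span R 𝒢) g)) :
    IsRegularLocalRing 𝒪 := by
  classical
  obtain ⟨g₁, hg₁, hU₁⟩ := exists_U_gen hloc hR _ g hg0 hG hg
  obtain ⟨g₀, hg₀, hg₀2, gs, hgs, hU⟩ := split' 𝒪 x D' _ m g (by rw [← h𝒢]; exact hG)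
    ⟨g₁, by rw [← h𝒢]; exact hg₁, hU₁⟩
  have hne : g₀ * ∏ j ∈ Finset.Icc 1 m, gs j ≠ 0 := by
    intro h
    rw [h, div_zero] at hU
    exact not_U_zero hU
  have hg₀0 : g₀ ≠ 0 := left_ne_zero_of_mul hne
  have hgs0 : ∀ j ∈ Finset.Icc 1 m, gs j ≠ 0 :=
    Finset.prod_ne_zero_iff.1 (right_ne_zero_of_mul hne)
  obtain ⟨s, hs, hz, hU0⟩ := Pool.Agent.H945R2.D.GD1aux.exists_coord 𝒪 x D' hD' g₀ hg₀2 g₀ hg₀
    (by rw [div_self hg₀0]; exact U_one)
  obtain ⟨j₀, hj₀⟩ := hind s hs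
  set t : {j // j ≠ s} → F := fun j => x j / x s with ht
  have htO : ∀ j, t j ∈ 𝒪 := fun j => hz j
  have hEt : aeval t (deh s G) = 0 := by
    rw [ht, aeval_chart_val s x hs G d hGd, hrel, zero_div]
  set E₁ := d - 1 + m * e₂ with hE₁
  have hxe : x s ^ E₁ ≠ 0 := pow_ne_zero _ hs
  have heB : ∀ b : MvPolynomial {j // j ≠ s} R, aeval t b ∈ 𝒪 := aeval_mem 𝒪 hR t htO
  let eB : MvPolynomial {j // j ≠ s} R →ₐ[R] F := aeval t
  let Q : Ideal (MvPolynomial {j // j ≠ s} R) :=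
    primeOf hloc (eB : MvPolynomial {j // j ≠ s} R →+* F) heB
  have hQp : Q.IsPrime := primeOf_isPrime hloc _ heB
  have hQ : ∀ b, b ∈ Q ↔ ¬ U 𝒪 (aeval t b) := fun b => mem_primeOf hloc _ heB b
  have hQC : ∀ r : R, C r ∈ Q ↔ ¬ IsUnit r := by
    intro r
    rw [hQ, aeval_C]
    refine not_congr ⟨hRU r, fun h => ?_⟩
    obtain ⟨u, rfl⟩ := h
    have h1 : algebraMap R F (u : R) * algebraMap R F ((u⁻¹ : Rˣ) : R) = 1 := by
      rw [← map_mul, Units.mul_inv, map_one]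
    refine ⟨left_ne_zero_of_mul_eq_one h1, hR _, ?_⟩
    rw [inv_eq_of_mul_eq_one_right h1]
    exact hR _
  have hEQ : deh s G ∈ Q := by
    rw [hQ, hEt]
    exact not_U_zero
  -- the local generators
  have hθ : ∀ j ∈ Finset.Icc 1 m, ∃ w ∈ LI ϖ (deh s G) (fun b => deh s (T b)) j,
      gs j = x s ^ E₁ * aeval t w := by
    intro j hj
    exact HM_form s x hs G d hGd hrel T e₂ hT ϖ m j (Finset.mem_Icc.1 hj).2 _ (hgs j hj).1
  have hθ0 : ∀ j ∈ Finset.Icc 1 m, gs j / x s ^ E₁ ≠ 0 := fun j hj => div_ne_zero (hgs0 j hj) hxe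
  have hθO : ∀ j ∈ Finset.Icc 1 m, gs j / x s ^ E₁ ∈ 𝒪 := by
    intro j hj
    obtain ⟨w, _, hw⟩ := hθ j hj
    rw [hw, mul_div_cancel_left₀ _ hxe]
    exact heB w
  have hxs : ∀ (e : ℕ) (P : MvPolynomial ι R), P.IsHomogeneous e →
      aeval x P = x s ^ e * aeval t (deh s P) := by
    intro e P hP
    rw [ht, aeval_chart_val s x hs _ _ hP]
    have := pow_ne_zero e hs
    field_simp
  have hF1 : ∀ j ∈ Finset.Icc 1 m, algebraMap R F ϖ ^ j / (gs j / x s ^ E₁) ∈ 𝒪 := by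
    intro j hj
    have h0 := hgs0 j hj
    have h1 : algebraMap R F ϖ ^ j / (gs j / x s ^ E₁) =
        (algebraMap R F ϖ ^ j * x s ^ E₁) / gs j := by
      field_simp
    rw [h1]
    exact (hgs j hj).2 _ (Or.inl (Or.inl ⟨_, Set.pow_mem_pow ⟨s, rfl⟩, rfl⟩))
  have hF2 : ∀ j ∈ Finset.Icc 1 m, ∀ i, aeval t (pderiv i (deh s G)) / (gs j / x s ^ E₁) ∈ 𝒪 := by
    intro j hj i
    have h0 := hgs0 j hj
    have h1 : aeval t (pderiv i (deh s G)) / (gs j / x s ^ E₁) =
        (aeval x (pderiv (i : ι) G) * x s ^ (m * e₂)) / gs j := by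
      rw [pderiv_deh, hxs _ _ hGd.pderiv, hE₁, pow_add]
      field_simp
    rw [h1]
    exact (hgs j hj).2 _ (Or.inl (Or.inr ⟨i, _, Set.pow_mem_pow ⟨s, rfl⟩, rfl⟩))
  have hUX : U 𝒪 (g / (x s ^ D' * (x s ^ E₁) ^ m * ∏ j ∈ Finset.Icc 1 m, gs j / x s ^ E₁)) := by
    have h1 : x s ^ D' * (x s ^ E₁) ^ m * ∏ j ∈ Finset.Icc 1 m, gs j / x s ^ E₁ =
        x s ^ D' * ∏ j ∈ Finset.Icc 1 m, gs j := by
      rw [Finset.prod_div_distrib, Finset.prod_const, Nat.card_Icc, Nat.add_sub_cancel]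
      have := pow_ne_zero m hxe
      field_simp
    rw [h1]
    have h2 : g / (x s ^ D' * ∏ j ∈ Finset.Icc 1 m, gs j) =
        g / (g₀ * ∏ j ∈ Finset.Icc 1 m, gs j) * (g₀ / x s ^ D') := by
      have := pow_ne_zero D' hs
      have := right_ne_zero_of_mul hne
      field_simp
    rw [h2]
    exact hU.mul hU0
  have hX0 : x s ^ D' * (x s ^ E₁) ^ m ≠ 0 := mul_ne_zero (pow_ne_zero _ hs) (pow_ne_zero _ hxe)
  have hgen := GF_form s x hs G d hGd hrel T e₂ hT ϖ m D' m le_rfl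
  rw [← h𝒢] at hgen
  -- the case where the generators are units
  have hunit : (∀ j ∈ Finset.Icc 1 m, U 𝒪 (gs j / x s ^ E₁)) →
      ((∃ j, pderiv j (deh s G) ∉ Q) ∨ ∀ h, h ∉ Q → h * deh s G ∉ Q ^ 2) →
      IsRegularLocalRing 𝒪 := by
    intro hθU hreg'
    refine core_unit 𝒪 hloc hR t htO (deh s G) (deh_ne_zero s G hG0 d hGd) hEt j₀ hj₀ ?_ 𝒢 g
      (x s ^ D' * (x s ^ E₁) ^ m) hX0 ?_ hg ?_ hloc2
    · intro Q' _ hQ'
      have h1 : Q' = Q := by
        ext b
        rw [hQ', hQ]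
      rw [h1]
      exact hreg'
    · intro h hh
      obtain ⟨a, β', hae, _⟩ := hgen h hh
      refine ⟨a * ∏ j ∈ Finset.Icc 1 m, β' j, ?_⟩
      rw [hae, map_mul, map_prod]
      ring
    · have h1 : g / (x s ^ D' * (x s ^ E₁) ^ m) =
          g / (x s ^ D' * (x s ^ E₁) ^ m * ∏ j ∈ Finset.Icc 1 m, gs j / x s ^ E₁) *
            ∏ j ∈ Finset.Icc 1 m, gs j / x s ^ E₁ := by
        have h2 : ∏ j ∈ Finset.Icc 1 m, gs j / x s ^ E₁ ≠ 0 := Finset.prod_ne_zero_iff.2 hθ0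
        field_simp
      rw [h1]
      exact hUX.mul (prod_unit _ _ hθU)
  by_cases hcr : ∃ j, pderiv j (deh s G) ∉ Q
  · refine hunit ?_ (Or.inl hcr)
    obtain ⟨j₁, hj₁⟩ := hcr
    intro j hj
    have h1 : U 𝒪 (aeval t (pderiv j₁ (deh s G))) := by
      by_contra hcon
      exact hj₁ ((hQ _).2 hcon)
    have h2 : U 𝒪 (aeval t (pderiv j₁ (deh s G)) / (gs j / x s ^ E₁) * (gs j / x s ^ E₁)) := by
      rw [div_mul_cancel₀ _ (hθ0 j hj)]
      exact h1
    exact h2.of_mul_right (hF2 j hj j₁) (hθO j hj)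
  · rcases (hnd s Q hQp hEQ hQC).resolve_left hcr with ⟨hrg, b, hb⟩ | ⟨hdet, hTQ⟩
    · refine hunit ?_ (Or.inr hrg)
      intro j hj
      have h1 : U 𝒪 (aeval t (deh s (T b))) := by
        by_contra hcon
        exact hb ((hQ _).2 hcon)
      have hjm := (Finset.mem_Icc.1 hj).2
      have h2 : (∏ _l : Fin j, aeval x (T b)) * x s ^ (d - 1 + (m - j) * e₂) =
          x s ^ E₁ * aeval t (deh s (T b)) ^ j := by
        rw [Finset.prod_const, Finset.card_univ, Fintype.card_fin, hxs _ _ (hT b), mul_pow,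
          ← pow_mul, hE₁]
        have h3 : d - 1 + m * e₂ = e₂ * j + (d - 1 + (m - j) * e₂) := by
          have h4 : m * e₂ = e₂ * j + (m - j) * e₂ := by
            rw [mul_comm e₂ j, ← add_mul]
            congr 1
            omega
          omega
        rw [h3, pow_add]
        ring
      have h3 : aeval t (deh s (T b)) ^ j / (gs j / x s ^ E₁) ∈ 𝒪 := by
        have h0 := hgs0 j hj
        have h4 : aeval t (deh s (T b)) ^ j / (gs j / x s ^ E₁) =
            ((∏ _l : Fin j, aeval x (T b)) * x s ^ (d - 1 + (m - j) * e₂)) / gs j := by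
          rw [h2]
          field_simp
        rw [h4]
        exact (hgs j hj).2 _ (Or.inr ⟨fun _ => b, _, Set.pow_mem_pow ⟨s, rfl⟩, rfl⟩)
      have h5 : U 𝒪 (aeval t (deh s (T b)) ^ j / (gs j / x s ^ E₁) * (gs j / x s ^ E₁)) := by
        rw [div_mul_cancel₀ _ (hθ0 j hj)]
        exact h1.pow j
      exact h5.of_mul_right h3 (hθO j hj)
    · push Not at hcr
      obtain ⟨_, _, hQg⟩ := lg R _ ϖ hϖ (deh s G) Q hQp hQC hcr hdet
      obtain ⟨c, hc, hcw⟩ := LI_crit ϖ (deh s G) (fun b => deh s (T b)) Q hQp hQg hTQ m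
      have hcU : U 𝒪 (aeval t c) := by
        by_contra hcon
        exact hc ((hQ _).2 hcon)
      have hdetU : U 𝒪 (aeval t (hess (deh s G)).det) := by
        by_contra hcon
        exact hdet ((hQ _).2 hcon)
      have hform : ∀ j ≤ m, ∀ w ∈ LI ϖ (deh s G) (fun b => deh s (T b)) j,
          ∃ (a : MvPolynomial {j // j ≠ s} R) (b : {j // j ≠ s} → MvPolynomial {j // j ≠ s} R),
          aeval t c * aeval t w = aeval t a * algebraMap R F ϖ ^ j +
            ∑ i, aeval t (b i) * aeval t (pderiv i (deh s G)) := by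
        intro j hj w hw
        obtain ⟨a, b, hab⟩ := mem_insert_form ϖ (deh s G) j (c * w) (hcw j hj w hw)
        refine ⟨a, b, ?_⟩
        rw [← map_mul, hab]
        simp only [map_add, map_mul, map_pow, map_sum, aeval_C]
      refine core_crit rep lg reg 𝒪 hloc hR hRU hinj ϖ hϖ t htO (deh s G)
        (deh_ne_zero s G hG0 d hGd) hEt j₀ hj₀ (fun j h => (hQ _).1 (hcr j) h) hdetU v m hvm
        (hv s) (fun j => gs j / x s ^ E₁) hθ0 hF1 hF2 ?_ 𝒢 g (x s ^ D' * (x s ^ E₁) ^ m) hX0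
        (c ^ m) (by rw [map_pow]; exact hcU.pow m) ?_ hg hUX hloc2
      · intro j hj
        obtain ⟨w, hw, hwe⟩ := hθ j hj
        obtain ⟨a, b, hab⟩ := hform j (Finset.mem_Icc.1 hj).2 w hw
        refine ⟨aeval t a * (aeval t c)⁻¹, fun i => aeval t (b i) * (aeval t c)⁻¹,
          𝒪.mul_mem (heB a) hcU.2.2, fun i => 𝒪.mul_mem (heB _) hcU.2.2, ?_⟩
        have hc0 : aeval t c ≠ 0 := hcU.1
        have h1 : gs j / x s ^ E₁ = aeval t w := by
          rw [hwe, mul_div_cancel_left₀ _ hxe]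
        have h2 : aeval t w = (aeval t c * aeval t w) * (aeval t c)⁻¹ := by
          field_simp
        simp only
        rw [h1, h2, hab, add_mul, Finset.sum_mul]
        congr 1
        · ring
        · refine Finset.sum_congr rfl fun i _ => ?_
          ring
      · intro h hh
        obtain ⟨a, β', hae, hβ'⟩ := hgen h hh
        refine ⟨a, fun j => aeval t c * aeval t (β' j), ?_, ?_⟩
        · rw [hae, Finset.prod_mul_distrib, Finset.prod_const, Nat.card_Icc, Nat.add_sub_cancel,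
            map_pow]
          ring
        · intro j hj
          exact hform j (Finset.mem_Icc.1 hj).2 _ (hβ' j hj)

end

end Pool.Agent.Helper21K9.OD
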