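import Pool.Agent.Helper21K9.OD.Hom

/-! The lattice of the model at a prime with nondegenerate quadratic singularities. -/

set_option autoImplicit false
set_option linter.unusedSectionVars false
set_option linter.unusedVariables false

open MvPolynomial
open scoped Pointwise

namespace Pool.Agent.Helper21K9.OD

open Pool.Agent.H918R2.Quad Pool.Agent.TH214.RM Pool.Agent.W418 Pool.Agent.H945R2.E

/-- The fibre over `𝔭` of `G = 0` has only nondegenerate quadratic singularities. -/
def Odp {O ι : Type} [CommRing O] [Fintype ι] [DecidableEq ι] (𝔭 : Ideal O)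
    (G : MvPolynomial ι O) : Prop :=
  ∀ (s : ι) (Q : Ideal (MvPolynomial {j // j ≠ s} O)), Q.IsPrime → (∀ r : O, C r ∈ Q ↔ r ∈ 𝔭) →
    deh s G ∈ Q → (∃ j, pderiv j (deh s G) ∉ Q) ∨ (hess (deh s G)).det ∉ Q

theorem map_hess {O R σ : Type} [CommRing O] [CommRing R] (φ : O →+* R) (f : MvPolynomial σ O) :
    (hess f).map (map φ) = hess (map φ f) := by
  ext1 i j
  simp only [Matrix.map_apply, hess, Matrix.of_apply]
  rw [pderiv_map, pderiv_map]

theorem odp_loc {O R ι : Type} [CommRing O] [CommRing R] [Algebra O R] [Fintype ι]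
    [DecidableEq ι] (𝔭 : Ideal O) [𝔭.IsPrime] [IsLocalization.AtPrime R 𝔭]
    (G : MvPolynomial ι O) (h : Odp 𝔭 G)
    (s : ι) (Q : Ideal (MvPolynomial {j : ι // j ≠ s} R)) (hQ : Q.IsPrime)
    (hG : deh s (map (algebraMap O R) G) ∈ Q) (hCQ : ∀ r : R, C r ∈ Q ↔ ¬ IsUnit r) :
    (∃ j, pderiv j (deh s (map (algebraMap O R) G)) ∉ Q) ∨
      (hess (deh s (map (algebraMap O R) G))).det ∉ Q := by
  set φ : MvPolynomial {j : ι // j ≠ s} O →+* MvPolynomial {j : ι // j ≠ s} R :=
    map (algebraMap O R) with hφ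
  have hp : (Q.comap φ).IsPrime := Ideal.comap_isPrime _ _
  have hC : ∀ r : O, C r ∈ Q.comap φ ↔ r ∈ 𝔭 := by
    intro r
    rw [Ideal.mem_comap, hφ, map_C, hCQ, IsLocalization.AtPrime.isUnit_to_map_iff R 𝔭 r]
    simp
  have hdeh : φ (deh s G) = deh s (map (algebraMap O R) G) := map_deh _ _ _
  have hE : deh s G ∈ Q.comap φ := by
    rw [Ideal.mem_comap, hdeh]
    exact hG
  rcases h s (Q.comap φ) hp hC hE with ⟨j, hj⟩ | h1
  · left
    refine ⟨j, fun h2 => hj ?_⟩
    rw [Ideal.mem_comap, hφ, ← pderiv_map, ← hφ, hdeh]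
    exact h2
  · right
    intro h2
    apply h1
    rw [Ideal.mem_comap, RingHom.map_det, RingHom.mapMatrix_apply, hφ, map_hess, ← hφ, hdeh]
    exact h2

section

variable {O F ι : Type} [CommRing O] [Field F] [Algebra O F]

theorem prod_mem_span_pow (x : ι → F) (m : ι →₀ ℕ) :
    (m.prod fun i k => x i ^ k) ∈ Submodule.span O (Set.range x ^ m.degree) := by
  classical
  rw [← Submodule.span_pow]
  have key : ∀ s : Finset ι, (∏ i ∈ s, x i ^ m i) ∈
      Submodule.span O (Set.range x) ^ (∑ i ∈ s, m i) := by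
    intro s
    induction s using Finset.induction_on with
    | empty =>
      rw [Finset.prod_empty, Finset.sum_empty, pow_zero]
      exact Submodule.one_le.1 le_rfl
    | insert a s ha ih =>
      rw [Finset.prod_insert ha, Finset.sum_insert ha, pow_add]
      have h1 : x a ∈ Submodule.span O (Set.range x) := Submodule.subset_span ⟨a, rfl⟩
      exact Submodule.mul_mem_mul (Submodule.pow_mem_pow _ h1 _) ih
  exact key m.support

theorem aeval_mem_span_pow (x : ι → F) (e : ℕ) (P : MvPolynomial ι O) (hP : P.IsHomogeneous e) :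
    aeval x P ∈ Submodule.span O (Set.range x ^ e) := by
  rw [aeval_def, eval₂_eq]
  refine Submodule.sum_mem _ fun m hm => ?_
  rw [← Algebra.smul_def]
  refine Submodule.smul_mem _ _ ?_
  have h1 : m.degree = e := by
    by_contra hne
    exact (mem_support_iff.1 hm) (hP.coeff_eq_zero hne)
  rw [← h1]
  exact prod_mem_span_pow x m

theorem GG_subset (x : ι → F) (ϖ : O) (ξ : ι → F) (e D' : ℕ)
    (hξ : ∀ i, ξ i ∈ Submodule.span O (Set.range x ^ e)) (m : ℕ) :
    Submodule.span O (GG x (algebraMap O F ϖ) ξ e D' m) ≤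
      Submodule.span O (Set.range x ^ (D' + m * e)) := by
  induction m with
  | zero =>
    rw [zero_mul, add_zero]
    exact le_rfl
  | succ m ih =>
    rw [GG, ← Submodule.span_mul_span]
    have h1 : Submodule.span O (Set.range x ^ (D' + (m + 1) * e)) =
        Submodule.span O (Set.range x ^ (D' + m * e)) * Submodule.span O (Set.range x ^ e) := by
      rw [Submodule.span_mul_span, ← pow_add]
      congr 2
      ring
    rw [h1]
    refine mul_le_mul' ih ?_
    rw [Submodule.span_le]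
    rintro z (⟨y, hy, rfl⟩ | ⟨i, rfl⟩)
    · rw [← map_pow, ← Algebra.smul_def]
      exact Submodule.smul_mem _ _ (Submodule.subset_span hy)
    · exact hξ i

theorem pow_smul_mem (x : ι → F) (ϖ : O) (ξ : ι → F) (e D' : ℕ) (m : ℕ) :
    ∃ K : ℕ, ∀ y ∈ Submodule.span O (Set.range x ^ (D' + m * e)),
      (ϖ ^ K) • y ∈ Submodule.span O (GG x (algebraMap O F ϖ) ξ e D' m) := by
  have key : ∃ K : ℕ, ∀ y ∈ Set.range x ^ (D' + m * e),
      (ϖ ^ K) • y ∈ Submodule.span O (GG x (algebraMap O F ϖ) ξ e D' m) := by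
    induction m with
    | zero =>
      refine ⟨0, fun y hy => ?_⟩
      rw [zero_mul, add_zero] at hy
      rw [pow_zero, one_smul]
      exact Submodule.subset_span hy
    | succ m ih =>
      obtain ⟨K, hK⟩ := ih
      refine ⟨K + (m + 1), fun y hy => ?_⟩
      have h1 : Set.range x ^ (D' + (m + 1) * e) =
          Set.range x ^ (D' + m * e) * Set.range x ^ e := by
        rw [← pow_add]
        congr 1
        ring
      rw [h1] at hy
      obtain ⟨a, ha, b, hb, rfl⟩ := Set.mem_mul.1 hy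
      rw [GG, ← Submodule.span_mul_span]
      have h2 : (ϖ ^ (K + (m + 1))) • (a * b) = ((ϖ ^ K) • a) * ((ϖ ^ (m + 1)) • b) := by
        rw [pow_add, smul_mul_smul_comm]
      rw [h2]
      refine Submodule.mul_mem_mul (hK a ha) (Submodule.subset_span (Or.inl ⟨b, hb, ?_⟩))
      rw [Algebra.smul_def, map_pow]
  obtain ⟨K, hK⟩ := key
  refine ⟨K, fun y hy => ?_⟩
  induction hy using Submodule.span_induction with
  | mem y hy => exact hK y hy
  | zero => rw [smul_zero]; exact Submodule.zero_mem _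
  | add a b _ _ ha hb => rw [smul_add]; exact Submodule.add_mem _ ha hb
  | smul r a _ ha => rw [smul_comm]; exact Submodule.smul_mem _ _ ha

end

section

variable {O K F : Type} [CommRing O] [IsDedekindDomain O] [Field K] [Algebra O K]
  [IsFractionRing O K] [Field F] [Algebra K F] [Algebra O F] [IsScalarTower O K F]

include K in
theorem regAt_of_odp (rep : S_REP) (lg : S_LG) (reg : S_REG)
    (𝔭 : Ideal O) [𝔭.IsPrime] {n : ℕ} (G : MvPolynomial (Fin (n + 2)) O)
    (R : Subalgebra O K) [IsLocalization.AtPrime R 𝔭] [IsDiscreteValuationRing R]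
    [IsFractionRing R K]
    (hG0 : G ≠ 0) (d : ℕ) (hGd : G.IsHomogeneous d) (hodp : Odp 𝔭 G)
    (ϖ : O) (hϖ : Irreducible (algebraMap O R ϖ)) (v m : ℕ) (hvm : v < 2 * m)
    (hv : ∀ s, C (algebraMap O R ϖ) ^ v ∈ Ideal.span (insert (deh s (map (algebraMap O R) G))
      (Set.range fun j => pderiv j (deh s (map (algebraMap O R) G)))))
    (x : Fin (n + 2) → F) (hx0 : x 0 = 1)
    (hgen : IntermediateField.adjoin K (Set.range x) = ⊤)
    (b : Fin n → F) (htb : IsTranscendenceBasis K b)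
    (x' : Fin (n + 2) → F) (u : Fin (n + 2) → Fin (n + 2) → K)
    (hu : ∀ i, x i = ∑ j, algebraMap K F (u i j) * x' j) (hrel : aeval x' G = 0)
    (D' : ℕ) (hD' : 1 ≤ D') (M : Submodule O F)
    (hM : ∀ y ∈ M, ∃ s, s ∉ 𝔭 ∧ s • y ∈ Submodule.span O (GG x' (algebraMap O F ϖ)
      (fun i => aeval x' (pderiv i G)) (d - 1) D' m))
    (hM2 : ∀ y ∈ Submodule.span O (GG x' (algebraMap O F ϖ)
      (fun i => aeval x' (pderiv i G)) (d - 1) D' m), ∃ s, s ∉ 𝔭 ∧ s • y ∈ M) : RegAt 𝔭 M := by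
  intro f hfM hf q hqp hq
  have : IsScalarTower O R F := IsScalarTower.of_algebraMap_eq fun r => by
    rw [IsScalarTower.algebraMap_apply O K F]; rfl
  have : IsScalarTower R K F := IsScalarTower.of_algebraMap_eq fun r => rfl
  have hinjOR : Function.Injective (algebraMap O R) :=
    IsLocalization.injective R 𝔭.primeCompl_le_nonZeroDivisors
  have hinj : Function.Injective (algebraMap R K) := IsFractionRing.injective R K
  have hinjF : Function.Injective (algebraMap R F) := by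
    rw [IsScalarTower.algebraMap_eq R K F]
    exact (algebraMap K F).injective.comp hinj
  set 𝒢 := GG x' (algebraMap O F ϖ) (fun i => aeval x' (pderiv i G)) (d - 1) D' m with h𝒢
  have hMG : ∀ y ∈ M, y ∈ Submodule.span R 𝒢 := by
    intro y hy
    obtain ⟨s, hs, hsy⟩ := hM y hy
    have h1 : s • y ∈ Submodule.span R 𝒢 := Submodule.span_subset_span O R _ hsy
    have h2 : IsUnit (algebraMap O R s) := IsLocalization.map_units R (⟨s, hs⟩ : 𝔭.primeCompl)
    obtain ⟨w, hw⟩ := h2
    have h3 : y = ((w⁻¹ : Rˣ) : R) • (s • y) := by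
      rw [← algebraMap_smul R s y, ← hw, smul_smul, Units.inv_mul, one_smul]
    rw [h3]
    exact Submodule.smul_mem _ _ h1
  have hGM : ∀ y ∈ Submodule.span R 𝒢, ∃ s, s ∉ 𝔭 ∧ s • y ∈ M := by
    intro y hy
    obtain ⟨s, hs, hsy⟩ := clear_denom 𝔭 𝒢 y hy
    obtain ⟨t, ht, hty⟩ := hM2 _ hsy
    refine ⟨t * s, fun h => (Ideal.IsPrime.mem_or_mem ‹𝔭.IsPrime› h).elim ht hs, ?_⟩
    rw [mul_smul]
    exact hty
  obtain ⟨𝒪, hloc, hR, hRU, hloc2, hG, hreg⟩ :=
    transfer (R := R) 𝔭 M 𝒢 hMG hGM f q hq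
  apply hreg
  have hrel' : aeval x' (map (algebraMap O R) G) = 0 := by
    rw [aeval_map_algebraMap, hrel]
  have hind : ∀ s, x' s ≠ 0 → ∃ j₀ : {i : Fin (n + 2) // i ≠ s},
      AlgebraicIndependent R
        (fun i : {i : {i : Fin (n + 2) // i ≠ s} // i ≠ j₀} => x' i / x' s) := by
    intro s hs
    obtain ⟨j₀, hj₀⟩ := hind_of (K := K) (ι := Fin (n + 2)) (by simp) x hx0 hgen b htb x' u hu s hs
    exact ⟨j₀, hj₀.restrictScalars hinj⟩
  have hG0' : map (algebraMap O R) G ≠ 0 := fun h =>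
    hG0 (map_injective _ hinjOR (by rw [h, map_zero]))
  have h𝒢' : GG x' (algebraMap R F (algebraMap O R ϖ))
      (fun i => aeval x' (pderiv i (map (algebraMap O R) G))) (d - 1) D' m = 𝒢 := by
    rw [h𝒢, ← IsScalarTower.algebraMap_apply O R F]
    congr 1
    funext i
    rw [pderiv_map, aeval_map_algebraMap]
  refine gdgo rep lg reg 𝒪 hloc hR hRU hinjF (algebraMap O R ϖ) hϖ (map (algebraMap O R) G) hG0'
    d (hGd.map _) (fun s Q hQ hGQ hC => odp_loc 𝔭 G hodp s Q hQ hGQ hC) v m hvm hv x' hrel' hind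
    D' hD' f hf ?_ ?_ ?_
  · rw [h𝒢']
    exact hMG f hfM
  · rw [h𝒢']
    exact hG
  · rw [h𝒢']
    exact hloc2

include K in
/-- The local module at a prime whose fibre has only nondegenerate quadratic singularities. -/
theorem locMod_of_odp (rep : S_REP) (lg : S_LG) (reg : S_REG)
    (𝔭 : Ideal O) [𝔭.IsPrime] (h0 : 𝔭 ≠ ⊥) {n : ℕ} (G : MvPolynomial (Fin (n + 2)) O)
    (hG0 : G ≠ 0) (d : ℕ) (hGd : G.IsHomogeneous d) (hodp : Odp 𝔭 G)
    (c : O) (hc : c ≠ 0) (hcv : ∀ s, C c ∈ Ideal.span (insert (deh s G)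
      (Set.range fun j => pderiv j (deh s G))))
    (x : Fin (n + 2) → F) (hx0 : x 0 = 1)
    (hgen : IntermediateField.adjoin K (Set.range x) = ⊤)
    (b : Fin n → F) (htb : IsTranscendenceBasis K b)
    (x' : Fin (n + 2) → F) (u u' : Fin (n + 2) → Fin (n + 2) → K)
    (hu : ∀ i, x i = ∑ j, algebraMap K F (u i j) * x' j)
    (hu' : ∀ i, x' i = ∑ j, algebraMap K F (u' i j) * x j) (hrel : aeval x' G = 0) :
    LocMod 𝔭 x := by
  refine locMod_lin (K := K) 𝔭 h0 x x' ?_ ?_ ?_
  · intro i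
    rw [hu']
    refine Submodule.sum_mem _ fun j _ => ?_
    rw [← Algebra.smul_def]
    exact Submodule.smul_mem _ _ (Submodule.subset_span ⟨j, rfl⟩)
  · intro i
    rw [hu]
    refine Submodule.sum_mem _ fun j _ => ?_
    rw [← Algebra.smul_def]
    exact Submodule.smul_mem _ _ (Submodule.subset_span ⟨j, rfl⟩)
  have h1𝔭 : (1 : O) ∉ 𝔭 := (Ideal.ne_top_iff_one 𝔭).1 Ideal.IsPrime.ne_top'
  let R := Localization.subalgebra.ofField K 𝔭.primeCompl 𝔭.primeCompl_le_nonZeroDivisors
  have : IsLocalization.AtPrime R 𝔭 := Localization.subalgebra.isLocalization_ofField K _ _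
  have : IsFractionRing R K := Localization.subalgebra.isFractionRing_ofField K _ _
  have : IsDiscreteValuationRing R :=
    IsLocalization.AtPrime.isDiscreteValuationRing_of_dedekind_domain O h0 R
  have hinjOR : Function.Injective (algebraMap O R) :=
    IsLocalization.injective R 𝔭.primeCompl_le_nonZeroDivisors
  obtain ⟨π, hπ⟩ := IsDiscreteValuationRing.exists_irreducible R
  obtain ⟨⟨ϖ, s₀⟩, hs₀⟩ := IsLocalization.surj 𝔭.primeCompl π
  have hϖ : Irreducible (algebraMap O R ϖ) := by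
    have h1 : IsUnit (algebraMap O R s₀) := IsLocalization.map_units R s₀
    rw [← hs₀]
    exact (irreducible_mul_isUnit h1).2 hπ
  have hc' : algebraMap O R c ≠ 0 := fun h => hc (hinjOR (by rw [h, map_zero]))
  obtain ⟨v, w, hw⟩ := IsDiscreteValuationRing.eq_unit_mul_pow_irreducible hc' hϖ
  have hv : ∀ s, C (algebraMap O R ϖ) ^ v ∈ Ideal.span (insert (deh s (map (algebraMap O R) G))
      (Set.range fun j => pderiv j (deh s (map (algebraMap O R) G)))) := by
    intro s
    have h1 : C (algebraMap O R c) ∈ Ideal.span (insert (deh s (map (algebraMap O R) G))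
      (Set.range fun j => pderiv j (deh s (map (algebraMap O R) G)))) := by
      have h2 := Ideal.mem_map_of_mem (map (algebraMap O R) :
        MvPolynomial {j // j ≠ s} O →+* MvPolynomial {j // j ≠ s} R) (hcv s)
      rw [map_C, Ideal.map_span, Set.image_insert_eq, map_deh, ← Set.range_comp] at h2
      convert h2 using 4
      funext j
      simp only [Function.comp]
      rw [← pderiv_map, map_deh]
    have h3 : (C (algebraMap O R ϖ) ^ v : MvPolynomial {j // j ≠ s} R) =
        C ((w⁻¹ : Rˣ) : R) * C (algebraMap O R c) := by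
      rw [hw, ← C_mul, ← C_pow, ← mul_assoc, Units.inv_mul, one_mul]
    rw [h3]
    exact Ideal.mul_mem_left _ _ h1
  set m := v + 1 with hm
  set e := d - 1 with he
  set ξ : Fin (n + 2) → F := fun i => aeval x' (pderiv i G) with hξ
  have hξm : ∀ i, ξ i ∈ Submodule.span O (Set.range x' ^ e) := fun i =>
    aeval_mem_span_pow x' e _ hGd.pderiv
  refine ⟨m * e + 1, fun D hD => ?_⟩
  obtain ⟨D', hDD'⟩ : ∃ D', D = D' + m * e := ⟨D - m * e, by omega⟩
  have hD' : 1 ≤ D' := by omega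
  subst hDD'
  set N := Submodule.span O (Set.range x' ^ (D' + m * e)) with hN
  set L := Submodule.span O (GG x' (algebraMap O F ϖ) ξ e D' m) with hL
  have hLN : L ≤ N := GG_subset x' ϖ ξ e D' hξm m
  let P : Submodule O F :=
    { carrier := {y | y ∈ N ∧ ∃ s : O, s ∉ 𝔭 ∧ s • y ∈ L}
      zero_mem' := ⟨N.zero_mem, 1, h1𝔭, by rw [smul_zero]; exact L.zero_mem⟩
      add_mem' := by
        rintro y z ⟨hy, s, hs, hsy⟩ ⟨hz, t, ht, htz⟩
        refine ⟨N.add_mem hy hz, s * t, fun h => (Ideal.IsPrime.mem_or_mem ‹𝔭.IsPrime› h).elim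
          hs ht, ?_⟩
        rw [smul_add]
        refine L.add_mem ?_ ?_
        · rw [mul_comm, mul_smul]
          exact L.smul_mem _ hsy
        · rw [mul_smul]
          exact L.smul_mem _ htz
      smul_mem' := by
        rintro r y ⟨hy, s, hs, hsy⟩
        refine ⟨N.smul_mem r hy, s, hs, ?_⟩
        rw [smul_comm s r y]
        exact L.smul_mem _ hsy }
  have hPmem : ∀ y, y ∈ P ↔ y ∈ N ∧ ∃ s : O, s ∉ 𝔭 ∧ s • y ∈ L := fun y => Iff.rfl
  refine ⟨P, ?_, ?_, ?_⟩
  · intro y hy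
    exact ⟨1, h1𝔭, by rw [one_smul]; exact hy.1⟩
  · obtain ⟨K₀, hK₀⟩ := pow_smul_mem x' ϖ ξ e D' m
    have hϖ0 : ϖ ^ K₀ ≠ 0 := by
      refine pow_ne_zero _ ?_
      rintro rfl
      rw [map_zero] at hϖ
      exact hϖ.ne_zero rfl
    obtain ⟨k, hk⟩ := exists_pow_dvd 𝔭 h0 (ϖ ^ K₀) hϖ0 0
    refine ⟨k, fun c hc y hy => ?_⟩
    obtain ⟨s, hs, d', hd', hscd⟩ := hk c hc
    refine ⟨N.smul_mem _ hy, s, hs, ?_⟩
    rw [smul_smul, hscd, mul_comm, mul_smul]
    exact L.smul_mem _ (hK₀ y hy)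
  · intro M hMP hPM
    refine regAt_of_odp rep lg reg 𝔭 G R hG0 d hGd hodp ϖ hϖ v m (by omega) hv x hx0 hgen b htb
      x' u hu hrel D' hD' M ?_ ?_
    · intro y hy
      exact (hMP hy).2
    · intro y hy
      exact hPM y ⟨hLN hy, 1, h1𝔭, by rw [one_smul]; exact hy⟩

end

end Pool.Agent.Helper21K9.OD
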