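import Pool.Agent.TH214.RM.Crit
import Pool.Agent.Helper21K9.OD.Stm

/-! Separation of the nondegenerate quadratic singularities from the regular critical points:
statement. -/

set_option autoImplicit false

open MvPolynomial

namespace Pool.Agent.Helper21K9.OD

open Pool.Agent.TH214.RM

/-- [MIX] There are forms of the same degree which vanish exactly at the critical points over `𝔭`
where `G` is not regular. -/
def S_MIX : Prop :=
  ∀ {O : Type} [CommRing O] [IsDedekindDomain O] (𝔭 : Ideal O), 𝔭.IsPrime → 𝔭 ≠ ⊥ →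
    ∀ {n : ℕ} (G : MvPolynomial (Fin (n + 2)) O) (d : ℕ), G.IsHomogeneous d →
    (∀ (s : Fin (n + 2)) (Q : Ideal (MvPolynomial {j // j ≠ s} O)), Q.IsPrime →
      (∀ r : O, C r ∈ Q ↔ r ∈ 𝔭) → deh s G ∈ Q →
      (∀ h, h ∉ Q → h * deh s G ∉ Q ^ 2) ∨ (hess (deh s G)).det ∉ Q) →
    ∃ (e : ℕ) (B : Finset (MvPolynomial (Fin (n + 2)) O)), (∀ b ∈ B, b.IsHomogeneous e) ∧
      ∀ (s : Fin (n + 2)) (Q : Ideal (MvPolynomial {j // j ≠ s} O)), Q.IsPrime →
        (∀ r : O, C r ∈ Q ↔ r ∈ 𝔭) → deh s G ∈ Q → (∀ j, pderiv j (deh s G) ∈ Q) →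
        ((∀ h, h ∉ Q → h * deh s G ∉ Q ^ 2) ∧ ∃ b ∈ B, deh s b ∉ Q) ∨
          ((hess (deh s G)).det ∉ Q ∧ ∀ b ∈ B, deh s b ∈ Q)

end Pool.Agent.Helper21K9.OD
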