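import Pool.Agent.Helper21K9.OD.Hom2
import Pool.Agent.Helper21K9.OD.Latt
import Pool.Agent.Helper21K9.OD.MixStm

/-! The lattice of the model at a prime over which the non-regular points are nondegenerate
quadratic singularities. -/

set_option autoImplicit false
set_option linter.unusedSectionVars false
set_option linter.unusedVariables false

open MvPolynomial
open scoped Pointwise

namespace Pool.Agent.Helper21K9.OD

open Pool.Agent.H918R2.Quad Pool.Agent.TH214.RM Pool.Agent.W418 Pool.Agent.H945R2.E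

/-- Over `𝔭` every point of `G = 0` is regular or a nondegenerate quadratic singularity of the
fibre. -/
def Nice {O ι : Type} [CommRing O] [Fintype ι] [DecidableEq ι] (𝔭 : Ideal O)
    (G : MvPolynomial ι O) : Prop :=
  ∀ (s : ι) (Q : Ideal (MvPolynomial {j // j ≠ s} O)), Q.IsPrime → (∀ r : O, C r ∈ Q ↔ r ∈ 𝔭) →
    deh s G ∈ Q → (∀ h, h ∉ Q → h * deh s G ∉ Q ^ 2) ∨ (hess (deh s G)).det ∉ Q

theorem sq_loc {O R ι : Type} [CommRing O] [CommRing R] [Algebra O R] [DecidableEq ι]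
    (𝔭 : Ideal O) [𝔭.IsPrime] [IsLocalization.AtPrime R 𝔭]
    (hinj : Function.Injective (algebraMap O R)) (G : MvPolynomial ι O)
    (s : ι) (Q : Ideal (MvPolynomial {j : ι // j ≠ s} R)) (hQ : Q.IsPrime)
    (hCQ : ∀ r : R, C r ∈ Q ↔ ¬ IsUnit r)
    (h1 : ∀ h, h ∉ Q.comap (map (algebraMap O R)) →
      h * deh s G ∉ (Q.comap (map (algebraMap O R))) ^ 2) :
    ∀ h, h ∉ Q → h * deh s (map (algebraMap O R) G) ∉ Q ^ 2 := by
  set φ : MvPolynomial {j : ι // j ≠ s} O →+* MvPolynomial {j : ι // j ≠ s} R :=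
    map (algebraMap O R) with hφ
  have hφi : Function.Injective φ := map_injective _ hinj
  have hp : (Q.comap φ).IsPrime := Ideal.comap_isPrime _ _
  have hC : ∀ r : O, C r ∈ Q.comap φ ↔ r ∈ 𝔭 := by
    intro r
    rw [Ideal.mem_comap, hφ, map_C, hCQ, IsLocalization.AtPrime.isUnit_to_map_iff R 𝔭 r]
    simp
  have hs : ∀ r : O, r ∈ 𝔭.primeCompl → (C (algebraMap O R r) : MvPolynomial _ R) ∉ Q := by
    intro r hr h1
    rw [hCQ] at h1
    exact h1 (IsLocalization.map_units R (⟨r, hr⟩ : 𝔭.primeCompl))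
  have hdeh : φ (deh s G) = deh s (map (algebraMap O R) G) := map_deh _ _ _
  intro f hf hfQ
  obtain ⟨a, ha, y, hy⟩ := clear_poly 𝔭.primeCompl f
  obtain ⟨b, hb, z, hzQ, hz⟩ := clear_sq 𝔭.primeCompl Q _ hfQ
  have hyQ : y ∉ Q.comap φ := by
    rw [Ideal.mem_comap, hφ, hy]
    intro h2
    exact (hQ.mem_or_mem h2).elim (hs a ha) hf
  have hbQ : C b ∉ Q.comap φ := by
    rw [hC]
    exact hb
  have h3 : C b * y ∉ Q.comap φ := fun h4 => (hp.mem_or_mem h4).elim hbQ hyQ
  apply h1 _ h3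
  have h5 : C b * y * deh s G = C a * z := by
    apply hφi
    have hy' : φ y = C (algebraMap O R a) * f := hy
    have hz' : φ z = C (algebraMap O R b) * (f * deh s (map (algebraMap O R) G)) := hz
    have hCa : φ (C a) = C (algebraMap O R a) := map_C _ _
    have hCb : φ (C b) = C (algebraMap O R b) := map_C _ _
    rw [map_mul, map_mul, map_mul, hdeh, hy', hz', hCa, hCb]
    ring
  rw [h5]
  exact Ideal.mul_mem_left _ _ hzQ

section

variable {O F ι : Type} [CommRing O] [Field F] [Algebra O F]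

theorem GF_subset {β : Type} (x : ι → F) (ϖ : O) (ξ : ι → F) (τ : β → F) (e₁ e₂ D' m₀ : ℕ)
    (hξ : ∀ i, ξ i ∈ Submodule.span O (Set.range x ^ e₁))
    (hτ : ∀ b, τ b ∈ Submodule.span O (Set.range x ^ e₂)) (m : ℕ) (hm : m ≤ m₀) :
    Submodule.span O (GF x D' (HM x (algebraMap O F ϖ) ξ τ e₁ e₂ m₀) m) ≤
      Submodule.span O (Set.range x ^ (D' + m * (e₁ + m₀ * e₂))) := by
  have hmul : ∀ (a b : ℕ) (y z : F), y ∈ Submodule.span O (Set.range x ^ a) →
      z ∈ Submodule.span O (Set.range x ^ b) →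
      y * z ∈ Submodule.span O (Set.range x ^ (a + b)) := by
    intro a b y z hy hz
    rw [pow_add, ← Submodule.span_mul_span]
    exact Submodule.mul_mem_mul hy hz
  induction m with
  | zero =>
    rw [zero_mul, add_zero]
    exact le_rfl
  | succ m ih =>
    rw [GF, ← Submodule.span_mul_span]
    have h1 : Submodule.span O (Set.range x ^ (D' + (m + 1) * (e₁ + m₀ * e₂))) =
        Submodule.span O (Set.range x ^ (D' + m * (e₁ + m₀ * e₂))) *
          Submodule.span O (Set.range x ^ (e₁ + m₀ * e₂)) := by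
      rw [Submodule.span_mul_span, ← pow_add]
      congr 2
      ring
    rw [h1]
    refine mul_le_mul' (ih (by omega)) ?_
    rw [Submodule.span_le]
    rintro z ((⟨y, hy, rfl⟩ | ⟨i, y, hy, rfl⟩) | ⟨φ, y, hy, rfl⟩)
    · rw [← map_pow, ← Algebra.smul_def]
      exact Submodule.smul_mem _ _ (Submodule.subset_span hy)
    · exact hmul _ _ _ _ (hξ i) (Submodule.subset_span hy)
    · have h2 : ∀ k : ℕ, ∀ φ : Fin k → β, ∏ l, τ (φ l) ∈
          Submodule.span O (Set.range x ^ (k * e₂)) := by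
        intro k
        induction k with
        | zero =>
          intro φ
          rw [zero_mul, pow_zero, Fin.prod_univ_zero]
          exact Submodule.subset_span rfl
        | succ k ihk =>
          intro φ
          rw [Fin.prod_univ_succ, add_mul, one_mul, add_comm]
          exact hmul _ _ _ _ (hτ _) (ihk _)
      have h3 := hmul _ _ _ _ (h2 _ φ) (Submodule.subset_span hy)
      have h4 : (m + 1) * e₂ + (e₁ + (m₀ - (m + 1)) * e₂) = e₁ + m₀ * e₂ := by
        have h5 : m₀ * e₂ = (m + 1) * e₂ + (m₀ - (m + 1)) * e₂ := by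
          rw [← add_mul]
          congr 1
          omega
        omega
      rw [h4] at h3
      exact h3

theorem pow_smul_mem' {β : Type} (x : ι → F) (ϖ : O) (ξ : ι → F) (τ : β → F)
    (e₁ e₂ D' m₀ m : ℕ) :
    ∃ K : ℕ, ∀ y ∈ Submodule.span O (Set.range x ^ (D' + m * (e₁ + m₀ * e₂))),
      (ϖ ^ K) • y ∈ Submodule.span O (GF x D' (HM x (algebraMap O F ϖ) ξ τ e₁ e₂ m₀) m) := by
  have key : ∃ K : ℕ, ∀ y ∈ Set.range x ^ (D' + m * (e₁ + m₀ * e₂)),
      (ϖ ^ K) • y ∈ Submodule.span O (GF x D' (HM x (algebraMap O F ϖ) ξ τ e₁ e₂ m₀) m) := by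
    induction m with
    | zero =>
      refine ⟨0, fun y hy => ?_⟩
      rw [zero_mul, add_zero] at hy
      rw [pow_zero, one_smul]
      exact Submodule.subset_span hy
    | succ m ih =>
      obtain ⟨K, hK⟩ := ih
      refine ⟨K + (m + 1), fun y hy => ?_⟩
      have h1 : Set.range x ^ (D' + (m + 1) * (e₁ + m₀ * e₂)) =
          Set.range x ^ (D' + m * (e₁ + m₀ * e₂)) * Set.range x ^ (e₁ + m₀ * e₂) := by
        rw [← pow_add]
        congr 1
        ring
      rw [h1] at hy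
      obtain ⟨a, ha, b, hb, rfl⟩ := Set.mem_mul.1 hy
      rw [GF, ← Submodule.span_mul_span]
      have h2 : (ϖ ^ (K + (m + 1))) • (a * b) = ((ϖ ^ K) • a) * ((ϖ ^ (m + 1)) • b) := by
        rw [pow_add, smul_mul_smul_comm]
      rw [h2]
      refine Submodule.mul_mem_mul (hK a ha) (Submodule.subset_span (Or.inl (Or.inl ⟨b, hb, ?_⟩)))
      rw [Algebra.smul_def, map_pow]
  obtain ⟨K, hK⟩ := key
  refine ⟨K, fun y hy => ?_⟩
  induction hy using Submodule.span_induction with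
  | mem y hy => exact hK y hy
  | zero => rw [smul_zero]; exact Submodule.zero_mem _
  | add a b _ _ ha hb => rw [smul_add]; exact Submodule.add_mem _ ha hb
  | smul r a _ ha => rw [smul_comm]; exact Submodule.smul_mem _ _ ha

end

section

variable {O K F : Type} [CommRing O] [IsDedekindDomain O] [Field K] [Algebra O K]
  [IsFractionRing O K] [Field F] [Algebra K F] [Algebra O F] [IsScalarTower O K F]

include K in
theorem regAt_of_nice (rep : S_REP) (lg : S_LG) (reg : S_REG)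
    (𝔭 : Ideal O) [𝔭.IsPrime] {n : ℕ} (G : MvPolynomial (Fin (n + 2)) O)
    (R : Subalgebra O K) [IsLocalization.AtPrime R 𝔭] [IsDiscreteValuationRing R]
    [IsFractionRing R K]
    (hG0 : G ≠ 0) (d : ℕ) (hGd : G.IsHomogeneous d)
    {β : Type} [Fintype β] (T : β → MvPolynomial (Fin (n + 2)) O) (e₂ : ℕ)
    (hT : ∀ b, (T b).IsHomogeneous e₂)
    (hnd : ∀ (s : Fin (n + 2)) (Q : Ideal (MvPolynomial {j // j ≠ s} O)), Q.IsPrime →
      (∀ r : O, C r ∈ Q ↔ r ∈ 𝔭) → deh s G ∈ Q → (∀ j, pderiv j (deh s G) ∈ Q) →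
      ((∀ h, h ∉ Q → h * deh s G ∉ Q ^ 2) ∧ ∃ b, deh s (T b) ∉ Q) ∨
        ((hess (deh s G)).det ∉ Q ∧ ∀ b, deh s (T b) ∈ Q))
    (ϖ : O) (hϖ : Irreducible (algebraMap O R ϖ)) (v m : ℕ) (hvm : v < 2 * m)
    (hv : ∀ s, C (algebraMap O R ϖ) ^ v ∈ Ideal.span (insert (deh s (map (algebraMap O R) G))
      (Set.range fun j => pderiv j (deh s (map (algebraMap O R) G)))))
    (x : Fin (n + 2) → F) (hx0 : x 0 = 1)
    (hgen : IntermediateField.adjoin K (Set.range x) = ⊤)
    (b : Fin n → F) (htb : IsTranscendenceBasis K b)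
    (x' : Fin (n + 2) → F) (u : Fin (n + 2) → Fin (n + 2) → K)
    (hu : ∀ i, x i = ∑ j, algebraMap K F (u i j) * x' j) (hrel : aeval x' G = 0)
    (D' : ℕ) (hD' : 1 ≤ D') (𝒢 : Set F)
    (h𝒢 : 𝒢 = GF x' D' (HM x' (algebraMap O F ϖ) (fun i => aeval x' (pderiv i G))
      (fun b => aeval x' (T b)) (d - 1) e₂ m) m)
    (M : Submodule O F)
    (hM : ∀ y ∈ M, ∃ s, s ∉ 𝔭 ∧ s • y ∈ Submodule.span O 𝒢)
    (hM2 : ∀ y ∈ Submodule.span O 𝒢, ∃ s, s ∉ 𝔭 ∧ s • y ∈ M) : RegAt 𝔭 M := by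
  intro f hfM hf q hqp hq
  have : IsScalarTower O R F := IsScalarTower.of_algebraMap_eq fun r => by
    rw [IsScalarTower.algebraMap_apply O K F]; rfl
  have : IsScalarTower R K F := IsScalarTower.of_algebraMap_eq fun r => rfl
  have hinjOR : Function.Injective (algebraMap O R) :=
    IsLocalization.injective R 𝔭.primeCompl_le_nonZeroDivisors
  have hinj : Function.Injective (algebraMap R K) := IsFractionRing.injective R K
  have hinjF : Function.Injective (algebraMap R F) := by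
    rw [IsScalarTower.algebraMap_eq R K F]
    exact (algebraMap K F).injective.comp hinj
  have hMG : ∀ y ∈ M, y ∈ Submodule.span R 𝒢 := by
    intro y hy
    obtain ⟨s, hs, hsy⟩ := hM y hy
    have h1 : s • y ∈ Submodule.span R 𝒢 := Submodule.span_subset_span O R _ hsy
    have h2 : IsUnit (algebraMap O R s) := IsLocalization.map_units R (⟨s, hs⟩ : 𝔭.primeCompl)
    obtain ⟨w, hw⟩ := h2
    have h3 : y = ((w⁻¹ : Rˣ) : R) • (s • y) := by
      rw [← algebraMap_smul R s y, ← hw, smul_smul, Units.inv_mul, one_smul]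
    rw [h3]
    exact Submodule.smul_mem _ _ h1
  have hGM : ∀ y ∈ Submodule.span R 𝒢, ∃ s, s ∉ 𝔭 ∧ s • y ∈ M := by
    intro y hy
    obtain ⟨s, hs, hsy⟩ := clear_denom 𝔭 𝒢 y hy
    obtain ⟨t, ht, hty⟩ := hM2 _ hsy
    refine ⟨t * s, fun h => (Ideal.IsPrime.mem_or_mem ‹𝔭.IsPrime› h).elim ht hs, ?_⟩
    rw [mul_smul]
    exact hty
  obtain ⟨𝒪, hloc, hR, hRU, hloc2, hG, hreg⟩ :=
    transfer (R := R) 𝔭 M 𝒢 hMG hGM f q hq
  apply hreg
  have hrel' : aeval x' (map (algebraMap O R) G) = 0 := by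
    rw [aeval_map_algebraMap, hrel]
  have hind : ∀ s, x' s ≠ 0 → ∃ j₀ : {i : Fin (n + 2) // i ≠ s},
      AlgebraicIndependent R
        (fun i : {i : {i : Fin (n + 2) // i ≠ s} // i ≠ j₀} => x' i / x' s) := by
    intro s hs
    obtain ⟨j₀, hj₀⟩ := hind_of (K := K) (ι := Fin (n + 2)) (by simp) x hx0 hgen b htb x' u hu s hs
    exact ⟨j₀, hj₀.restrictScalars hinj⟩
  have hG0' : map (algebraMap O R) G ≠ 0 := fun h =>
    hG0 (map_injective _ hinjOR (by rw [h, map_zero]))
  have h𝒢' : 𝒢 = GF x' D' (HM x' (algebraMap R F (algebraMap O R ϖ))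
      (fun i => aeval x' (pderiv i (map (algebraMap O R) G)))
      (fun b => aeval x' (map (algebraMap O R) (T b))) (d - 1) e₂ m) m := by
    rw [h𝒢, ← IsScalarTower.algebraMap_apply O R F]
    congr 2
    · funext i
      rw [pderiv_map, aeval_map_algebraMap]
    · funext i
      rw [aeval_map_algebraMap]
  refine gdgm rep lg reg 𝒪 hloc hR hRU hinjF (algebraMap O R ϖ) hϖ (map (algebraMap O R) G) hG0'
    d (hGd.map _) (fun b => map (algebraMap O R) (T b)) e₂ (fun b => (hT b).map _) ?_ v m hvm hv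
    x' hrel' hind D' hD' f hf 𝒢 h𝒢' (hMG f hfM) hG hloc2
  intro s Q hQ hGQ hCQ
  by_cases hcr : ∃ j, pderiv j (deh s (map (algebraMap O R) G)) ∉ Q
  · exact Or.inl hcr
  · right
    push Not at hcr
    set φ : MvPolynomial {j // j ≠ s} O →+* MvPolynomial {j // j ≠ s} R :=
      map (algebraMap O R) with hφ
    have hp : (Q.comap φ).IsPrime := Ideal.comap_isPrime _ _
    have hC : ∀ r : O, C r ∈ Q.comap φ ↔ r ∈ 𝔭 := by
      intro r
      rw [Ideal.mem_comap, hφ, map_C, hCQ, IsLocalization.AtPrime.isUnit_to_map_iff R 𝔭 r]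
      simp
    have hdeh : ∀ P : MvPolynomial (Fin (n + 2)) O,
        φ (deh s P) = deh s (map (algebraMap O R) P) := fun P => map_deh _ _ _
    have hE : deh s G ∈ Q.comap φ := by
      rw [Ideal.mem_comap, hdeh]
      exact hGQ
    have hd : ∀ j, pderiv j (deh s G) ∈ Q.comap φ := by
      intro j
      rw [Ideal.mem_comap, hφ, ← pderiv_map, ← hφ, hdeh]
      exact hcr j
    rcases hnd s (Q.comap φ) hp hC hE hd with ⟨h1, b, hb⟩ | ⟨h1, h2⟩
    · refine Or.inl ⟨sq_loc 𝔭 hinjOR G s Q hQ hCQ h1, b, fun h => hb ?_⟩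
      rw [Ideal.mem_comap, hdeh]
      exact h
    · refine Or.inr ⟨fun h => h1 ?_, fun b => ?_⟩
      · rw [Ideal.mem_comap, RingHom.map_det, RingHom.mapMatrix_apply, hφ, map_hess, ← hφ, hdeh]
        exact h
      · have h3 := h2 b
        rw [Ideal.mem_comap, hdeh] at h3
        exact h3

include K in
/-- The local module at a prime over which every point is regular or a nondegenerate quadratic
singularity of the fibre. -/
theorem locMod_of_nice (rep : S_REP) (lg : S_LG) (reg : S_REG) (mix : S_MIX)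
    (𝔭 : Ideal O) [𝔭.IsPrime] (h0 : 𝔭 ≠ ⊥) {n : ℕ} (G : MvPolynomial (Fin (n + 2)) O)
    (hG0 : G ≠ 0) (d : ℕ) (hGd : G.IsHomogeneous d) (hodp : Nice 𝔭 G)
    (c : O) (hc : c ≠ 0) (hcv : ∀ s, C c ∈ Ideal.span (insert (deh s G)
      (Set.range fun j => pderiv j (deh s G))))
    (x : Fin (n + 2) → F) (hx0 : x 0 = 1)
    (hgen : IntermediateField.adjoin K (Set.range x) = ⊤)
    (b : Fin n → F) (htb : IsTranscendenceBasis K b)
    (x' : Fin (n + 2) → F) (u u' : Fin (n + 2) → Fin (n + 2) → K)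
    (hu : ∀ i, x i = ∑ j, algebraMap K F (u i j) * x' j)
    (hu' : ∀ i, x' i = ∑ j, algebraMap K F (u' i j) * x j) (hrel : aeval x' G = 0) :
    LocMod 𝔭 x := by
  refine locMod_lin (K := K) 𝔭 h0 x x' ?_ ?_ ?_
  · intro i
    rw [hu']
    refine Submodule.sum_mem _ fun j _ => ?_
    rw [← Algebra.smul_def]
    exact Submodule.smul_mem _ _ (Submodule.subset_span ⟨j, rfl⟩)
  · intro i
    rw [hu]
    refine Submodule.sum_mem _ fun j _ => ?_
    rw [← Algebra.smul_def]
    exact Submodule.smul_mem _ _ (Submodule.subset_span ⟨j, rfl⟩)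
  have h1𝔭 : (1 : O) ∉ 𝔭 := (Ideal.ne_top_iff_one 𝔭).1 Ideal.IsPrime.ne_top'
  let R := Localization.subalgebra.ofField K 𝔭.primeCompl 𝔭.primeCompl_le_nonZeroDivisors
  have : IsLocalization.AtPrime R 𝔭 := Localization.subalgebra.isLocalization_ofField K _ _
  have : IsFractionRing R K := Localization.subalgebra.isFractionRing_ofField K _ _
  have : IsDiscreteValuationRing R :=
    IsLocalization.AtPrime.isDiscreteValuationRing_of_dedekind_domain O h0 R
  have hinjOR : Function.Injective (algebraMap O R) :=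
    IsLocalization.injective R 𝔭.primeCompl_le_nonZeroDivisors
  obtain ⟨π, hπ⟩ := IsDiscreteValuationRing.exists_irreducible R
  obtain ⟨⟨ϖ, s₀⟩, hs₀⟩ := IsLocalization.surj 𝔭.primeCompl π
  have hϖ : Irreducible (algebraMap O R ϖ) := by
    have h1 : IsUnit (algebraMap O R s₀) := IsLocalization.map_units R s₀
    rw [← hs₀]
    exact (irreducible_mul_isUnit h1).2 hπ
  have hc' : algebraMap O R c ≠ 0 := fun h => hc (hinjOR (by rw [h, map_zero]))
  obtain ⟨v, w, hw⟩ := IsDiscreteValuationRing.eq_unit_mul_pow_irreducible hc' hϖ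
  have hv : ∀ s, C (algebraMap O R ϖ) ^ v ∈ Ideal.span (insert (deh s (map (algebraMap O R) G))
      (Set.range fun j => pderiv j (deh s (map (algebraMap O R) G)))) := by
    intro s
    have h1 : C (algebraMap O R c) ∈ Ideal.span (insert (deh s (map (algebraMap O R) G))
      (Set.range fun j => pderiv j (deh s (map (algebraMap O R) G)))) := by
      have h2 := Ideal.mem_map_of_mem (map (algebraMap O R) :
        MvPolynomial {j // j ≠ s} O →+* MvPolynomial {j // j ≠ s} R) (hcv s)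
      rw [map_C, Ideal.map_span, Set.image_insert_eq, map_deh, ← Set.range_comp] at h2
      convert h2 using 4
      funext j
      simp only [Function.comp]
      rw [← pderiv_map, map_deh]
    have h3 : (C (algebraMap O R ϖ) ^ v : MvPolynomial {j // j ≠ s} R) =
        C ((w⁻¹ : Rˣ) : R) * C (algebraMap O R c) := by
      rw [hw, ← C_mul, ← C_pow, ← mul_assoc, Units.inv_mul, one_mul]
    rw [h3]
    exact Ideal.mul_mem_left _ _ h1
  obtain ⟨e₂, B, hB, hmix⟩ := mix 𝔭 ‹_› h0 G d hGd hodp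
  let T : B → MvPolynomial (Fin (n + 2)) O := fun b => b
  have hT : ∀ b, (T b).IsHomogeneous e₂ := fun b => hB b b.2
  set m := v + 1 with hm
  set e₁ := d - 1 with he₁
  set E := e₁ + m * e₂ with hE
  set ξ : Fin (n + 2) → F := fun i => aeval x' (pderiv i G) with hξ
  set τ : B → F := fun b => aeval x' (T b) with hτ
  have hξm : ∀ i, ξ i ∈ Submodule.span O (Set.range x' ^ e₁) := fun i =>
    aeval_mem_span_pow x' e₁ _ hGd.pderiv
  have hτm : ∀ i, τ i ∈ Submodule.span O (Set.range x' ^ e₂) := fun i =>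
    aeval_mem_span_pow x' e₂ _ (hT i)
  refine ⟨m * E + 1, fun D hD => ?_⟩
  obtain ⟨D', hDD'⟩ : ∃ D', D = D' + m * E := ⟨D - m * E, by omega⟩
  have hD' : 1 ≤ D' := by omega
  subst hDD'
  set N := Submodule.span O (Set.range x' ^ (D' + m * E)) with hN
  set 𝒢 := GF x' D' (HM x' (algebraMap O F ϖ) ξ τ e₁ e₂ m) m with h𝒢
  set L := Submodule.span O 𝒢 with hL
  have hLN : L ≤ N := GF_subset x' ϖ ξ τ e₁ e₂ D' m hξm hτm m le_rfl
  let P : Submodule O F :=
    { carrier := {y | y ∈ N ∧ ∃ s : O, s ∉ 𝔭 ∧ s • y ∈ L}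
      zero_mem' := ⟨N.zero_mem, 1, h1𝔭, by rw [smul_zero]; exact L.zero_mem⟩
      add_mem' := by
        rintro y z ⟨hy, s, hs, hsy⟩ ⟨hz, t, ht, htz⟩
        refine ⟨N.add_mem hy hz, s * t, fun h => (Ideal.IsPrime.mem_or_mem ‹𝔭.IsPrime› h).elim
          hs ht, ?_⟩
        rw [smul_add]
        refine L.add_mem ?_ ?_
        · rw [mul_comm, mul_smul]
          exact L.smul_mem _ hsy
        · rw [mul_smul]
          exact L.smul_mem _ htz
      smul_mem' := by
        rintro r y ⟨hy, s, hs, hsy⟩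
        refine ⟨N.smul_mem r hy, s, hs, ?_⟩
        rw [smul_comm s r y]
        exact L.smul_mem _ hsy }
  refine ⟨P, ?_, ?_, ?_⟩
  · intro y hy
    exact ⟨1, h1𝔭, by rw [one_smul]; exact hy.1⟩
  · obtain ⟨K₀, hK₀⟩ := pow_smul_mem' x' ϖ ξ τ e₁ e₂ D' m m
    have hϖ0 : ϖ ^ K₀ ≠ 0 := by
      refine pow_ne_zero _ ?_
      rintro rfl
      rw [map_zero] at hϖ
      exact hϖ.ne_zero rfl
    obtain ⟨k, hk⟩ := exists_pow_dvd 𝔭 h0 (ϖ ^ K₀) hϖ0 0
    refine ⟨k, fun c hc y hy => ?_⟩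
    obtain ⟨s, hs, d', hd', hscd⟩ := hk c hc
    refine ⟨N.smul_mem _ hy, s, hs, ?_⟩
    rw [smul_smul, hscd, mul_comm, mul_smul]
    exact L.smul_mem _ (hK₀ y hy)
  · intro M hMP hPM
    refine regAt_of_nice rep lg reg 𝔭 G R hG0 d hGd T e₂ hT ?_ ϖ hϖ v m (by omega) hv x hx0
      hgen b htb x' u hu hrel D' hD' 𝒢 h𝒢 M ?_ ?_
    · intro s Q hQ hC hGQ hdQ
      rcases hmix s Q hQ hC hGQ hdQ with ⟨h1, b, hb, hbQ⟩ | ⟨h1, h2⟩
      · exact Or.inl ⟨h1, ⟨b, hb⟩, hbQ⟩
      · exact Or.inr ⟨h1, fun b => h2 b b.2⟩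
    · intro y hy
      exact (hMP hy).2
    · intro y hy
      exact hPM y ⟨hLN hy, 1, h1𝔭, by rw [one_smul]; exact hy⟩

end

end Pool.Agent.Helper21K9.OD
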