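import Pool.Agent.Helper21K9.OD.Stm

/-! [LG] Local generators of the prime of a nondegenerate critical point in the closed fibre. -/

set_option autoImplicit false

open MvPolynomial

namespace Pool.Agent.Helper21K9.OD

namespace LgL

open Pool.Agent.H918R2.Quad

theorem span_finset {C : Type} [CommRing C] (G : Finset C) {y : C}
    (h : y ∈ Ideal.span (G : Set C)) : ∃ b : G → C, ∑ g : G, b g * g = y := by
  have h1 : (G : Set C) = Set.range (Subtype.val : G → C) := by
    rw [Subtype.range_coe_subtype]
    rfl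
  rw [h1] at h
  exact Ideal.mem_span_range_iff_exists_fun.1 h

theorem pderiv_swap {R σ : Type} [CommRing R] (i j : σ) (f : MvPolynomial σ R) :
    pderiv i (pderiv j f) = pderiv j (pderiv i f) := by
  have h : ⁅(pderiv i : Derivation R (MvPolynomial σ R) (MvPolynomial σ R)),
      (pderiv j : Derivation R (MvPolynomial σ R) (MvPolynomial σ R))⁆ = 0 := by
    apply MvPolynomial.derivation_ext
    intro k
    classical
    simp only [Derivation.commutator_apply, Derivation.zero_apply, pderiv_X]
    by_cases h1 : k = i <;> by_cases h2 : k = j <;>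
      simp [Pi.single_apply, h1, h2] <;> split_ifs <;> simp
  have := congrArg (fun D => D f) h
  simp only [Derivation.commutator_apply, Derivation.zero_apply] at this
  exact sub_eq_zero.mp this

/-- the linear algebra: a factorisation of an invertible matrix -/
theorem card_le_of_mul {D σ G : Type} [CommRing D] [IsDomain D] [Fintype σ] [DecidableEq σ]
    [Fintype G] (M : Matrix σ σ D) (hM : M.det ≠ 0) (B : Matrix σ G D) (J : Matrix G σ D)
    (h : M = B * J) : Fintype.card σ ≤ Fintype.card G := by
  let K := FractionRing D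
  let φ : D →+* K := algebraMap D K
  have hinj : Function.Injective φ := IsFractionRing.injective D K
  have h1 : (φ.mapMatrix M).det ≠ 0 := by
    rw [← RingHom.map_det]
    exact (map_ne_zero_iff φ hinj).2 hM
  have h2 : IsUnit (φ.mapMatrix M) :=
    (Matrix.isUnit_iff_isUnit_det _).2 (isUnit_iff_ne_zero.2 h1)
  have h3 := Matrix.rank_of_isUnit _ h2
  rw [← h3]
  have h4 : φ.mapMatrix M = (B.map φ) * (J.map φ) := by
    rw [h, RingHom.mapMatrix_apply, Matrix.map_mul]
  rw [h4]
  exact (Matrix.rank_mul_le_left _ _).trans (Matrix.rank_le_card_width _)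

/-- the case of a field -/
theorem field_case {k σ : Type} [Field k] [Fintype σ] [DecidableEq σ] (f : MvPolynomial σ k)
    (P : Ideal (MvPolynomial σ k)) [P.IsPrime] (hy : ∀ j, pderiv j f ∈ P)
    (hdet : (hess f).det ∉ P) :
    P.IsMaximal ∧ P.height = (Fintype.card σ : ℕ) ∧
      ∀ z ∈ P, ∃ c, c ∉ P ∧ c * z ∈ Ideal.span (Set.range fun j => pderiv j f) := by
  classical
  obtain ⟨G, hG, hcard, hgen⟩ := exists_local_gens P
  have hdim : ringKrullDim (MvPolynomial σ k) = (Fintype.card σ : ℕ) := by
    rw [MvPolynomial.ringKrullDim_of_isNoetherianRing, ringKrullDim_eq_zero_of_field, zero_add,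
      Nat.card_eq_fintype_card]
  have hht : P.height ≤ (Fintype.card σ : ℕ) := by
    have h1 := Ideal.height_le_ringKrullDim_of_ne_top (I := P) Ideal.IsPrime.ne_top'
    rw [hdim] at h1
    exact_mod_cast h1
  -- the relations
  have hrel : ∀ i : σ, ∃ (c : MvPolynomial σ k) (b : G → MvPolynomial σ k), c ∉ P ∧
      c * pderiv i f = ∑ g : G, b g * g := by
    intro i
    obtain ⟨c, hc, hm⟩ := hgen _ (hy i)
    obtain ⟨b, hb⟩ := span_finset G hm
    exact ⟨c, b, hc, hb.symm⟩
  choose c b hc hb using hrel
  let D := MvPolynomial σ k ⧸ P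
  let π : MvPolynomial σ k →+* D := Ideal.Quotient.mk P
  have hπ : ∀ x, π x = 0 ↔ x ∈ P := fun x => Ideal.Quotient.eq_zero_iff_mem
  let Bm : Matrix σ G D := Matrix.of fun i g => π (b i g)
  let Jm : Matrix G σ D := Matrix.of fun g j => π (pderiv j (g : MvPolynomial σ k))
  have hfac : Matrix.diagonal (fun i => π (c i)) * (π.mapMatrix (hess f)) = Bm * Jm := by
    ext i j
    rw [Matrix.diagonal_mul, Matrix.mul_apply]
    simp only [RingHom.mapMatrix_apply, Matrix.map_apply, Bm, Jm, Matrix.of_apply, hess]
    have h1 := congrArg (fun x => π (pderiv j x)) (hb i)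
    simp only [map_sum, Derivation.leibniz, smul_eq_mul, map_add, map_mul] at h1
    have h2 : π (pderiv i f) = 0 := (hπ _).2 (hy i)
    have h3 : ∀ g : G, π (g : MvPolynomial σ k) = 0 := fun g => (hπ _).2 (hG g g.2)
    simp only [h2, h3, zero_mul, add_zero] at h1
    have h4 : pderiv i (pderiv j f) = pderiv j (pderiv i f) := pderiv_swap i j f
    rw [h4]
    exact h1
  have hdne : (Matrix.diagonal (fun i => π (c i)) * (π.mapMatrix (hess f))).det ≠ 0 := by
    rw [Matrix.det_mul, Matrix.det_diagonal]
    apply mul_ne_zero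
    · rw [Finset.prod_ne_zero_iff]
      intro i _
      rw [Ne, hπ]
      exact hc i
    · rw [← RingHom.map_det, Ne, hπ]
      exact hdet
  have hle1 := card_le_of_mul _ hdne Bm Jm hfac
  rw [Fintype.card_coe] at hle1
  have hheq : P.height = (Fintype.card σ : ℕ) := by
    apply le_antisymm hht
    exact le_trans (by exact_mod_cast hle1) hcard
  have hceq : G.card = Fintype.card σ := by
    apply le_antisymm _ hle1
    have := hcard.trans hht
    exact_mod_cast this
  have hmax : P.IsMaximal := by
    obtain ⟨M, hM, hPM⟩ := Ideal.exists_le_maximal P Ideal.IsPrime.ne_top'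
    rcases hPM.eq_or_lt with h | h
    · rw [h]; exact hM
    · exfalso
      have := hM.isPrime
      have h1 := Ideal.height_add_one_le_of_lt_of_isPrime h
      have h2 := Ideal.height_le_ringKrullDim_of_ne_top (I := M) hM.ne_top
      rw [hdim] at h2
      have h3 : M.height ≤ (Fintype.card σ : ℕ) := by exact_mod_cast h2
      rw [hheq] at h1
      have h4 := h1.trans h3
      have h5 : Fintype.card σ + 1 ≤ Fintype.card σ := by exact_mod_cast h4
      omega
  refine ⟨hmax, hheq, ?_⟩
  -- the square matrix
  have hcG : Fintype.card G = Fintype.card σ := by rw [Fintype.card_coe, hceq]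
  let e : G ≃ σ := Fintype.equivOfCardEq hcG
  let B' : Matrix σ σ (MvPolynomial σ k) := Matrix.of fun i j => b i (e.symm j)
  have hB' : B'.det ∉ P := by
    rw [← hπ, RingHom.map_det]
    intro h0
    have h1 : Bm * Jm = (π.mapMatrix B') * (Matrix.of fun j l => Jm (e.symm j) l) := by
      ext i l
      rw [Matrix.mul_apply, Matrix.mul_apply]
      exact Fintype.sum_equiv e _ _ fun g => by simp [B', Bm]
    rw [← hfac] at h1
    apply hdne
    rw [h1, Matrix.det_mul, h0, zero_mul]
  have hyspan : ∀ i, c i * pderiv i f ∈ Ideal.span (Set.range fun j => pderiv j f) := fun i =>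
    Ideal.mul_mem_left _ _ (Ideal.subset_span ⟨i, rfl⟩)
  have hg : ∀ g : G, B'.det * (g : MvPolynomial σ k) ∈
      Ideal.span (Set.range fun j => pderiv j f) := by
    intro g
    have h1 : B'.mulVec (fun j => ((e.symm j : G) : MvPolynomial σ k)) =
        fun i => c i * pderiv i f := by
      funext i
      rw [hb i]
      exact Fintype.sum_equiv e.symm _ _ fun j => rfl
    have h2 : B'.adjugate.mulVec (B'.mulVec (fun j => ((e.symm j : G) : MvPolynomial σ k))) =
        B'.det • (fun j => ((e.symm j : G) : MvPolynomial σ k)) := by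
      rw [Matrix.mulVec_mulVec, Matrix.adjugate_mul, Matrix.smul_mulVec, Matrix.one_mulVec]
    have h3 := congrFun h2 (e g)
    simp only [Pi.smul_apply, Equiv.symm_apply_apply, smul_eq_mul] at h3
    rw [← h3, h1]
    exact Ideal.sum_mem _ fun i _ => Ideal.mul_mem_left _ _ (hyspan i)
  intro z hz
  obtain ⟨d, hd, hm⟩ := hgen z hz
  refine ⟨B'.det * d, fun h => (Ideal.IsPrime.mem_or_mem inferInstance h).elim hB' hd, ?_⟩
  obtain ⟨a, ha⟩ := span_finset G hm
  rw [mul_assoc, ← ha, Finset.mul_sum]
  refine Ideal.sum_mem _ fun g _ => ?_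
  have : B'.det * (a g * (g : MvPolynomial σ k)) = a g * (B'.det * g) := by ring
  rw [this]
  exact Ideal.mul_mem_left _ _ (hg g)

end LgL

open LgL Pool.Agent.H918R2.Quad in
/-- [LG] -/
theorem lg : S_LG := by
  intro R σ _ _ _ _ _ ϖ hϖ f Q hQ hC hy hdet
  classical
  let k := IsLocalRing.ResidueField R
  let θ : MvPolynomial σ R →+* MvPolynomial σ k := MvPolynomial.map (IsLocalRing.residue R)
  have hθ : Function.Surjective θ := MvPolynomial.map_surjective _ IsLocalRing.residue_surjective
  have hker : RingHom.ker θ = Ideal.span {C ϖ} := by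
    rw [MvPolynomial.ker_map, IsLocalRing.ker_residue, hϖ.maximalIdeal_eq, Ideal.map_span,
      Set.image_singleton]
  have hϖQ : C ϖ ∈ Q := (hC ϖ).2 hϖ.not_isUnit
  have hkQ : RingHom.ker θ ≤ Q := by
    rw [hker, Ideal.span_singleton_le_iff_mem]
    exact hϖQ
  let P : Ideal (MvPolynomial σ k) := Q.map θ
  have hP : P.IsPrime := Ideal.map_isPrime_of_surjective hθ hkQ
  have hcomap : P.comap θ = Q := by
    rw [Ideal.comap_map_of_surjective θ hθ]
    exact sup_eq_left.2 (by
      intro x hx
      exact hkQ (by simpa using hx))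
  have hmem : ∀ x, θ x ∈ P ↔ x ∈ Q := by
    intro x
    rw [← Ideal.mem_comap, hcomap]
  have hpd : ∀ j (g : MvPolynomial σ R), pderiv j (θ g) = θ (pderiv j g) := by
    intro j g
    exact pderiv_map
  have hh : (hess (θ f)).det = θ (hess f).det := by
    rw [RingHom.map_det]
    congr 1
    ext i j
    simp only [hess, Matrix.of_apply, RingHom.mapMatrix_apply, Matrix.map_apply]
    rw [hpd, hpd]
  obtain ⟨h1, h2, h3⟩ := field_case (θ f) P (fun j => by rw [hpd, hmem]; exact hy j) (by
    rw [hh, hmem]
    exact hdet)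
  refine ⟨?_, ?_, ?_⟩
  · rw [← hcomap]
    exact Ideal.comap_isMaximal_of_surjective θ hθ
  · have h4 := height_comap_ge θ hθ (Fintype.card σ) P h2.ge
    rw [hcomap] at h4
    have h5 : (1 : ℕ∞) ≤ (RingHom.ker θ).height := by
      rw [Order.one_le_iff_ne_zero]
      intro h0
      have hkp : (RingHom.ker θ).IsPrime := RingHom.ker_isPrime θ
      rw [Ideal.height_eq_zero_iff_eq_bot, hker, Ideal.span_singleton_eq_bot] at h0
      rw [map_eq_zero_iff _ (C_injective σ R)] at h0
      exact hϖ.ne_zero h0
    refine le_trans ?_ h4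
    rw [Nat.cast_add, Nat.cast_one, add_comm]
    gcongr
  · intro z hz
    obtain ⟨c, hc, hm⟩ := h3 (θ z) ((hmem z).2 hz)
    obtain ⟨c, rfl⟩ := hθ c
    refine ⟨c, fun h => hc ((hmem c).2 h), ?_⟩
    have h4 : Ideal.span (Set.range fun j => pderiv j (θ f)) =
        (Ideal.span (Set.range fun j => pderiv j f)).map θ := by
      rw [Ideal.map_span, ← Set.range_comp]
      congr 2
      funext j
      exact hpd j f
    rw [← map_mul, h4, Ideal.mem_map_iff_of_surjective θ hθ] at hm
    obtain ⟨u, hu, hue⟩ := hm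
    have h5 : c * z - u ∈ RingHom.ker θ := by
      rw [RingHom.mem_ker, map_sub, hue, sub_self]
    rw [hker] at h5
    have h6 : c * z = (c * z - u) + u := by ring
    rw [h6]
    refine Ideal.add_mem _ (Ideal.span_mono ?_ h5) (Ideal.span_mono (Set.subset_insert _ _) hu)
    rw [Set.singleton_subset_iff]
    exact Set.mem_insert _ _

end Pool.Agent.Helper21K9.OD
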