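import Pool.Agent.TH214.RM.Good
import Pool.Agent.Helper21K9.OD.Stm

/-! Local subrings: finite sums, and the chart at a point outside the critical points. -/

set_option autoImplicit false
set_option linter.unusedSectionVars false
set_option linter.unusedVariables false

open MvPolynomial
open scoped Pointwise

namespace Pool.Agent.Helper21K9.OD

open Pool.Agent.H918R2.Quad Pool.Agent.TH214.RM

section

variable {F : Type} [Field F] {𝒪 : Subring F}

theorem sum_nonunit (hloc : IsLoc 𝒪) {ι : Type} (s : Finset ι) (a : ι → F)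
    (ha : ∀ i ∈ s, a i ∈ 𝒪) (h : U 𝒪 (∑ i ∈ s, a i)) : ∃ i ∈ s, U 𝒪 (a i) := by
  classical
  induction s using Finset.induction_on with
  | empty => rw [Finset.sum_empty] at h; exact absurd h not_U_zero
  | insert i s hi ih =>
    rw [Finset.sum_insert hi] at h
    rcases hloc _ _ (ha i (Finset.mem_insert_self _ _)) (Subring.sum_mem _ fun j hj =>
      ha j (Finset.mem_insert_of_mem hj)) h with h | h
    · exact ⟨i, Finset.mem_insert_self _ _, h⟩
    · obtain ⟨j, hj, hU⟩ := ih (fun j hj => ha j (Finset.mem_insert_of_mem hj)) h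
      exact ⟨j, Finset.mem_insert_of_mem hj, hU⟩

theorem prod_unit {ι : Type} (s : Finset ι) (a : ι → F) (ha : ∀ i ∈ s, U 𝒪 (a i)) :
    U 𝒪 (∏ i ∈ s, a i) := by
  classical
  induction s using Finset.induction_on with
  | empty => simpa using U_one
  | insert i s hi ih =>
    rw [Finset.prod_insert hi]
    exact (ha i (Finset.mem_insert_self _ _)).mul (ih fun j hj => ha j (Finset.mem_insert_of_mem hj))

end

section

variable {R F σ : Type} [CommRing R] [IsDomain R] [IsDiscreteValuationRing R] [Field F]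
  [Algebra R F] [Fintype σ] [DecidableEq σ]

theorem aeval_mem (𝒪 : Subring F) (hR : ∀ r : R, algebraMap R F r ∈ 𝒪) (t : σ → F)
    (ht : ∀ j, t j ∈ 𝒪) (b : MvPolynomial σ R) : aeval t b ∈ 𝒪 := by
  induction b using MvPolynomial.induction_on with
  | C r => rw [aeval_C]; exact hR r
  | add p q hp hq => rw [map_add]; exact 𝒪.add_mem hp hq
  | mul_X p j hp => rw [map_mul, aeval_X]; exact 𝒪.mul_mem hp (ht _)

/-- Points outside the critical points of the closed fibre. -/
theorem core_noncrit (𝒪 : Subring F) (hloc : IsLoc 𝒪)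
    (hR : ∀ r : R, algebraMap R F r ∈ 𝒪)
    (t : σ → F) (ht : ∀ j, t j ∈ 𝒪) (E : MvPolynomial σ R) (hE0 : E ≠ 0) (hEt : aeval t E = 0)
    (j₀ : σ) (hj₀ : AlgebraicIndependent R (fun j : {j // j ≠ j₀} => t j))
    (j₁ : σ) (hj₁ : U 𝒪 (aeval t (pderiv j₁ E)))
    (𝒢 : Set F) (g : F) (X₀ : F) (hX : X₀ ≠ 0)
    (hgen : ∀ h ∈ 𝒢, ∃ a : MvPolynomial σ R, h = X₀ * aeval t a)
    (hg : g ∈ Submodule.span R 𝒢) (hU : U 𝒪 (g / X₀))
    (hloc2 : IsLocOf 𝒪 (chart R (Submodule.span R 𝒢) g)) : IsRegularLocalRing 𝒪 := by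
  let eW : MvPolynomial σ R →ₐ[R] F := aeval t
  have heW : ∀ w, eW w ∈ 𝒪 := aeval_mem 𝒪 hR t ht
  let I : Ideal (MvPolynomial σ R) := Ideal.span {E}
  have hI : ∀ w ∈ I, eW w = 0 := by
    intro w hw
    obtain ⟨c, rfl⟩ := Ideal.mem_span_singleton.1 hw
    change aeval t (E * c) = 0
    rw [map_mul, hEt, zero_mul]
  have hfrac := frac_of_chart eW heW 𝒢 g X₀ hX hgen hg hU hloc2
  obtain ⟨A, _, _, pr, hpr, hprk, hpr0⟩ := exists_quot (R := R) I
  have haev : ∀ p : MvPolynomial σ R, aeval (fun j : σ => (X j : MvPolynomial σ R)) p = p := by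
    intro p
    rw [aeval_X_left_apply]
  refine regular_of_pres 𝒪 hloc pr hpr eW ?_ heW hfrac ?_ (fun j : σ => X j) E hE0 ?_ j₀ ?_ ?_
  · intro w hw
    exact hI w ((hpr0 w).1 hw)
  · intro q hq hqm
    refine regular_of_pderiv E (pr : _ →+* A) hpr hprk q j₁ ?_
    intro h
    exact (hqm _).1 h hj₁
  · rw [haev, hpr0]
    exact Ideal.mem_span_singleton_self _
  · convert hj₀ using 2 with j
    exact aeval_X _ _
  · intro w
    refine ⟨w, 1, by simp, ?_⟩
    rw [haev 1, one_mul, haev]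

end

end Pool.Agent.Helper21K9.OD
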