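import Pool.Agent.Helper21K9.OD.Loc1

/-! The chart of the blow-up at a nondegenerate critical point. -/

set_option autoImplicit false
set_option linter.unusedSectionVars false
set_option linter.unusedVariables false

open MvPolynomial
open scoped Pointwise

namespace Pool.Agent.Helper21K9.OD

open Pool.Agent.H918R2.Quad Pool.Agent.TH214.RM

section

variable {F σ : Type} [Field F] {𝒪 : Subring F} [Fintype σ]

/-- The last scale dividing the derivatives. -/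
theorem exists_scale (p : F) (y : σ → F) (m : ℕ) (hy : ∀ l, y l ∈ 𝒪)
    (hm : ¬ ∀ l, y l / p ^ m ∈ 𝒪) :
    ∃ s, s < m ∧ (∀ l, y l / p ^ s ∈ 𝒪) ∧ ¬ ∀ l, y l / p ^ (s + 1) ∈ 𝒪 := by
  by_contra hcon
  push Not at hcon
  have key : ∀ j, j ≤ m → ∀ l, y l / p ^ j ∈ 𝒪 := by
    intro j
    induction j with
    | zero => intro _ l; simpa using hy l
    | succ j ih => intro hj; exact hcon j (by omega) (ih (by omega))
  exact hm (key m le_rfl)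

/-- The minimal derivative. -/
theorem exists_min (hloc : IsLoc 𝒪) (p : F) (hp : p ≠ 0) (y : σ → F) (m s : ℕ) (hs : s < m)
    (hs2 : ¬ ∀ l, y l / p ^ (s + 1) ∈ 𝒪)
    (θ : ℕ → F) (hθ0 : ∀ j ∈ Finset.Icc 1 m, θ j ≠ 0)
    (hF1 : ∀ j ∈ Finset.Icc 1 m, p ^ j / θ j ∈ 𝒪)
    (hF2 : ∀ j ∈ Finset.Icc 1 m, ∀ i, y i / θ j ∈ 𝒪)
    (hF3 : ∀ j ∈ Finset.Icc 1 m, ∃ (a : F) (b : σ → F), a ∈ 𝒪 ∧ (∀ i, b i ∈ 𝒪) ∧
      θ j = a * p ^ j + ∑ i, b i * y i) :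
    ∃ i, y i ≠ 0 ∧ (∀ l, y l / y i ∈ 𝒪) ∧ p ^ (s + 1) / y i ∈ 𝒪 := by
  have hj : s + 1 ∈ Finset.Icc 1 m := by rw [Finset.mem_Icc]; omega
  obtain ⟨a, b, ha, hb, hθ⟩ := hF3 _ hj
  have h0 := hθ0 _ hj
  have h1 : U 𝒪 (a * (p ^ (s + 1) / θ (s + 1)) + ∑ i, b i * (y i / θ (s + 1))) := by
    have h2 : a * (p ^ (s + 1) / θ (s + 1)) + ∑ i, b i * (y i / θ (s + 1)) = 1 := by
      have h3 : a * (p ^ (s + 1) / θ (s + 1)) + ∑ i, b i * (y i / θ (s + 1)) =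
          (a * p ^ (s + 1) + ∑ i, b i * y i) / θ (s + 1) := by
        rw [add_div, Finset.sum_div, mul_div_assoc]
        simp only [mul_div_assoc]
      rw [h3, ← hθ, div_self h0]
    rw [h2]
    exact U_one
  rcases hloc _ _ (𝒪.mul_mem ha (hF1 _ hj)) (Subring.sum_mem _ fun i _ =>
    𝒪.mul_mem (hb i) (hF2 _ hj i)) h1 with h | h
  · exfalso
    apply hs2
    intro l
    have h2 := h.of_mul_right ha (hF1 _ hj)
    have h3 : y l / p ^ (s + 1) = (y l / θ (s + 1)) * (p ^ (s + 1) / θ (s + 1))⁻¹ := by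
      have := pow_ne_zero (s + 1) hp
      field_simp
    rw [h3]
    exact 𝒪.mul_mem (hF2 _ hj l) h2.2.2
  · obtain ⟨i, _, hi⟩ := sum_nonunit hloc Finset.univ _ (fun i _ =>
      𝒪.mul_mem (hb i) (hF2 _ hj i)) h
    have h2 := hi.of_mul_right (hb i) (hF2 _ hj i)
    have hy0 : y i ≠ 0 := by
      intro h3
      rw [h3, zero_div] at h2
      exact not_U_zero h2
    refine ⟨i, hy0, ?_, ?_⟩
    · intro l
      have h3 : y l / y i = (y l / θ (s + 1)) * (y i / θ (s + 1))⁻¹ := by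
        field_simp
      rw [h3]
      exact 𝒪.mul_mem (hF2 _ hj l) h2.2.2
    · have h3 : p ^ (s + 1) / y i = (p ^ (s + 1) / θ (s + 1)) * (y i / θ (s + 1))⁻¹ := by
        field_simp
      rw [h3]
      exact 𝒪.mul_mem (hF1 _ hj) h2.2.2

/-- The values of the local generators up to units. -/
theorem unit_ratio (p : F) (hp : p ≠ 0) (hpO : p ∈ 𝒪) (y : σ → F) (m s : ℕ)
    (hs1 : ∀ l, y l / p ^ s ∈ 𝒪) (i : σ) (hi0 : y i ≠ 0) (hi1 : ∀ l, y l / y i ∈ 𝒪)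
    (hi2 : p ^ (s + 1) / y i ∈ 𝒪)
    (θ : ℕ → F) (hθ0 : ∀ j ∈ Finset.Icc 1 m, θ j ≠ 0)
    (hF1 : ∀ j ∈ Finset.Icc 1 m, p ^ j / θ j ∈ 𝒪)
    (hF2 : ∀ j ∈ Finset.Icc 1 m, ∀ i, y i / θ j ∈ 𝒪)
    (hF3 : ∀ j ∈ Finset.Icc 1 m, ∃ (a : F) (b : σ → F), a ∈ 𝒪 ∧ (∀ i, b i ∈ 𝒪) ∧
      θ j = a * p ^ j + ∑ i, b i * y i) (j : ℕ) (hj : j ∈ Finset.Icc 1 m) :
    U 𝒪 (θ j / if j ≤ s then p ^ j else y i) := by
  obtain ⟨a, b, ha, hb, hθ⟩ := hF3 _ hj
  have h0 := hθ0 _ hj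
  split_ifs with hjs
  · refine ⟨div_ne_zero h0 (pow_ne_zero _ hp), ?_, ?_⟩
    · rw [hθ, add_div, mul_div_assoc, div_self (pow_ne_zero _ hp), mul_one, Finset.sum_div]
      refine 𝒪.add_mem ha (Subring.sum_mem _ fun l _ => ?_)
      have h1 : b l * y l / p ^ j = b l * ((y l / p ^ s) * p ^ (s - j)) := by
        have h2 : p ^ s = p ^ j * p ^ (s - j) := by rw [← pow_add]; congr 1; omega
        rw [h2]
        have := pow_ne_zero j hp
        have := pow_ne_zero (s - j) hp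
        field_simp
      rw [h1]
      exact 𝒪.mul_mem (hb l) (𝒪.mul_mem (hs1 l) (𝒪.pow_mem hpO _))
    · rw [inv_div]
      exact hF1 _ hj
  · refine ⟨div_ne_zero h0 hi0, ?_, ?_⟩
    · rw [hθ, add_div, Finset.sum_div]
      refine 𝒪.add_mem ?_ (Subring.sum_mem _ fun l _ => ?_)
      · have h1 : a * p ^ j / y i = a * (p ^ (j - (s + 1)) * (p ^ (s + 1) / y i)) := by
          have h2 : p ^ j = p ^ (j - (s + 1)) * p ^ (s + 1) := by rw [← pow_add]; congr 1; omega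
          rw [h2]
          ring
        rw [h1]
        exact 𝒪.mul_mem ha (𝒪.mul_mem (𝒪.pow_mem hpO _) hi2)
      · rw [mul_div_assoc]
        exact 𝒪.mul_mem (hb l) (hi1 l)
    · rw [inv_div]
      exact hF2 _ hj i

/-- The normal form has order less than `2 m` and at least `2 s`. -/
theorem order_bound (p γ q u : F) (hp : p ≠ 0) (hpO : p ∈ 𝒪) (hpU : ¬ U 𝒪 p) (hγ : U 𝒪 γ)
    (hq : q ∈ 𝒪) (hu : u ∈ 𝒪) (k s : ℕ) (h : p ^ k * γ + p ^ (2 * s) * u ^ 2 * q = 0) :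
    2 * s ≤ k := by
  by_contra hcon
  push Not at hcon
  have h1 : p ^ (2 * s) = p ^ k * (p * p ^ (2 * s - k - 1)) := by
    rw [← pow_succ', ← pow_add]; congr 1; omega
  rw [h1] at h
  have h2 : p ^ k * (γ + p * (p ^ (2 * s - k - 1) * u ^ 2 * q)) = 0 := by
    rw [← h]; ring
  have h3 : γ = p * (-(p ^ (2 * s - k - 1) * u ^ 2 * q)) := by
    have h4 := (mul_eq_zero.1 h2).resolve_left (pow_ne_zero _ hp)
    linear_combination h4
  rw [h3] at hγ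
  exact hpU (hγ.of_mul_left hpO (𝒪.neg_mem (𝒪.mul_mem (𝒪.mul_mem (𝒪.pow_mem hpO _)
    (𝒪.pow_mem hu _)) hq)))

end

end Pool.Agent.Helper21K9.OD
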