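import Pool.Agent.Helper21K9.OD.Loc2

/-! The presentation of the chart of the blow-up. -/

set_option autoImplicit false
set_option linter.unusedSectionVars false
set_option linter.unusedVariables false

open MvPolynomial
open scoped Pointwise

namespace Pool.Agent.Helper21K9.OD

open Pool.Agent.H918R2.Quad Pool.Agent.TH214.RM

/-- The evaluation of the polynomial ring over `B` extending `eB`. -/
noncomputable def ext {R B F τ : Type} [CommRing R] [CommRing B] [Algebra R B] [CommRing F]
    [Algebra R F] (eB : B →ₐ[R] F) (z : τ → F) : MvPolynomial τ B →ₐ[R] F :=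
  { eval₂Hom (eB : B →+* F) z with
    commutes' := fun r => by
      change eval₂Hom (eB : B →+* F) z (algebraMap R (MvPolynomial τ B) r) = _
      rw [IsScalarTower.algebraMap_apply R B (MvPolynomial τ B), MvPolynomial.algebraMap_eq,
        eval₂Hom_C]
      exact eB.commutes r }

section

variable {R B F τ : Type} [CommRing R] [CommRing B] [Algebra R B] [CommRing F]
    [Algebra R F] (eB : B →ₐ[R] F) (z : τ → F)

theorem ext_C (b : B) : ext eB z (C b) = eB b := eval₂Hom_C _ _ b

theorem ext_X (v : τ) : ext eB z (X v) = z v := eval₂Hom_X' _ _ v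

end

section

variable {R B F σ : Type} [CommRing R] [CommRing B] [Algebra R B] [Field F] [Algebra R F]
  [Fintype σ] [DecidableEq σ] (eB : B →ₐ[R] F)

/-- The values of the variables of the chart `i`. -/
noncomputable def zval (p : F) (y : σ → F) (s : ℕ) (i : σ) : Option σ → F
  | none => p ^ (s + 1) / y i
  | some l => if l = i then y i / p ^ s else y l / y i

theorem zz_val (p : F) (y : σ → F) (s : ℕ) (i : σ) (hi : y i ≠ 0) (l : σ) :
    ext eB (zval p y s i) (zz i l) = y l / y i := by
  unfold zz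
  split_ifs with h
  · subst h
    rw [map_one, div_self hi]
  · rw [ext_X]
    simp [zval, h]

theorem qq_val (p : F) (y : σ → F) (s : ℕ) (i : σ) (hi : y i ≠ 0) (h : σ → σ → B) :
    ext eB (zval p y s i) (qq h i) = ∑ a, ∑ b, eB (h a b) * (y a / y i) * (y b / y i) := by
  unfold qq
  rw [map_sum]
  refine Finset.sum_congr rfl fun a _ => ?_
  rw [map_sum]
  refine Finset.sum_congr rfl fun b _ => ?_
  rw [map_mul, map_mul, ext_C, zz_val eB p y s i hi, zz_val eB p y s i hi]

theorem rel_val (π : B) (y : σ → B) (s : ℕ) (i : σ) (hp : eB π ≠ 0) (hi : eB (y i) ≠ 0)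
    (v : Option σ) : ext eB (zval (eB π) (fun l => eB (y l)) s i) (rel π y s i v) = 0 := by
  cases v with
  | none =>
    simp only [rel, map_sub, map_mul, ext_C, ext_X, zval, if_true]
    field_simp
    ring
  | some l =>
    simp only [rel, map_sub, map_mul, map_pow, ext_C, ext_X]
    rw [zz_val eB (eB π) (fun l => eB (y l)) s i hi]
    simp only [zval, if_true]
    field_simp
    ring

theorem eqn_val (π γ : B) (y : σ → B) (h : σ → σ → B) (s k : ℕ) (hk : 2 * s ≤ k) (i : σ)
    (hp : eB π ≠ 0) (hi : eB (y i) ≠ 0)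
    (hE : eB π ^ k * eB γ + ∑ a, ∑ b, eB (h a b) * eB (y a) * eB (y b) = 0) :
    ext eB (zval (eB π) (fun l => eB (y l)) s i) (eqn π γ h s k i) = 0 := by
  set p := eB π
  set q := ∑ a, ∑ b, eB (h a b) * (eB (y a) / eB (y i)) * (eB (y b) / eB (y i)) with hq
  have h1 : ∑ a, ∑ b, eB (h a b) * eB (y a) * eB (y b) = eB (y i) ^ 2 * q := by
    rw [hq, Finset.mul_sum]
    refine Finset.sum_congr rfl fun a _ => ?_
    rw [Finset.mul_sum]
    refine Finset.sum_congr rfl fun b _ => ?_
    field_simp
  rw [h1] at hE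
  have hqv := qq_val eB p (fun l => eB (y l)) s i hi h
  have hps : p ^ s ≠ 0 := pow_ne_zero _ hp
  set u := eB (y i) / p ^ s with hu
  have hyu : eB (y i) = p ^ s * u := by rw [hu]; field_simp
  have hu0 : u ≠ 0 := div_ne_zero hi hps
  set w := p ^ (s + 1) / eB (y i) with hw
  have huw : p = u * w := by rw [hu, hw]; field_simp; ring
  rw [hyu] at hE
  unfold eqn
  split_ifs with c1 c2
  · simp only [map_add, map_mul, map_pow, ext_C, ext_X, hqv, ← hq]
    simp only [zval, if_true]
    rw [← hu]
    have h2 : p ^ (2 * s) * (eB γ + u ^ 2 * q) = 0 := by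
      rw [← hE, c1]; ring
    exact (mul_eq_zero.1 h2).resolve_left (pow_ne_zero _ hp)
  · simp only [map_add, map_mul, map_pow, ext_C, ext_X, hqv, ← hq]
    simp only [zval, if_true]
    rw [← hu, ← hw]
    have h2 : (p ^ (2 * s) * u) * (w * eB γ + u * q) = 0 := by
      rw [← hE, c2, pow_succ]
      nth_rewrite 3 [huw]
      ring
    exact (mul_eq_zero.1 h2).resolve_left (mul_ne_zero (pow_ne_zero _ hp) hu0)
  · simp only [map_add, map_mul, map_pow, ext_C, ext_X, hqv, ← hq]
    simp only [zval, if_true]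
    rw [← hw]
    have h3 : p ^ k = p ^ (2 * s) * ((u * w) ^ 2 * p ^ (k - 2 * s - 2)) := by
      rw [← huw, ← pow_add, ← pow_add]; congr 1; omega
    have h2 : (p ^ (2 * s) * u ^ 2) * (w ^ 2 * p ^ (k - 2 * s - 2) * eB γ + q) = 0 := by
      rw [← hE, h3]
      ring
    exact (mul_eq_zero.1 h2).resolve_left (mul_ne_zero (pow_ne_zero _ hp) (pow_ne_zero _ hu0))

end

section

variable {B A σ : Type} [CommRing B] [CommRing A] [Fintype σ] [DecidableEq σ]

/-- The relations in the quotient. -/
theorem quot_rel (pr : MvPolynomial (Option σ) B →+* A) (π γ : B) (y : σ → B) (h : σ → σ → B)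
    (s k : ℕ) (hk : 2 * s ≤ k) (i : σ)
    (hker : RingHom.ker pr = Ideal.span (insert (eqn π γ h s k i) (Set.range (rel π y s i)))) :
    pr (C π) = pr (X (some i)) * pr (X none) ∧
    (∀ l, pr (C (y l)) = pr (C π) ^ s * pr (X (some i)) * pr (zz i l)) ∧
    pr (C π) ^ k * pr (C γ) + ∑ a, ∑ b, pr (C (h a b)) * pr (C (y a)) * pr (C (y b)) = 0 := by
  have hrel : ∀ v, pr (rel π y s i v) = 0 := by
    intro v
    rw [← RingHom.mem_ker, hker]
    exact Ideal.subset_span (Set.mem_insert_of_mem _ ⟨v, rfl⟩)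
  have heqn : pr (eqn π γ h s k i) = 0 := by
    rw [← RingHom.mem_ker, hker]
    exact Ideal.subset_span (Set.mem_insert _ _)
  have h1 : pr (C π) = pr (X (some i)) * pr (X none) := by
    have := hrel none
    rw [rel, map_sub, map_mul, sub_eq_zero] at this
    exact this
  have h2 : ∀ l, pr (C (y l)) = pr (C π) ^ s * pr (X (some i)) * pr (zz i l) := by
    intro l
    have := hrel (some l)
    rw [rel, map_sub, map_mul, map_mul, map_pow, sub_eq_zero] at this
    exact this
  refine ⟨h1, h2, ?_⟩
  have h3 : ∑ a, ∑ b, pr (C (h a b)) * pr (C (y a)) * pr (C (y b)) =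
      pr (C π) ^ (2 * s) * pr (X (some i)) ^ 2 * pr (qq h i) := by
    unfold qq
    rw [map_sum, Finset.mul_sum]
    refine Finset.sum_congr rfl fun a _ => ?_
    rw [map_sum, Finset.mul_sum]
    refine Finset.sum_congr rfl fun b _ => ?_
    rw [h2 a, h2 b, map_mul, map_mul]
    ring
  rw [h3]
  set P := pr (C π)
  set u := pr (X (some i))
  set w := pr (X none)
  unfold eqn at heqn
  split_ifs at heqn with c1 c2
  · simp only [map_add, map_mul, map_pow] at heqn
    rw [c1]
    linear_combination P ^ (2 * s) * heqn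
  · simp only [map_add, map_mul, map_pow] at heqn
    rw [c2, pow_succ]
    linear_combination (P ^ (2 * s) * u) * heqn + P ^ (2 * s) * pr (C γ) * h1
  · simp only [map_add, map_mul, map_pow] at heqn
    have h4 : P ^ k = P ^ (2 * s) * ((u * w) ^ 2 * P ^ (k - 2 * s - 2)) := by
      rw [← h1, ← pow_add, ← pow_add]; congr 1; omega
    rw [h4]
    linear_combination (P ^ (2 * s) * u ^ 2) * heqn

/-- Every element of the quotient is a fraction of elements of `B`. -/
theorem quot_frac (pr : MvPolynomial (Option σ) B →+* A) (π : B) (y : σ → B)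
    (s : ℕ) (i : σ) (h1 : pr (C π) = pr (X (some i)) * pr (X none))
    (h2 : ∀ l, pr (C (y l)) = pr (C π) ^ s * pr (X (some i)) * pr (zz i l))
    (w : MvPolynomial (Option σ) B) :
    ∃ (N : ℕ) (p : B), pr (C ((π * y i) ^ N) * w) = pr (C p) := by
  have hi : pr (C (y i)) = pr (C π) ^ s * pr (X (some i)) := by
    rw [h2 i, zz, if_pos rfl, map_one, mul_one]
  have hv : ∀ v : Option σ, ∃ (N : ℕ) (p : B), pr (C ((π * y i) ^ N) * X v) = pr (C p) := by
    intro v
    cases v with
    | none =>
      refine ⟨1, π ^ (s + 2), ?_⟩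
      rw [map_mul, pow_one, C_mul, map_mul, hi, C_pow, map_pow]
      have h3 : pr (C π) * (pr (C π) ^ s * pr (X (some i))) * pr (X none) =
          pr (C π) ^ (s + 1) * (pr (X (some i)) * pr (X none)) := by ring
      rw [h3, ← h1, ← pow_succ]
    | some l =>
      by_cases hl : l = i
      · subst hl
        refine ⟨s, y l ^ (s + 1), ?_⟩
        rw [map_mul, mul_pow, C_mul, map_mul, C_pow, C_pow, C_pow, map_pow, map_pow, map_pow,
          mul_assoc, mul_comm (pr (C (y l)) ^ s), ← mul_assoc, ← hi, pow_succ, mul_comm]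
      · refine ⟨1, π * y l, ?_⟩
        rw [map_mul, pow_one, C_mul, map_mul, hi, C_mul, map_mul, h2 l, zz, if_neg hl]
        ring
  induction w using MvPolynomial.induction_on with
  | C b => exact ⟨0, b, by rw [pow_zero, C_1, one_mul]⟩
  | add p q hp hq =>
    obtain ⟨N, p', hp'⟩ := hp
    obtain ⟨M, q', hq'⟩ := hq
    refine ⟨N + M, (π * y i) ^ M * p' + (π * y i) ^ N * q', ?_⟩
    rw [map_add (C : B →+* MvPolynomial (Option σ) B), map_add, C_mul, C_mul,
      map_mul pr _ (C p'), map_mul pr _ (C q'), ← hp', ← hq', pow_add, C_mul]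
    simp only [map_mul, map_add]
    ring
  | mul_X p v hp =>
    obtain ⟨N, p', hp'⟩ := hp
    obtain ⟨M, q', hq'⟩ := hv v
    refine ⟨N + M, p' * q', ?_⟩
    rw [C_mul, map_mul pr (C p') (C q'), ← hp', ← hq', pow_add, C_mul]
    simp only [map_mul]
    ring

end

end Pool.Agent.Helper21K9.OD
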