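import Pool.Agent.TH214.RM.ChartC
import Pool.Agent.Helper21K9.OD.Lg
import Pool.Agent.Helper21K9.OD.MixStm

/-! Forms of one degree which cut out the nonregular points among the critical points. -/

set_option autoImplicit false
set_option linter.style.haveILetI false

namespace Pool.Agent.Helper21K9.OD

open MvPolynomial Pool.Agent.TH214.RM Pool.Agent.H918R2.Quad

namespace MixL

variable {O ι : Type} [CommRing O] [DecidableEq ι]

/-- `b` is a form of positive degree which vanishes at the point `m` of the chart `s`. -/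
def Hs (s : ι) (m : Ideal (MvPolynomial {j : ι // j ≠ s} O)) : Set (MvPolynomial ι O) :=
  {b | ∃ e, 1 ≤ e ∧ b.IsHomogeneous e ∧ deh s b ∈ m}

theorem deh_C (s : ι) (a : O) : deh s (C a : MvPolynomial ι O) = C a := by
  simp [deh]

/-- two ideals of a chart with the same forms are equal -/
theorem eq_of_hom (t : ι) (Q₁ Q₂ : Ideal (MvPolynomial {j : ι // j ≠ t} O))
    (h : ∀ (P : MvPolynomial ι O) (N : ℕ), P.IsHomogeneous N → (deh t P ∈ Q₁ ↔ deh t P ∈ Q₂)) :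
    Q₁ = Q₂ := by
  ext f
  obtain ⟨N, P, hP, rfl⟩ := exists_homog t f
  exact h P N hP

/-- the homogenization of a polynomial in `X j / X s` -/
noncomputable def hmg (s t : ι) (p : Polynomial O) : MvPolynomial ι O :=
  ∑ i ∈ Finset.range (p.natDegree + 1), C (p.coeff i) * X t ^ i * X s ^ (p.natDegree - i)

omit [DecidableEq ι] in
theorem hm_hom (s t : ι) (p : Polynomial O) : (hmg s t p).IsHomogeneous p.natDegree := by
  refine IsHomogeneous.sum _ _ _ fun i hi => ?_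
  have h1 := ((isHomogeneous_C ι (p.coeff i)).mul ((isHomogeneous_X O t).pow i)).mul
    ((isHomogeneous_X O s).pow (p.natDegree - i))
  have h2 : 0 + 1 * i + 1 * (p.natDegree - i) = p.natDegree := by
    rw [Finset.mem_range] at hi
    omega
  rwa [h2] at h1

theorem deh_hm (s t : ι) (p : Polynomial O) : deh s (hmg s t p) = Polynomial.aeval (tau s t) p := by
  rw [Polynomial.aeval_eq_sum_range, hmg, deh, map_sum]
  refine Finset.sum_congr rfl fun i _ => ?_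
  rw [map_mul, map_mul, map_pow, map_pow, aeval_X, aeval_X, tau_self, one_pow, mul_one, aeval_C,
    Algebra.smul_def]

/-- a maximal ideal over a maximal ideal: every coordinate is integral modulo it -/
theorem exists_monic (𝔭 : Ideal O) [h𝔭 : 𝔭.IsMaximal] [Finite ι] (s t : ι)
    (m : Ideal (MvPolynomial {j : ι // j ≠ s} O)) (hm : m.IsMaximal)
    (hC : ∀ r : O, C r ∈ m ↔ r ∈ 𝔭) :
    ∃ p : Polynomial O, p.Monic ∧ Polynomial.aeval (tau s t) p ∈ m := by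
  classical
  have : Finite {j : ι // j ≠ s} := Subtype.finite
  let A := MvPolynomial {j : ι // j ≠ s} O
  let κ := A ⧸ m
  letI : Field κ := Ideal.Quotient.field m
  letI : Field (O ⧸ 𝔭) := Ideal.Quotient.field 𝔭
  let φ : O ⧸ 𝔭 →+* κ := Ideal.Quotient.lift 𝔭 ((Ideal.Quotient.mk m).comp C) (fun a ha => by
    rw [RingHom.comp_apply, Ideal.Quotient.eq_zero_iff_mem]
    exact (hC a).2 ha)
  letI : Algebra (O ⧸ 𝔭) κ := φ.toAlgebra
  have hst : IsScalarTower O (O ⧸ 𝔭) κ := IsScalarTower.of_algebraMap_eq fun x => rfl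
  have hft : Algebra.FiniteType O κ := inferInstance
  have hft2 : Algebra.FiniteType (O ⧸ 𝔭) κ := Algebra.FiniteType.of_restrictScalars_finiteType O _ _
  have hfin : Module.Finite (O ⧸ 𝔭) κ := finite_of_finite_type_of_isJacobsonRing _ _
  obtain ⟨q, hq, hq0⟩ := (Algebra.IsIntegral.of_finite (O ⧸ 𝔭) κ).isIntegral
    (Ideal.Quotient.mk m (tau s t))
  obtain ⟨p, hp, hpd, hpm⟩ := Polynomial.lifts_and_natDegree_eq_and_monic
    (f := Ideal.Quotient.mk 𝔭) (p := q) (by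
      rw [Polynomial.lifts_iff_coeff_lifts]
      intro n
      exact Ideal.Quotient.mk_surjective _) hq
  refine ⟨p, hpm, ?_⟩
  rw [← Ideal.Quotient.eq_zero_iff_mem]
  have h1 : Ideal.Quotient.mk m (Polynomial.aeval (tau s t) p) =
      Polynomial.aeval (Ideal.Quotient.mk m (tau s t)) p := by
    have := Polynomial.aeval_algHom_apply (Ideal.Quotient.mkₐ O m) (tau s t) p
    exact this.symm
  rw [h1, Polynomial.aeval_def, ← hq0, ← hp, Polynomial.eval₂_map]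
  rfl

/-- a maximal ideal of a chart is determined by its forms of positive degree -/
theorem same_point (𝔭 : Ideal O) [h𝔭 : 𝔭.IsMaximal] [Finite ι] (s t : ι)
    (m : Ideal (MvPolynomial {j : ι // j ≠ s} O)) (hm : m.IsMaximal)
    (hC : ∀ r : O, C r ∈ m ↔ r ∈ 𝔭)
    (Q : Ideal (MvPolynomial {j : ι // j ≠ t} O)) (hQ : Q.IsPrime)
    (hCQ : ∀ r : O, C r ∈ Q ↔ r ∈ 𝔭) (h : ∀ b ∈ Hs s m, deh t b ∈ Q) :
    (tau s t : MvPolynomial {j : ι // j ≠ s} O) ∉ m ∧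
      ∀ (P : MvPolynomial ι O) (N : ℕ), P.IsHomogeneous N → (deh t P ∈ Q ↔ deh s P ∈ m) := by
  have h1 : (tau t s : MvPolynomial {j : ι // j ≠ t} O) ∉ Q := by
    intro hs
    obtain ⟨p, hp, hpm⟩ := exists_monic 𝔭 s t m hm hC
    have hdeg : 1 ≤ p.natDegree := by
      rw [Nat.one_le_iff_ne_zero]
      intro h0
      have h2 : p = 1 := hp.natDegree_eq_zero.1 h0
      rw [h2, map_one] at hpm
      exact hm.ne_top ((Ideal.eq_top_iff_one _).2 hpm)
    have h2 : deh t (hmg s t p) ∈ Q := h _ ⟨p.natDegree, hdeg, hm_hom s t p, by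
      rw [deh_hm]
      exact hpm⟩
    rw [hmg, deh, map_sum, Finset.sum_range_succ] at h2
    have h3 : ∑ i ∈ Finset.range p.natDegree, (aeval (tau t) : MvPolynomial ι O →ₐ[O] _)
        (C (p.coeff i) * X t ^ i * X s ^ (p.natDegree - i)) ∈ Q := by
      refine Ideal.sum_mem _ fun i hi => ?_
      rw [map_mul, map_pow, aeval_X]
      refine Ideal.mul_mem_left _ _ (Ideal.pow_mem_of_mem _ hs _ ?_)
      rw [Finset.mem_range] at hi
      omega
    have h4 := (Ideal.add_mem_iff_right _ h3).1 h2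
    rw [map_mul, map_mul, map_pow, map_pow, aeval_X, aeval_X, tau_self, one_pow, mul_one,
      Nat.sub_self, pow_zero, mul_one, aeval_C, Polynomial.coeff_natDegree, hp.leadingCoeff,
      map_one] at h4
    exact hQ.ne_top ((Ideal.eq_top_iff_one _).2 h4)
  obtain ⟨Q', hQ', hCQ', hiff, -⟩ := chart_change 𝔭 t s Q hQ hCQ h1
  have h2 : m ≤ Q' := by
    intro f hf
    obtain ⟨N, P, hP, rfl⟩ := exists_homog s f
    have h3 : deh t (X s * P) ∈ Q := h _ ⟨N + 1, by omega, by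
      rw [add_comm]
      exact (isHomogeneous_X O s).mul hP, by
      rw [deh_mul]
      exact Ideal.mul_mem_left _ _ hf⟩
    rw [deh_mul, deh_X] at h3
    exact (hiff P N hP).2 ((hQ.mem_or_mem h3).resolve_left h1)
  have h3 : m = Q' := hm.eq_of_le hQ'.ne_top h2
  have h4 : ∀ (P : MvPolynomial ι O) (N : ℕ), P.IsHomogeneous N →
      (deh t P ∈ Q ↔ deh s P ∈ m) := by
    intro P N hP
    rw [h3]
    exact (hiff P N hP).symm
  refine ⟨?_, h4⟩
  rw [← deh_X, ← h4 (X t) 1 (isHomogeneous_X O t), deh_X, tau_self]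
  exact (Ideal.ne_top_iff_one Q).1 hQ.ne_top

/-- a point with the same forms as a nonregular point is nonregular -/
theorem nonreg_of_same (𝔭 : Ideal O) [h𝔭 : 𝔭.IsMaximal] [Finite ι] (s t : ι)
    (m : Ideal (MvPolynomial {j : ι // j ≠ s} O)) (hm : m.IsMaximal)
    (hC : ∀ r : O, C r ∈ m ↔ r ∈ 𝔭)
    (Q : Ideal (MvPolynomial {j : ι // j ≠ t} O)) (hQ : Q.IsPrime)
    (hCQ : ∀ r : O, C r ∈ Q ↔ r ∈ 𝔭) (h : ∀ b ∈ Hs s m, deh t b ∈ Q)
    (G : MvPolynomial ι O) (d : ℕ) (hG : G.IsHomogeneous d)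
    (hn : ∃ h, h ∉ m ∧ h * deh s G ∈ m ^ 2) : ∃ h, h ∉ Q ∧ h * deh t G ∈ Q ^ 2 := by
  obtain ⟨h1, h2⟩ := same_point 𝔭 s t m hm hC Q hQ hCQ h
  obtain ⟨Q', hQ', hCQ', hiff, hreg⟩ := chart_change 𝔭 s t m hm.isPrime hC h1
  have h3 : Q' = Q := eq_of_hom t Q' Q fun P N hP => by rw [hiff P N hP, h2 P N hP]
  subst h3
  by_contra hcon
  push Not at hcon
  obtain ⟨g, hg, hgG⟩ := hn
  exact hreg G d hG hcon g hg hgG

/-- finitely many forms of the same degree -/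
theorem exists_forms [IsNoetherianRing O] [Finite ι] (s : ι)
    (m : Ideal (MvPolynomial {j : ι // j ≠ s} O)) :
    ∃ (e : ℕ) (B : Finset (MvPolynomial ι O)), 1 ≤ e ∧ (∀ b ∈ B, b.IsHomogeneous e) ∧
      (∀ b ∈ B, deh s b ∈ m) ∧
      ∀ (t : ι) (Q : Ideal (MvPolynomial {j : ι // j ≠ t} O)), Q.IsPrime →
        (∀ b ∈ B, deh t b ∈ Q) → ∀ b ∈ Hs s m, deh t b ∈ Q := by
  classical
  have hfg : (Ideal.span (Hs s m)).FG := IsNoetherian.noetherian _
  obtain ⟨F, hF, hFs⟩ := (Submodule.fg_span_iff_fg_span_finset_subset (Hs s m)).1 hfg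
  have hdeg : ∀ b : MvPolynomial ι O, ∃ e, b ∈ F → 1 ≤ e ∧ b.IsHomogeneous e ∧ deh s b ∈ m := by
    intro b
    by_cases hb : b ∈ F
    · obtain ⟨e, he⟩ := hF hb
      exact ⟨e, fun _ => he⟩
    · exact ⟨0, fun h => absurd h hb⟩
  choose e he using hdeg
  let E := ∏ b ∈ F, e b
  have hE : ∀ b ∈ F, e b * (∏ b' ∈ F.erase b, e b') = E := fun b hb => Finset.mul_prod_erase _ _ hb
  have hpos : ∀ b ∈ F, 0 < ∏ b' ∈ F.erase b, e b' := fun b hb =>
    Finset.prod_pos fun b' hb' => Nat.lt_of_lt_of_le Nat.zero_lt_one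
      (he b' (Finset.mem_of_mem_erase hb')).1
  refine ⟨E, F.image fun b => b ^ (∏ b' ∈ F.erase b, e b'), ?_, ?_, ?_, ?_⟩
  · exact Nat.succ_le_of_lt (Finset.prod_pos fun b hb => Nat.lt_of_lt_of_le Nat.zero_lt_one
      (he b hb).1)
  · intro b' hb'
    obtain ⟨b, hb, rfl⟩ := Finset.mem_image.1 hb'
    have := (he b hb).2.1.pow (∏ b' ∈ F.erase b, e b')
    rwa [hE b hb] at this
  · intro b' hb'
    obtain ⟨b, hb, rfl⟩ := Finset.mem_image.1 hb'
    rw [deh_pow]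
    exact Ideal.pow_mem_of_mem _ (he b hb).2.2 _ (hpos b hb)
  · intro t Q hQ h b hb
    have h1 : Ideal.span (Hs s m) ≤ Q.comap
        ((aeval (tau t) : MvPolynomial ι O →ₐ[O] MvPolynomial {j : ι // j ≠ t} O) : _ →+* _) := by
      change Submodule.span _ (Hs s m) ≤ _
      rw [hFs]
      refine Submodule.span_le.2 fun b' hb' => ?_
      have h2 := h _ (Finset.mem_image_of_mem _ hb')
      rw [deh_pow] at h2
      exact hQ.mem_of_pow_mem _ h2
    exact h1 (Ideal.subset_span hb)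

/-- finitely many points -/
theorem forms_finset [IsNoetherianRing O] [Fintype ι]
    (T : Finset (Σ s : ι, Ideal (MvPolynomial {j : ι // j ≠ s} O))) :
    ∃ (e : ℕ) (B : Finset (MvPolynomial ι O)), 1 ≤ e ∧ (∀ b ∈ B, b.IsHomogeneous e) ∧
      (∀ x ∈ T, ∀ b ∈ B, deh x.1 b ∈ x.2) ∧
      ∀ (t : ι) (Q : Ideal (MvPolynomial {j : ι // j ≠ t} O)), Q.IsPrime →
        (∀ b ∈ B, deh t b ∈ Q) → ∃ x ∈ T, ∀ b ∈ Hs x.1 x.2, deh t b ∈ Q := by
  classical
  induction T using Finset.induction_on with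
  | empty =>
    refine ⟨1, Finset.univ.image X, le_refl _, ?_, ?_, ?_⟩
    · intro b hb
      obtain ⟨j, -, rfl⟩ := Finset.mem_image.1 hb
      exact isHomogeneous_X O j
    · intro x hx
      simp at hx
    · intro t Q hQ h
      exfalso
      have h1 := h (X t) (Finset.mem_image_of_mem _ (Finset.mem_univ t))
      rw [deh_X, tau_self] at h1
      exact hQ.ne_top ((Ideal.eq_top_iff_one _).2 h1)
  | insert x T hx ih =>
    obtain ⟨e₁, B₁, he₁, hB₁, hv₁, hQ₁⟩ := ih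
    obtain ⟨e₂, B₂, he₂, hB₂, hv₂, hQ₂⟩ := exists_forms x.1 x.2
    refine ⟨e₁ + e₂, (B₁ ×ˢ B₂).image fun y => y.1 * y.2, by omega, ?_, ?_, ?_⟩
    · intro b hb
      obtain ⟨y, hy, rfl⟩ := Finset.mem_image.1 hb
      obtain ⟨hy1, hy2⟩ := Finset.mem_product.1 hy
      exact (hB₁ _ hy1).mul (hB₂ _ hy2)
    · intro x' hx' b hb
      obtain ⟨y, hy, rfl⟩ := Finset.mem_image.1 hb
      obtain ⟨hy1, hy2⟩ := Finset.mem_product.1 hy
      rw [deh_mul]
      rcases Finset.mem_insert.1 hx' with rfl | hx'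
      · exact Ideal.mul_mem_left _ _ (hv₂ _ hy2)
      · exact Ideal.mul_mem_right _ _ (hv₁ _ hx' _ hy1)
    · intro t Q hQ h
      by_cases h1 : ∀ b ∈ B₁, deh t b ∈ Q
      · obtain ⟨x', hx', h2⟩ := hQ₁ t Q hQ h1
        exact ⟨x', Finset.mem_insert_of_mem hx', h2⟩
      · push Not at h1
        obtain ⟨b₁, hb₁, h1⟩ := h1
        refine ⟨x, Finset.mem_insert_self _ _, hQ₂ t Q hQ fun b hb => ?_⟩
        have h2 := h _ (Finset.mem_image_of_mem _ (Finset.mem_product.2 ⟨hb₁, hb⟩ :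
          (b₁, b) ∈ B₁ ×ˢ B₂))
        rw [deh_mul] at h2
        exact (hQ.mem_or_mem h2).resolve_left h1

/-- The nondegenerate critical points of a fibre are maximal ideals and there are finitely many. -/
theorem nondeg_finite {σ : Type} [Fintype σ] [DecidableEq σ] (𝔭 : Ideal O) [h𝔭 : 𝔭.IsMaximal]
    (f : MvPolynomial σ O) :
    (∀ Q : Ideal (MvPolynomial σ O), Q.IsPrime → (∀ r : O, C r ∈ Q ↔ r ∈ 𝔭) →
      (∀ j, pderiv j f ∈ Q) → (hess f).det ∉ Q → Q.IsMaximal) ∧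
    {Q : Ideal (MvPolynomial σ O) | Q.IsPrime ∧ (∀ r : O, C r ∈ Q ↔ r ∈ 𝔭) ∧
      (∀ j, pderiv j f ∈ Q) ∧ (hess f).det ∉ Q}.Finite := by
  classical
  letI : Field (O ⧸ 𝔭) := Ideal.Quotient.field 𝔭
  let θ : MvPolynomial σ O →+* MvPolynomial σ (O ⧸ 𝔭) := MvPolynomial.map (Ideal.Quotient.mk 𝔭)
  have hθ : Function.Surjective θ := MvPolynomial.map_surjective _ Ideal.Quotient.mk_surjective
  have hker : RingHom.ker θ = 𝔭.map C := by
    rw [MvPolynomial.ker_map, Ideal.mk_ker]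
  have hpd : ∀ j (g : MvPolynomial σ O), pderiv j (θ g) = θ (pderiv j g) := by
    intro j g
    exact pderiv_map
  have hh : (hess (θ f)).det = θ (hess f).det := by
    rw [RingHom.map_det]
    congr 1
    ext i j
    simp only [hess, Matrix.of_apply, RingHom.mapMatrix_apply, Matrix.map_apply]
    rw [hpd, hpd]
  have key : ∀ Q : Ideal (MvPolynomial σ O), Q.IsPrime → (∀ r : O, C r ∈ Q ↔ r ∈ 𝔭) →
      (∀ j, pderiv j f ∈ Q) → (hess f).det ∉ Q → Q.IsMaximal ∧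
        (Q.map θ ∈ (Ideal.span (Set.range fun j => pderiv j (θ f))).minimalPrimes) ∧
        (Q.map θ).comap θ = Q := by
    intro Q hQ hC hy hdet
    have hkQ : RingHom.ker θ ≤ Q := by
      rw [hker, Ideal.map_le_iff_le_comap]
      intro r hr
      exact (hC r).2 hr
    have hP : (Q.map θ).IsPrime := Ideal.map_isPrime_of_surjective hθ hkQ
    have hcomap : (Q.map θ).comap θ = Q := by
      rw [Ideal.comap_map_of_surjective θ hθ]
      exact sup_eq_left.2 (by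
        intro x hx
        exact hkQ (by simpa using hx))
    have hmem : ∀ x, θ x ∈ Q.map θ ↔ x ∈ Q := by
      intro x
      rw [← Ideal.mem_comap, hcomap]
    obtain ⟨h1, h2, h3⟩ := LgL.field_case (θ f) (Q.map θ)
      (fun j => by rw [hpd, hmem]; exact hy j) (by
        rw [hh, hmem]
        exact hdet)
    refine ⟨?_, ?_, hcomap⟩
    · rw [← hcomap]
      exact Ideal.comap_isMaximal_of_surjective θ hθ
    · refine ⟨⟨hP, ?_⟩, ?_⟩
      · rw [Ideal.span_le]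
        rintro _ ⟨j, rfl⟩
        change pderiv j (θ f) ∈ Q.map θ
        rw [hpd, hmem]
        exact hy j
      · rintro P' ⟨hP', hle⟩ hP'Q z hz
        obtain ⟨c, hc, hcz⟩ := h3 z hz
        exact (hP'.mem_or_mem (hle hcz)).resolve_left fun h => hc (hP'Q h)
  refine ⟨fun Q hQ hC hy hdet => (key Q hQ hC hy hdet).1, ?_⟩
  have hfin : (Ideal.span (Set.range fun j => pderiv j (θ f))).minimalPrimes.Finite :=
    Ideal.finite_minimalPrimes_of_isNoetherianRing _ _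
  refine (hfin.image (Ideal.comap θ)).subset ?_
  rintro Q ⟨hQ, hC, hy, hdet⟩
  obtain ⟨h1, h2, h3⟩ := key Q hQ hC hy hdet
  exact ⟨Q.map θ, h2, h3⟩

end MixL

open MixL in
/-- [MIX] Forms of one degree which cut out the nonregular points among the critical points of a
fibre. -/
theorem mixN {O : Type} [CommRing O] [IsNoetherianRing O] (𝔭 : Ideal O) [𝔭.IsMaximal]
    {ι : Type} [Fintype ι] [DecidableEq ι] (G : MvPolynomial ι O) (d : ℕ)
    (hG : G.IsHomogeneous d)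
    (hyp : ∀ (s : ι) (Q : Ideal (MvPolynomial {j : ι // j ≠ s} O)), Q.IsPrime →
      (∀ r : O, C r ∈ Q ↔ r ∈ 𝔭) → deh s G ∈ Q → (∀ j, pderiv j (deh s G) ∈ Q) →
      (∃ h, h ∉ Q ∧ h * deh s G ∈ Q ^ 2) → (hess (deh s G)).det ∉ Q) :
    ∃ (e : ℕ) (B : Finset (MvPolynomial ι O)), 1 ≤ e ∧ (∀ b ∈ B, b.IsHomogeneous e) ∧
      ∀ (s : ι) (Q : Ideal (MvPolynomial {j : ι // j ≠ s} O)), Q.IsPrime →
        (∀ r : O, C r ∈ Q ↔ r ∈ 𝔭) → deh s G ∈ Q → (∀ j, pderiv j (deh s G) ∈ Q) →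
        ((∃ h, h ∉ Q ∧ h * deh s G ∈ Q ^ 2) → ∀ b ∈ B, deh s b ∈ Q) ∧
        ((∀ h, h ∉ Q → h * deh s G ∉ Q ^ 2) → ∃ b ∈ B, deh s b ∉ Q) := by
  classical
  let S : Set (Σ s : ι, Ideal (MvPolynomial {j : ι // j ≠ s} O)) :=
    {x | x.2.IsPrime ∧ (∀ r : O, C r ∈ x.2 ↔ r ∈ 𝔭) ∧ deh x.1 G ∈ x.2 ∧
      (∀ j, pderiv j (deh x.1 G) ∈ x.2) ∧ ∃ h, h ∉ x.2 ∧ h * deh x.1 G ∈ x.2 ^ 2}
  have hS : S.Finite := by
    have h1 : S ⊆ ⋃ s : ι, Sigma.mk s '' {Q : Ideal (MvPolynomial {j : ι // j ≠ s} O) |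
        Q.IsPrime ∧ (∀ r : O, C r ∈ Q ↔ r ∈ 𝔭) ∧ (∀ j, pderiv j (deh s G) ∈ Q) ∧
        (hess (deh s G)).det ∉ Q} := by
      rintro ⟨s, Q⟩ ⟨h1, h2, h3, h4, h5⟩
      rw [Set.mem_iUnion]
      exact ⟨s, Q, ⟨h1, h2, h4, hyp s Q h1 h2 h3 h4 h5⟩, rfl⟩
    refine Set.Finite.subset (Set.finite_iUnion fun s => ?_) h1
    exact (nondeg_finite 𝔭 (deh s G)).2.image _
  obtain ⟨e, B, he, hB, hv, hQB⟩ := forms_finset hS.toFinset
  refine ⟨e, B, he, hB, fun s Q hQ hC hGQ hpQ => ⟨fun hn b hb => ?_, fun hr => ?_⟩⟩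
  · exact hv ⟨s, Q⟩ (hS.mem_toFinset.2 ⟨hQ, hC, hGQ, hpQ, hn⟩) b hb
  · by_contra hcon
    push Not at hcon
    obtain ⟨⟨t, m⟩, hx, h1⟩ := hQB s Q hQ hcon
    obtain ⟨g1, g2, g3, g4, g5⟩ := hS.mem_toFinset.1 hx
    have hmax : m.IsMaximal := (nondeg_finite 𝔭 (deh t G)).1 m g1 g2 g4 (hyp t m g1 g2 g3 g4 g5)
    obtain ⟨h, hh, hhG⟩ := nonreg_of_same 𝔭 t s m hmax g2 Q hQ hC h1 G d hG g5
    exact hr h hh hhG

/-- [MIX] -/
theorem mix : S_MIX := by
  intro O _ _ 𝔭 h𝔭 h𝔭0 n G d hG hyp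
  have hmax : 𝔭.IsMaximal := h𝔭.isMaximal h𝔭0
  obtain ⟨e, B, -, hB, h⟩ := mixN 𝔭 G d hG (fun s Q hQ hC hGQ _ hn =>
    (hyp s Q hQ hC hGQ).resolve_left fun hr => by
      obtain ⟨g, hg, hgG⟩ := hn
      exact hr g hg hgG)
  refine ⟨e, B, hB, fun s Q hQ hC hGQ hpQ => ?_⟩
  by_cases hr : ∀ h, h ∉ Q → h * deh s G ∉ Q ^ 2
  · exact Or.inl ⟨hr, (h s Q hQ hC hGQ hpQ).2 hr⟩
  · refine Or.inr ⟨(hyp s Q hQ hC hGQ).resolve_left hr, (h s Q hQ hC hGQ hpQ).1 ?_⟩
    push Not at hr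
    exact hr

end Pool.Agent.Helper21K9.OD
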