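import Pool.Agent.Helper21K9.OD.Stm

/-! [REG] Regularity of the charts of the blow-up at a nondegenerate quadratic singularity. -/

set_option autoImplicit false
set_option linter.unusedSectionVars false

open MvPolynomial

namespace Pool.Agent.Helper21K9.OD

open Pool.Agent.H918R2.Quad

namespace RegL

/-- Extension of chains of primes. -/
theorem height_map_ge {B W : Type} [CommRing B] [CommRing W] (φ : B →+* W)
    (hp : ∀ P : Ideal B, P.IsPrime → (P.map φ).IsPrime)
    (hc : ∀ P : Ideal B, (P.map φ).comap φ = P) (n : ℕ) :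
    ∀ (P : Ideal B) [P.IsPrime], (n : ℕ∞) ≤ P.height → (n : ℕ∞) ≤ (P.map φ).height := by
  induction n with
  | zero => intro P _ _; simp
  | succ n ih =>
    intro P hPp hP
    have h1 : ¬ P.height ≤ n := by
      intro h
      have h2 : ((n + 1 : ℕ) : ℕ∞) ≤ (n : ℕ∞) := hP.trans h
      have h3 : n + 1 ≤ n := by exact_mod_cast h2
      omega
    rw [Ideal.height_le_iff] at h1
    push Not at h1
    obtain ⟨P', hP', hlt, hge⟩ := h1
    have h2 := ih P' hge
    have hp1 := hp P' hP'
    have hp2 := hp P hPp
    have hlt' : P'.map φ < P.map φ := lt_of_le_of_ne (Ideal.map_mono hlt.le) (by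
      intro h
      apply hlt.ne
      rw [← hc P', ← hc P, h])
    have h3 := Ideal.height_add_one_le_of_lt_of_isPrime hlt'
    calc ((n + 1 : ℕ) : ℕ∞) = (n : ℕ∞) + 1 := by push_cast; ring
      _ ≤ (P'.map φ).height + 1 := by gcongr
      _ ≤ _ := h3

theorem mem_map_C {B τ : Type} [CommRing B] (P : Ideal B) (p : MvPolynomial τ B) :
    p ∈ P.map (C : B →+* MvPolynomial τ B) ↔ ∀ m, coeff m p ∈ P := by
  exact MvPolynomial.mem_map_C_iff

theorem prime_map_C {B τ : Type} [CommRing B] (P : Ideal B) (hP : P.IsPrime) :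
    (P.map (C : B →+* MvPolynomial τ B)).IsPrime := by
  rw [← Ideal.Quotient.isDomain_iff_prime]
  exact (MvPolynomial.quotientEquivQuotientMvPolynomial (σ := τ) P).symm.toMulEquiv.isDomain
    (MvPolynomial τ (B ⧸ P))

theorem comap_map_C {B τ : Type} [CommRing B] (P : Ideal B) :
    (P.map (C : B →+* MvPolynomial τ B)).comap C = P := by
  ext b
  rw [Ideal.mem_comap, mem_map_C]
  constructor
  · intro h
    have h1 := h 0
    rwa [coeff_zero_C] at h1
  · intro h m
    classical
    rw [coeff_C]
    split_ifs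
    · exact h
    · exact P.zero_mem

/-- The elements which are locally in an ideal. -/
def locI {W A : Type} [CommRing W] [CommRing A] (pr : W →+* A) (q : Ideal A) [hq : q.IsPrime]
    (K : Ideal A) : Ideal W where
  carrier := {x | ∃ c, pr c ∉ q ∧ pr (c * x) ∈ K}
  zero_mem' := ⟨1, by rw [map_one]; exact (Ideal.ne_top_iff_one q).1 hq.ne_top, by simp⟩
  add_mem' := by
    rintro x y ⟨c, hc, hcx⟩ ⟨d, hd, hdy⟩
    refine ⟨c * d, ?_, ?_⟩
    · rw [map_mul]
      exact fun h => (hq.mem_or_mem h).elim hc hd
    · have h1 : pr (c * d * (x + y)) = pr d * pr (c * x) + pr c * pr (d * y) := by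
        rw [← map_mul, ← map_mul, ← map_add]
        congr 1
        ring
      rw [h1]
      exact K.add_mem (K.mul_mem_left _ hcx) (K.mul_mem_left _ hdy)
  smul_mem' := by
    rintro w x ⟨c, hc, hcx⟩
    refine ⟨c, hc, ?_⟩
    have h1 : pr (c * (w • x)) = pr w * pr (c * x) := by
      rw [← map_mul, smul_eq_mul]
      congr 1
      ring
    rw [h1]
    exact K.mul_mem_left _ hcx

theorem mem_locI {W A : Type} [CommRing W] [CommRing A] (pr : W →+* A) (q : Ideal A)
    [hq : q.IsPrime] (K : Ideal A) (x : W) :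
    x ∈ locI pr q K ↔ ∃ c, pr c ∉ q ∧ pr (c * x) ∈ K := Iff.rfl

section

variable {B σ κ : Type} [CommRing B] [Fintype σ] [DecidableEq σ] [Field κ]

/-- Reduction modulo the maximal ideal and `X v₀ = 0`. -/
noncomputable def th (m : B →+* κ) (v₀ : Option σ) :
    MvPolynomial (Option σ) B →+* MvPolynomial {v : Option σ // v ≠ v₀} κ :=
  eval₂Hom (C.comp m) (fun v => if h : v = v₀ then 0 else X ⟨v, h⟩)

theorem th_C (m : B →+* κ) (v₀ : Option σ) (b : B) : th m v₀ (C b) = C (m b) := by
  simp [th]

theorem th_X0 (m : B →+* κ) (v₀ : Option σ) : th m v₀ (X v₀) = 0 := by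
  simp [th]

theorem th_X (m : B →+* κ) (v₀ v : Option σ) (h : v ≠ v₀) : th m v₀ (X v) = X ⟨v, h⟩ := by
  simp [th, h]

theorem th_surj (m : B →+* κ) (hm : Function.Surjective m) (v₀ : Option σ) :
    Function.Surjective (th m v₀) := by
  intro p
  induction p using MvPolynomial.induction_on with
  | C a =>
    obtain ⟨b, rfl⟩ := hm a
    exact ⟨C b, th_C m v₀ b⟩
  | add p q hp hq =>
    obtain ⟨a, rfl⟩ := hp
    obtain ⟨b, rfl⟩ := hq
    exact ⟨a + b, map_add _ _ _⟩
  | mul_X p v hp =>
    obtain ⟨a, rfl⟩ := hp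
    exact ⟨a * X v.1, by rw [map_mul, th_X m v₀ v.1 v.2]⟩

theorem ker_th (m : B →+* κ) (hm : Function.Surjective m) (v₀ : Option σ) :
    RingHom.ker (th m v₀) ≤ (RingHom.ker m).map C ⊔ Ideal.span {X v₀} := by
  classical
  intro x hx
  let I : Ideal (MvPolynomial (Option σ) B) := (RingHom.ker m).map C ⊔ Ideal.span {X v₀}
  let g : κ →+* MvPolynomial (Option σ) B ⧸ I :=
    RingHom.liftOfRightInverse m (Function.surjInv hm) (Function.rightInverse_surjInv hm)
      ⟨(Ideal.Quotient.mk I).comp C, by
        intro b hb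
        rw [RingHom.mem_ker, RingHom.comp_apply, Ideal.Quotient.eq_zero_iff_mem]
        exact Ideal.mem_sup_left (Ideal.mem_map_of_mem _ hb)⟩
  have hg : ∀ b, g (m b) = Ideal.Quotient.mk I (C b) := by
    intro b
    have := RingHom.liftOfRightInverse_comp_apply m (Function.surjInv hm)
      (Function.rightInverse_surjInv hm) ⟨(Ideal.Quotient.mk I).comp C, by
        intro b hb
        rw [RingHom.mem_ker, RingHom.comp_apply, Ideal.Quotient.eq_zero_iff_mem]
        exact Ideal.mem_sup_left (Ideal.mem_map_of_mem _ hb)⟩ b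
    exact this
  let ψ : MvPolynomial {v : Option σ // v ≠ v₀} κ →+* MvPolynomial (Option σ) B ⧸ I :=
    eval₂Hom g (fun v => Ideal.Quotient.mk I (X v.1))
  have hψ : ψ.comp (th m v₀) = Ideal.Quotient.mk I := by
    apply MvPolynomial.ringHom_ext
    · intro b
      rw [RingHom.comp_apply, th_C]
      simp only [ψ, eval₂Hom_C]
      exact hg b
    · intro v
      rw [RingHom.comp_apply]
      by_cases h : v = v₀
      · subst h
        rw [th_X0, map_zero]
        symm
        rw [Ideal.Quotient.eq_zero_iff_mem]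
        exact Ideal.mem_sup_right (Ideal.mem_span_singleton_self _)
      · rw [th_X m v₀ v h]
        simp only [ψ, eval₂Hom_X']
  have h1 : Ideal.Quotient.mk I x = 0 := by
    rw [← hψ, RingHom.comp_apply, (RingHom.mem_ker).1 hx, map_zero]
  exact Ideal.Quotient.eq_zero_iff_mem.1 h1

theorem map_C_le (m : B →+* κ) (v₀ : Option σ) :
    (RingHom.ker m).map C ≤ RingHom.ker (th m v₀) := by
  rw [Ideal.map_le_iff_le_comap]
  intro b hb
  rw [Ideal.mem_comap, RingHom.mem_ker, th_C, (RingHom.mem_ker).1 hb, map_zero]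

/-- Derivatives of an element of the square of a prime. -/
theorem deriv_mem {τ : Type} {P : Ideal (MvPolynomial τ κ)} [hP : P.IsPrime] {c e : MvPolynomial τ κ}
    (hc : c ∉ P) (he : e ∈ P) (h : c * e ∈ P ^ 2) (v : τ) : pderiv v e ∈ P := by
  have h1 : pderiv v (c * e) ∈ P := by
    rw [pow_two] at h
    refine Submodule.mul_induction_on h ?_ ?_
    · intro a ha b hb
      rw [Derivation.leibniz, smul_eq_mul, smul_eq_mul]
      exact P.add_mem (P.mul_mem_right _ ha) (P.mul_mem_right _ hb)
    · intro a b ha hb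
      rw [map_add]
      exact P.add_mem ha hb
  rw [Derivation.leibniz, smul_eq_mul, smul_eq_mul] at h1
  have h2 : c * pderiv v e ∈ P := by
    have h3 := P.sub_mem h1 (P.mul_mem_right (pderiv v c) he)
    rwa [add_sub_cancel_right] at h3
  exact (hP.mem_or_mem h2).resolve_left hc

/-- The linear forms. -/
noncomputable def LL (m : B →+* κ) (v₀ : Option σ) (h : σ → σ → B) (i l : σ) :
    MvPolynomial {v : Option σ // v ≠ v₀} κ :=
  ∑ b, C (m (h l b + h b l)) * th m v₀ (zz i b)

theorem th_qq (m : B →+* κ) (v₀ : Option σ) (h : σ → σ → B) (i : σ) :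
    th m v₀ (qq h i) = ∑ a, ∑ b, C (m (h a b)) * th m v₀ (zz i a) * th m v₀ (zz i b) := by
  rw [qq, map_sum]
  refine Finset.sum_congr rfl fun a _ => ?_
  rw [map_sum]
  refine Finset.sum_congr rfl fun b _ => ?_
  rw [map_mul, map_mul, th_C]

theorem euler (m : B →+* κ) (v₀ : Option σ) (h : σ → σ → B) (i : σ) :
    2 * th m v₀ (qq h i) = ∑ l, th m v₀ (zz i l) * LL m v₀ h i l := by
  rw [th_qq, two_mul]
  conv_lhs => rhs; rw [Finset.sum_comm]
  rw [← Finset.sum_add_distrib]
  refine Finset.sum_congr rfl fun a _ => ?_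
  rw [← Finset.sum_add_distrib, LL, Finset.mul_sum]
  refine Finset.sum_congr rfl fun b _ => ?_
  rw [map_add, map_add]
  ring

theorem pd_zz (m : B →+* κ) (v₀ : Option σ) (i l : σ) (v : {v : Option σ // v ≠ v₀})
    (hv : v.1 ≠ some i) (hl : some l ≠ v₀ ∨ l = i) :
    pderiv v (th m v₀ (zz i l)) = if v.1 = some l then 1 else 0 := by
  classical
  rw [zz]
  by_cases h : l = i
  · subst h
    rw [if_pos rfl, map_one, if_neg hv]
    simp
  · have hl' : some l ≠ v₀ := hl.resolve_right h
    rw [if_neg h, th_X m v₀ _ hl', pderiv_X]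
    by_cases h2 : v.1 = some l
    · rw [if_pos h2]
      have : v = ⟨some l, hl'⟩ := Subtype.ext h2
      rw [this, Pi.single_eq_same]
    · rw [if_neg h2, Pi.single_eq_of_ne]
      intro h3
      exact h2 (by rw [← h3])

theorem pd_qq (m : B →+* κ) (v₀ : Option σ) (h : σ → σ → B) (i l : σ) (hli : l ≠ i)
    (hv₀ : v₀ = some i ∨ v₀ = none) (hl : some l ≠ v₀) :
    pderiv ⟨some l, hl⟩ (th m v₀ (qq h i)) = LL m v₀ h i l := by
  classical
  have hz : ∀ b : σ, pderiv (⟨some l, hl⟩ : {v : Option σ // v ≠ v₀}) (th m v₀ (zz i b)) =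
      if b = l then 1 else 0 := by
    intro b
    rw [pd_zz m v₀ i b ⟨some l, hl⟩ (by simpa using hli) (by
      rcases hv₀ with h | h
      · by_cases hb : b = i
        · exact Or.inr hb
        · left
          rw [h]
          simpa using hb
      · left
        rw [h]
        simp)]
    by_cases hb : b = l
    · subst hb
      simp
    · rw [if_neg hb, if_neg]
      intro h2
      exact hb (Option.some_injective _ h2).symm
  rw [th_qq, map_sum]
  have h1 : ∀ a b : σ, pderiv (⟨some l, hl⟩ : {v : Option σ // v ≠ v₀})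
      (C (m (h a b)) * th m v₀ (zz i a) * th m v₀ (zz i b)) =
      (if a = l then C (m (h a b)) * th m v₀ (zz i b) else 0) +
      (if b = l then C (m (h a b)) * th m v₀ (zz i a) else 0) := by
    intro a b
    rw [mul_assoc, pderiv_C_mul, Derivation.leibniz, hz, hz, smul_eq_mul, smul_eq_mul, mul_add]
    rw [add_comm]
    congr 1
    · split_ifs <;> ring
    · split_ifs <;> ring
  simp only [map_sum, h1, Finset.sum_add_distrib]
  rw [LL]
  have h2 : ∑ a : σ, ∑ b : σ, (if a = l then C (m (h a b)) * th m v₀ (zz i b) else 0) =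
      ∑ b : σ, C (m (h l b)) * th m v₀ (zz i b) := by
    rw [Finset.sum_eq_single l]
    · simp
    · intro a _ ha
      simp [ha]
    · intro hh
      exact absurd (Finset.mem_univ _) hh
  have h3 : ∑ a : σ, ∑ b : σ, (if b = l then C (m (h a b)) * th m v₀ (zz i a) else 0) =
      ∑ a : σ, C (m (h a l)) * th m v₀ (zz i a) := by
    refine Finset.sum_congr rfl fun a _ => ?_
    simp
  rw [h2, h3, ← Finset.sum_add_distrib]
  refine Finset.sum_congr rfl fun b _ => ?_
  rw [map_add, map_add]
  ring

theorem pd_qq_zero (m : B →+* κ) (v₀ : Option σ) (h : σ → σ → B) (i : σ)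
    (hv₀ : v₀ = some i ∨ v₀ = none) (v : {v : Option σ // v ≠ v₀})
    (hv : ∀ b, b ≠ i → v.1 ≠ some b) :
    pderiv v (th m v₀ (qq h i)) = 0 := by
  classical
  have hz : ∀ b : σ, pderiv v (th m v₀ (zz i b)) = 0 := by
    intro b
    rw [zz]
    by_cases hb : b = i
    · rw [if_pos hb, map_one]
      simp
    · have hb' : some b ≠ v₀ := by
        rcases hv₀ with h | h
        · rw [h]; simpa using hb
        · rw [h]; simp
      rw [if_neg hb, th_X m v₀ _ hb', pderiv_X, Pi.single_eq_of_ne]
      intro h3
      exact hv b hb (by rw [← h3])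
  rw [th_qq, map_sum]
  refine Finset.sum_eq_zero fun a _ => ?_
  rw [map_sum]
  refine Finset.sum_eq_zero fun b _ => ?_
  rw [mul_assoc, pderiv_C_mul, Derivation.leibniz, hz, hz]
  simp

/-- The contradiction. -/
theorem contra (m : B →+* κ) (v₀ : Option σ) (h : σ → σ → B) (i : σ)
    (hdet : m (Matrix.of fun a b => h a b + h b a).det ≠ 0)
    (P : Ideal (MvPolynomial {v : Option σ // v ≠ v₀} κ)) [hP : P.IsPrime]
    (h1 : ∀ l, l ≠ i → LL m v₀ h i l ∈ P) (h2 : 2 * th m v₀ (qq h i) ∈ P) : False := by
  classical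
  have hz : th m v₀ (zz i i) = 1 := by
    rw [zz, if_pos rfl, map_one]
  have h3 : LL m v₀ h i i ∈ P := by
    rw [euler, ← Finset.add_sum_erase _ _ (Finset.mem_univ i), hz, one_mul] at h2
    have h4 : ∑ x ∈ Finset.univ.erase i, th m v₀ (zz i x) * LL m v₀ h i x ∈ P := by
      refine P.sum_mem fun l hl => P.mul_mem_left _ (h1 l (Finset.ne_of_mem_erase hl))
    have h5 := P.sub_mem h2 h4
    rwa [add_sub_cancel_right] at h5
  have hall : ∀ l, LL m v₀ h i l ∈ P := by
    intro l
    by_cases hl : l = i
    · rw [hl]; exact h3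
    · exact h1 l hl
  let M : Matrix σ σ (MvPolynomial {v : Option σ // v ≠ v₀} κ) :=
    (Matrix.of fun a b => h a b + h b a).map ((C : κ →+* _).comp m)
  have hMz : ∀ l, (M.mulVec fun b => th m v₀ (zz i b)) l = LL m v₀ h i l := by
    intro l
    rw [LL, Matrix.mulVec, dotProduct]
    rfl
  have hadj : (M.adjugate.mulVec (M.mulVec fun b => th m v₀ (zz i b))) i = M.det := by
    rw [Matrix.mulVec_mulVec, Matrix.adjugate_mul, Matrix.smul_mulVec, Matrix.one_mulVec,
      Pi.smul_apply, hz, smul_eq_mul, mul_one]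
  have hdetP : M.det ∈ P := by
    rw [← hadj, Matrix.mulVec, dotProduct]
    refine P.sum_mem fun l _ => P.mul_mem_left _ ?_
    rw [hMz]
    exact hall l
  have hMd : M.det = C (m (Matrix.of fun a b => h a b + h b a).det) := by
    have := RingHom.map_det ((C : κ →+* MvPolynomial {v : Option σ // v ≠ v₀} κ).comp m)
      (Matrix.of fun a b => h a b + h b a)
    rw [RingHom.comp_apply] at this
    rw [this]
    rfl
  rw [hMd] at hdetP
  apply hP.ne_top
  rw [Ideal.eq_top_iff_one]
  have h6 := P.mul_mem_left (C (m (Matrix.of fun a b => h a b + h b a).det)⁻¹) hdetP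
  rwa [← map_mul, inv_mul_cancel₀ hdet, map_one] at h6

theorem C_notMem {τ : Type} (P : Ideal (MvPolynomial τ κ)) [hP : P.IsPrime] (g : κ) (hg : g ≠ 0)
    (h : C g ∈ P) : False := by
  apply hP.ne_top
  rw [Ideal.eq_top_iff_one]
  have h6 := P.mul_mem_left (C g⁻¹) h
  rwa [← map_mul, inv_mul_cancel₀ hg, map_one] at h6

end

theorem core {B σ A κ : Type} [CommRing B] [IsRegularRing B] [CommRing A] [Fintype σ]
    [DecidableEq σ] [Field κ]
    (m : B →+* κ) (hm : Function.Surjective m) (Q : Ideal B) [hQp : Q.IsPrime]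
    (hQ : RingHom.ker m = Q) (π : B) (y : σ → B)
    (hht : ((Fintype.card σ + 1 : ℕ) : ℕ∞) ≤ Q.height)
    (hgen : ∀ z ∈ Q, ∃ c, c ∉ Q ∧ c * z ∈ Ideal.span (insert π (Set.range y)))
    (h : σ → σ → B) (γ : B) (s k : ℕ) (i : σ)
    (pr : MvPolynomial (Option σ) B →+* A) (hpr : Function.Surjective pr)
    (hker : RingHom.ker pr = Ideal.span (insert (eqn π γ h s k i) (Set.range (rel π y s i))))
    (q : Ideal A) [hqp : q.IsPrime] (hq : ∀ b : B, pr (C b) ∈ q ↔ b ∈ Q)
    (v₀ : Option σ) (hv₀q : pr (X v₀) ∈ q)
    (hπ : pr (C π) ∈ Ideal.span {pr (X v₀)}) (hy : ∀ l, pr (C (y l)) ∈ Ideal.span {pr (X v₀)})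
    (hE2 : ∀ (P : Ideal (MvPolynomial {v : Option σ // v ≠ v₀} κ)) [P.IsPrime],
      P.comap (th m v₀) = q.comap pr → th m v₀ (eqn π γ h s k i) ∈ P →
      (∀ v, pderiv v (th m v₀ (eqn π γ h s k i)) ∈ P) → False) :
    IsRegularLocalRing (Localization.AtPrime q) := by
  classical
  have hE : pr (eqn π γ h s k i) = 0 := by
    rw [← RingHom.mem_ker, hker]
    exact Ideal.subset_span (Set.mem_insert _ _)
  have hkle : RingHom.ker (th m v₀) ≤ q.comap pr := by
    refine (ker_th m hm v₀).trans (sup_le ?_ ?_)
    · rw [Ideal.map_le_iff_le_comap]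
      intro b hb
      rw [Ideal.mem_comap, Ideal.mem_comap, hq, ← hQ]
      exact hb
    · rw [Ideal.span_singleton_le_iff_mem, Ideal.mem_comap]
      exact hv₀q
  have hcomap : ((q.comap pr).map (th m v₀)).comap (th m v₀) = q.comap pr := by
    rw [Ideal.comap_map_of_surjective _ (th_surj m hm v₀)]
    exact sup_eq_left.2 (by
      intro x hx
      exact hkle (by simpa using hx))
  have hP : ((q.comap pr).map (th m v₀)).IsPrime :=
    Ideal.map_isPrime_of_surjective (th_surj m hm v₀) hkle
  have hEP : th m v₀ (eqn π γ h s k i) ∈ (q.comap pr).map (th m v₀) := by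
    apply Ideal.mem_map_of_mem
    rw [Ideal.mem_comap, hE]
    exact q.zero_mem
  refine reg_crit_one pr hpr
    (insert (eqn π γ h s k i) (Finset.univ.image (rel π y s i))) ?_ q (th m v₀) (th_surj m hm v₀)
    hkle {X v₀} ?_ ?_ (eqn π γ h s k i) hE ?_ ?_
  · rw [hker]
    congr 1
    rw [Finset.coe_insert, Finset.coe_image, Finset.coe_univ, Set.image_univ]
  · intro x hx
    rw [Finset.mem_singleton] at hx
    rw [hx]
    exact hv₀q
  · have hle : RingHom.ker (th m v₀) ≤ locI pr q (Ideal.span {pr (X v₀)}) := by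
      refine (ker_th m hm v₀).trans (sup_le ?_ ?_)
      · rw [Ideal.map_le_iff_le_comap]
        intro b hb
        rw [hQ] at hb
        rw [Ideal.mem_comap, mem_locI]
        obtain ⟨c, hc, hcb⟩ := hgen b hb
        refine ⟨C c, fun h => hc ((hq c).1 h), ?_⟩
        rw [← map_mul]
        have h1 : Ideal.span (insert π (Set.range y)) ≤
            (Ideal.span {pr (X v₀)}).comap (pr.comp C) := by
          rw [Ideal.span_le]
          rintro _ (rfl | ⟨l, rfl⟩)
          · exact hπ
          · exact hy l
        exact h1 hcb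
      · rw [Ideal.span_singleton_le_iff_mem, mem_locI]
        refine ⟨1, ?_, ?_⟩
        · rw [map_one]
          exact (Ideal.ne_top_iff_one q).1 hqp.ne_top
        · rw [one_mul]
          exact Ideal.mem_span_singleton_self _
    intro x hx
    obtain ⟨c, hc, hcx⟩ := hle hx
    refine ⟨c, hc, ?_⟩
    rw [Finset.coe_singleton, Set.image_singleton]
    exact hcx
  · intro c hc hce
    exact hE2 _ hcomap hEP fun v => deriv_mem hc hEP hce v
  · have h1 : ((Fintype.card σ + 1 : ℕ) : ℕ∞) ≤
        (Q.map (C : B →+* MvPolynomial (Option σ) B)).height :=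
      height_map_ge C (fun P hP => prime_map_C P hP) (fun P => comap_map_C P) _ Q hht
    have hp1 : (Q.map (C : B →+* MvPolynomial (Option σ) B)).IsPrime := prime_map_C Q hQp
    have hp2 : (RingHom.ker (th m v₀)).IsPrime := RingHom.ker_isPrime _
    have hlt : Q.map (C : B →+* MvPolynomial (Option σ) B) < RingHom.ker (th m v₀) := by
      refine lt_of_le_of_ne ?_ ?_
      · rw [← hQ]
        exact map_C_le m v₀
      · intro h
        have h2 : (X v₀ : MvPolynomial (Option σ) B) ∈ Q.map C := by
          rw [h, RingHom.mem_ker, th_X0]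
        rw [mem_map_C] at h2
        have h3 := h2 (Finsupp.single v₀ 1)
        rw [coeff_X, if_pos rfl] at h3
        exact hQp.ne_top ((Ideal.eq_top_iff_one Q).2 h3)
    have h2 := Ideal.height_add_one_le_of_lt_of_isPrime hlt
    have h3 : (insert (eqn π γ h s k i) (Finset.univ.image (rel π y s i))).card ≤
        Fintype.card σ + 2 := by
      refine (Finset.card_insert_le _ _).trans ?_
      have h4 : (Finset.univ.image (rel π y s i)).card ≤ Fintype.card (Option σ) :=
        Finset.card_image_le
      rw [Fintype.card_option] at h4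
      omega
    calc (((({X v₀} : Finset (MvPolynomial (Option σ) B)).card +
          (insert (eqn π γ h s k i) (Finset.univ.image (rel π y s i))).card : ℕ)) : ℕ∞)
        ≤ ((Fintype.card σ + 1 : ℕ) : ℕ∞) + 1 + 1 := by
          have h5 : ({X v₀} : Finset (MvPolynomial (Option σ) B)).card +
              (insert (eqn π γ h s k i) (Finset.univ.image (rel π y s i))).card ≤
              Fintype.card σ + 1 + 1 + 1 := by
            rw [Finset.card_singleton]
            omega
          exact_mod_cast h5
      _ ≤ (Q.map (C : B →+* MvPolynomial (Option σ) B)).height + 1 + 1 := by gcongr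
      _ ≤ _ := by gcongr

theorem reg_aux {B σ A κ : Type} [CommRing B] [IsRegularRing B] [CommRing A] [Fintype σ]
    [DecidableEq σ] [Field κ]
    (m : B →+* κ) (hm : Function.Surjective m) (Q : Ideal B) [hQp : Q.IsPrime]
    (hQ : RingHom.ker m = Q) (π : B) (y : σ → B) (hπQ : π ∈ Q) (hyQ : ∀ j, y j ∈ Q)
    (hht : ((Fintype.card σ + 1 : ℕ) : ℕ∞) ≤ Q.height)
    (hgen : ∀ z ∈ Q, ∃ c, c ∉ Q ∧ c * z ∈ Ideal.span (insert π (Set.range y)))
    (h : σ → σ → B) (γ : B) (hγ : γ ∉ Q) (hdet : (Matrix.of fun a b => h a b + h b a).det ∉ Q)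
    (s k : ℕ) (i : σ)
    (pr : MvPolynomial (Option σ) B →+* A) (hpr : Function.Surjective pr)
    (hker : RingHom.ker pr = Ideal.span (insert (eqn π γ h s k i) (Set.range (rel π y s i))))
    (q : Ideal A) [hqp : q.IsPrime] (hq : ∀ b : B, pr (C b) ∈ q ↔ b ∈ Q) :
    IsRegularLocalRing (Localization.AtPrime q) := by
  classical
  have hmQ : ∀ b, m b = 0 ↔ b ∈ Q := fun b => by rw [← hQ, RingHom.mem_ker]
  have hdet' : m (Matrix.of fun a b => h a b + h b a).det ≠ 0 := fun h' => hdet ((hmQ _).1 h')
  have hγ' : m γ ≠ 0 := fun h' => hγ ((hmQ _).1 h')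
  have hπ' : m π = 0 := (hmQ _).2 hπQ
  have hrel : ∀ v, pr (rel π y s i v) = 0 := by
    intro v
    rw [← RingHom.mem_ker, hker]
    exact Ideal.subset_span (Set.mem_insert_of_mem _ ⟨v, rfl⟩)
  have hprπ : pr (C π) = pr (X (some i)) * pr (X none) := by
    have h1 := hrel none
    rw [rel, map_sub, map_mul, sub_eq_zero] at h1
    exact h1
  have hpry : ∀ l, pr (C (y l)) = pr (C π) ^ s * pr (X (some i)) * pr (zz i l) := by
    intro l
    have h1 := hrel (some l)
    rw [rel, map_sub, map_mul, map_mul, map_pow, sub_eq_zero] at h1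
    exact h1
  by_cases hu : pr (X (some i)) ∈ q
  · refine core m hm Q hQ π y hht hgen h γ s k i pr hpr hker q hq (some i) hu ?_ ?_ ?_
    · rw [hprπ]
      exact Ideal.mul_mem_right _ _ (Ideal.mem_span_singleton_self _)
    · intro l
      rw [hpry]
      exact Ideal.mul_mem_right _ _ (Ideal.mul_mem_left _ _ (Ideal.mem_span_singleton_self _))
    · intro P hP _ hEP hd
      have hLL : ∀ t e : MvPolynomial {v : Option σ // v ≠ some i} κ, (∀ v, pderiv v t ∈ P) →
          (∀ l (hl : some l ≠ some i), pderiv ⟨some l, hl⟩ e = 0) →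
          t = e + th m (some i) (qq h i) →
          ∀ l, l ≠ i → LL m (some i) h i l ∈ P := by
        intro t e hd he hE l hl
        have hl' : some l ≠ some i := by simpa using hl
        have h1 := hd ⟨some l, hl'⟩
        rw [hE, map_add, he l hl', zero_add, pd_qq m (some i) h i l hl (Or.inl rfl) hl'] at h1
        exact h1
      rw [eqn] at hEP hd
      split_ifs at hEP hd with hk1 hk2
      · have h1 : th m (some i) (C γ + X (some i) ^ 2 * qq h i) = C (m γ) := by
          rw [map_add, map_mul, map_pow, th_X0, th_C]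
          ring
        rw [h1] at hEP
        exact C_notMem P _ hγ' hEP
      · have h1 : th m (some i) (X none * C γ + X (some i) * qq h i) =
            C (m γ) * X ⟨none, by simp⟩ := by
          rw [map_add, map_mul, map_mul, th_X0, th_C, th_X m (some i) none (by simp)]
          ring
        have h2 := hd ⟨none, by simp⟩
        rw [h1, pderiv_C_mul, pderiv_X_self, mul_one] at h2
        exact C_notMem P _ hγ' h2
      · set g : κ := m π ^ (k - 2 * s - 2) * m γ with hg
        have h1 : th m (some i) (X none ^ 2 * C π ^ (k - 2 * s - 2) * C γ + qq h i) =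
            C g * X ⟨none, by simp⟩ ^ 2 + th m (some i) (qq h i) := by
          rw [map_add, map_mul, map_mul, map_pow, map_pow, th_C, th_C,
            th_X m (some i) none (by simp), hg, map_mul, map_pow]
          ring
        have hl1 := hLL _ _ hd (by
          intro l hl
          have hne : (⟨none, by simp⟩ : {v : Option σ // v ≠ some i}) ≠ ⟨some l, hl⟩ := fun h' =>
            Option.some_ne_none l (congrArg Subtype.val h').symm
          have hz : pderiv (⟨some l, hl⟩ : {v : Option σ // v ≠ some i})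
              (X ⟨none, by simp⟩ : MvPolynomial {v : Option σ // v ≠ some i} κ) = 0 :=
            pderiv_X_of_ne hne
          rw [pderiv_C_mul, pderiv_pow, hz, mul_zero, mul_zero]) h1
        refine contra m (some i) h i hdet' P hl1 ?_
        have h2 := hd ⟨none, by simp⟩
        rw [h1, map_add, pd_qq_zero m (some i) h i (Or.inl rfl) ⟨none, by simp⟩ (by simp),
          add_zero, pderiv_C_mul, pderiv_pow, pderiv_X_self] at h2
        rw [h1] at hEP
        have h3 := P.sub_mem (P.mul_mem_left 2 hEP)
          (P.mul_mem_left (X ⟨none, by simp⟩) h2)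
        convert h3 using 1
        push_cast
        ring
  · have hw : pr (X none) ∈ q := by
      have h1 : pr (C π) ∈ q := (hq π).2 hπQ
      rw [hprπ] at h1
      exact (hqp.mem_or_mem h1).resolve_left hu
    have hs : 1 ≤ s := by
      by_contra hs
      have hs0 : s = 0 := by omega
      have h1 : pr (C (y i)) ∈ q := (hq _).2 (hyQ i)
      rw [hpry, hs0, pow_zero, one_mul, zz, if_pos rfl, map_one, mul_one] at h1
      exact hu h1
    have hπK : pr (C π) ∈ Ideal.span {pr (X (none : Option σ))} := by
      rw [hprπ]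
      exact Ideal.mul_mem_left _ _ (Ideal.mem_span_singleton_self _)
    refine core m hm Q hQ π y hht hgen h γ s k i pr hpr hker q hq none hw hπK ?_ ?_
    · intro l
      rw [hpry]
      refine Ideal.mul_mem_right _ _ (Ideal.mul_mem_right _ _ ?_)
      exact Ideal.pow_mem_of_mem _ hπK s (by omega)
    · intro P hP hPc hEP hd
      have hu' : (X ⟨some i, by simp⟩ : MvPolynomial {v : Option σ // v ≠ none} κ) ∉ P := by
        intro h'
        apply hu
        have h1 : (X (some i) : MvPolynomial (Option σ) B) ∈ P.comap (th m none) := by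
          rw [Ideal.mem_comap, th_X m none (some i) (by simp)]
          exact h'
        rw [hPc] at h1
        exact h1
      have hLu : ∀ (l : σ) (hl : some l ≠ (none : Option σ)), l ≠ i →
          pderiv (⟨some l, hl⟩ : {v : Option σ // v ≠ none})
            (X ⟨some i, by simp⟩ : MvPolynomial {v : Option σ // v ≠ none} κ) = 0 := by
        intro l hl hli
        rw [pderiv_X_of_ne]
        intro h'
        have h2 := congrArg Subtype.val h'
        exact hli (Option.some_injective _ h2).symm
      have hqi : pderiv (⟨some i, by simp⟩ : {v : Option σ // v ≠ none})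
          (th m none (qq h i)) = 0 :=
        pd_qq_zero m none h i (Or.inr rfl) ⟨some i, by simp⟩ (by
          intro b hb h'
          exact hb (Option.some_injective _ h').symm)
      rw [eqn] at hEP hd
      split_ifs at hEP hd with hk1 hk2
      · have h1 : th m none (C γ + X (some i) ^ 2 * qq h i) =
            C (m γ) + X ⟨some i, by simp⟩ ^ 2 * th m none (qq h i) := by
          rw [map_add, map_mul, map_pow, th_C, th_X m none (some i) (by simp)]
        refine contra m none h i hdet' P ?_ ?_
        · intro l hl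
          have h2 := hd ⟨some l, by simp⟩
          rw [h1, map_add, pderiv_C, zero_add, Derivation.leibniz, pderiv_pow,
            hLu l (by simp) hl, mul_zero, smul_zero, add_zero,
            pd_qq m none h i l hl (Or.inr rfl) (by simp), smul_eq_mul] at h2
          exact ((hP.mem_or_mem h2).resolve_left fun h' => hu' (hP.mem_of_pow_mem _ h'))
        · have h2 := hd ⟨some i, by simp⟩
          rw [h1, map_add, pderiv_C, zero_add, Derivation.leibniz, pderiv_pow, hqi,
            pderiv_X_self, smul_zero, zero_add, smul_eq_mul] at h2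
          have h3 : (X ⟨some i, by simp⟩ : MvPolynomial {v : Option σ // v ≠ none} κ) *
              (2 * th m none (qq h i)) ∈ P := by
            convert h2 using 1
            push_cast
            ring
          exact (hP.mem_or_mem h3).resolve_left hu'
      · have h1 : th m none (X none * C γ + X (some i) * qq h i) =
            X ⟨some i, by simp⟩ * th m none (qq h i) := by
          rw [map_add, map_mul, map_mul, th_X0, zero_mul, zero_add, th_X m none (some i) (by simp)]
        refine contra m none h i hdet' P ?_ ?_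
        · intro l hl
          have h2 := hd ⟨some l, by simp⟩
          rw [h1, Derivation.leibniz, hLu l (by simp) hl, smul_zero, add_zero,
            pd_qq m none h i l hl (Or.inr rfl) (by simp), smul_eq_mul] at h2
          exact (hP.mem_or_mem h2).resolve_left hu'
        · rw [h1] at hEP
          exact P.mul_mem_left 2 ((hP.mem_or_mem hEP).resolve_left hu')
      · have h1 : th m none (X none ^ 2 * C π ^ (k - 2 * s - 2) * C γ + qq h i) =
            th m none (qq h i) := by
          rw [map_add, map_mul, map_mul, map_pow, th_X0]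
          ring
        refine contra m none h i hdet' P ?_ ?_
        · intro l hl
          have h2 := hd ⟨some l, by simp⟩
          rw [h1, pd_qq m none h i l hl (Or.inr rfl) (by simp)] at h2
          exact h2
        · rw [h1] at hEP
          exact P.mul_mem_left 2 hEP

end RegL

theorem reg : S_REG := by
  intro B σ A _ _ _ _ _ Q hQm π y hπQ hyQ hht hgen h γ hγ hdet s k i _ _ pr hpr hker q _ hq
  letI : Field (B ⧸ Q) := Ideal.Quotient.field Q
  have hQp : Q.IsPrime := hQm.isPrime
  exact RegL.reg_aux (Ideal.Quotient.mk Q) Ideal.Quotient.mk_surjective Q Ideal.mk_ker π y hπQ hyQ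
    hht hgen h γ hγ hdet s k i pr hpr hker q hq

end Pool.Agent.Helper21K9.OD
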