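import Pool.Agent.Helper21K9.OD.Lg

/-! [REP] The normal form of an equation at a nondegenerate critical point. -/

set_option autoImplicit false

open MvPolynomial

namespace Pool.Agent.Helper21K9.OD

namespace RepL

/-- membership in the ideal generated by `p` and finitely many `y` -/
theorem mem_iff {B σ : Type} [CommRing B] [Fintype σ] {p z : B} {y : σ → B} :
    z ∈ Ideal.span (insert p (Set.range y)) ↔ ∃ (a : B) (l : σ → B),
      z = p * a + ∑ i, l i * y i := by
  rw [Ideal.mem_span_insert]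
  constructor
  · rintro ⟨a, w, hw, rfl⟩
    obtain ⟨l, rfl⟩ := Ideal.mem_span_range_iff_exists_fun.1 hw
    exact ⟨a, l, by rw [mul_comm a p]⟩
  · rintro ⟨a, l, rfl⟩
    exact ⟨a, _, Ideal.mem_span_range_iff_exists_fun.2 ⟨l, rfl⟩, by rw [mul_comm a p]⟩

/-- Krull's height theorem: no power of `π` is locally in the ideal of the `y` -/
theorem not_mem {B σ : Type} [CommRing B] [IsNoetherianRing B] [Fintype σ] (Q : Ideal B)
    [hQ : Q.IsPrime] (π : B) (y : σ → B) (hy : ∀ j, y j ∈ Q)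
    (hht : ((Fintype.card σ + 1 : ℕ) : ℕ∞) ≤ Q.height)
    (hgen : ∀ z ∈ Q, ∃ c, c ∉ Q ∧ c * z ∈ Ideal.span (insert π (Set.range y)))
    (v : ℕ) (c : B) (hc : c ∉ Q) : c * π ^ v ∉ Ideal.span (Set.range y) := by
  classical
  intro hm
  have hmin : Q ∈ (Ideal.span (Set.range y)).minimalPrimes := by
    refine ⟨⟨hQ, ?_⟩, ?_⟩
    · rw [Ideal.span_le]
      rintro _ ⟨j, rfl⟩
      exact hy j
    · rintro p ⟨hp, hle⟩ hpQ z hz
      have hπ : π ∈ p := by
        rcases hp.mem_or_mem (hle hm) with h | h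
        · exact absurd (hpQ h) hc
        · exact hp.mem_of_pow_mem _ h
      obtain ⟨c', hc', hm'⟩ := hgen z hz
      have h1 : Ideal.span (insert π (Set.range y)) ≤ p := by
        rw [Ideal.span_le, Set.insert_subset_iff]
        exact ⟨hπ, Ideal.span_le.1 hle⟩
      rcases hp.mem_or_mem (h1 hm') with h | h
      · exact absurd (hpQ h) hc'
      · exact h
  have h1 := Ideal.height_le_card_of_mem_minimalPrimes_span (Set.finite_range y) hmin
  have h2 : (Set.range y).ncard ≤ Fintype.card σ := by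
    rw [← Nat.card_eq_fintype_card, ← Set.image_univ]
    exact (Set.ncard_image_le Set.finite_univ).trans_eq (Set.ncard_univ σ)
  have h3 := hht.trans h1
  have h4 : Fintype.card σ + 1 ≤ (Set.range y).ncard := by exact_mod_cast h3
  omega

/-- the exponent `k` -/
theorem exists_k {B σ : Type} [CommRing B] [IsNoetherianRing B] [Fintype σ] (Q : Ideal B)
    [hQ : Q.IsPrime] (π : B) (y : σ → B) (hπ : π ∈ Q) (hy : ∀ j, y j ∈ Q)
    (hht : ((Fintype.card σ + 1 : ℕ) : ℕ∞) ≤ Q.height)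
    (hgen : ∀ z ∈ Q, ∃ c, c ∉ Q ∧ c * z ∈ Ideal.span (insert π (Set.range y)))
    (f : B) (hf : f ∈ Q) (v : ℕ)
    (hv : ∃ c, c ∉ Q ∧ c * π ^ v ∈ Ideal.span (insert f (Set.range y))) :
    ∃ (k : ℕ) (c γ : B) (l : σ → B), 1 ≤ k ∧ k ≤ v ∧ c ∉ Q ∧ γ ∉ Q ∧
      c * f = π ^ k * γ + ∑ i, l i * y i := by
  classical
  let P : ℕ → Prop := fun m => ∃ c, c ∉ Q ∧ c * f ∈ Ideal.span (insert (π ^ m) (Set.range y))
  have hP1 : P 1 := by
    obtain ⟨c, hc, hm⟩ := hgen f hf
    exact ⟨c, hc, by rw [pow_one]; exact hm⟩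
  have hPv : ¬ P (v + 1) := by
    rintro ⟨c, hc, hm⟩
    obtain ⟨c', hc', hm'⟩ := hv
    obtain ⟨a, l, h1⟩ := mem_iff.1 hm
    obtain ⟨α, β, h2⟩ := mem_iff.1 hm'
    refine not_mem Q π y hy hht hgen v (c * c' - α * π * a) ?_ ?_
    · intro h
      have h3 : c * c' ∈ Q := by
        have h4 : c * c' = (c * c' - α * π * a) + π * (α * a) := by ring
        rw [h4]
        exact Q.add_mem h (Q.mul_mem_right _ hπ)
      exact (hQ.mem_or_mem h3).elim hc hc'
    · have h3 : (c * c' - α * π * a) * π ^ v =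
          α * (∑ i, l i * y i) + c * ∑ i, β i * y i := by
        linear_combination c * h2 + α * h1
      rw [h3]
      exact Ideal.add_mem _
        (Ideal.mul_mem_left _ _ (Ideal.mem_span_range_iff_exists_fun.2 ⟨l, rfl⟩))
        (Ideal.mul_mem_left _ _ (Ideal.mem_span_range_iff_exists_fun.2 ⟨β, rfl⟩))
  obtain ⟨k, hk1, hkv, hPk, hPk'⟩ : ∃ k, 1 ≤ k ∧ k ≤ v ∧ P k ∧ ¬ P (k + 1) := by
    by_contra hcon
    push Not at hcon
    have : ∀ k, 1 ≤ k → k ≤ v + 1 → P k := by
      intro k hk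
      induction k, hk using Nat.le_induction with
      | base => intro _; exact hP1
      | succ n hn ih => intro h; exact hcon n hn (by omega) (ih (by omega))
    exact hPv (this (v + 1) (by omega) le_rfl)
  obtain ⟨c, hc, hm⟩ := hPk
  obtain ⟨γ, l, hcf⟩ := mem_iff.1 hm
  refine ⟨k, c, γ, l, hk1, hkv, hc, ?_, hcf⟩
  intro h
  obtain ⟨c', hc', hm'⟩ := hgen γ h
  obtain ⟨a, b, h1⟩ := mem_iff.1 hm'
  refine hPk' ⟨c' * c, fun h => (hQ.mem_or_mem h).elim hc' hc, mem_iff.2
    ⟨a, fun i => π ^ k * b i + c' * l i, ?_⟩⟩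
  have h2 : ∑ i, (π ^ k * b i + c' * l i) * y i =
      π ^ k * (∑ i, b i * y i) + c' * ∑ i, l i * y i := by
    rw [Finset.mul_sum, Finset.mul_sum, ← Finset.sum_add_distrib]
    exact Finset.sum_congr rfl fun i _ => by ring
  rw [h2]
  linear_combination c' * hcf + π ^ k * h1

/-- the second step: the coefficients `l` are locally in `(p) + (y)` -/
theorem step2 {B σ : Type} [CommRing B] [Fintype σ] [DecidableEq σ] (J : Ideal B)
    (H : Matrix σ σ B) (l : σ → B) (c : B) (h : ∀ j, c * ∑ i, l i * H i j ∈ J) (i : σ) :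
    (c * H.det) * l i ∈ J := by
  have h1 : H.adjugate.transpose.mulVec (H.transpose.mulVec l) = H.det • l := by
    rw [Matrix.mulVec_mulVec, ← Matrix.transpose_mul, Matrix.mul_adjugate,
      Matrix.transpose_smul, Matrix.transpose_one, Matrix.smul_mulVec, Matrix.one_mulVec]
  have h2 := congrFun h1 i
  rw [Pi.smul_apply, smul_eq_mul] at h2
  rw [mul_assoc, ← h2, Matrix.mulVec, dotProduct, Finset.mul_sum]
  refine Ideal.sum_mem _ fun j _ => ?_
  have h3 : c * (H.adjugate.transpose i j * (H.transpose.mulVec l) j) =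
      H.adjugate.transpose i j * (c * ∑ a, l a * H a j) := by
    have h4 : (H.transpose.mulVec l) j = ∑ a, l a * H a j := by
      rw [Matrix.mulVec, dotProduct]
      exact Finset.sum_congr rfl fun a _ => by rw [Matrix.transpose_apply, mul_comm]
    rw [h4]
    ring
  rw [h3]
  exact Ideal.mul_mem_left _ _ (h j)

/-- the first derivatives of `c f = p γ + ∑ l_i y_i` -/
theorem step3 {R σ : Type} [CommRing R] [Fintype σ] [DecidableEq σ] (f : MvPolynomial σ R)
    (p : R) (c γ : MvPolynomial σ R) (l : σ → MvPolynomial σ R)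
    (h : c * f = C p * γ + ∑ i, l i * pderiv i f) (j : σ) :
    c * ∑ i, l i * hess f i j ∈ Ideal.span (insert (C p) (Set.range fun j => pderiv j f)) := by
  have h1 := congrArg (fun x => pderiv j x) h
  simp only [Derivation.leibniz, map_add, map_sum, smul_eq_mul, pderiv_C, mul_zero, add_zero,
    Finset.sum_add_distrib] at h1
  have h2 : ∑ i, l i * hess f i j = ∑ i, l i * pderiv j (pderiv i f) := by
    refine Finset.sum_congr rfl fun i _ => ?_
    rw [hess, Matrix.of_apply, LgL.pderiv_swap]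
  have h3 : ∑ i, pderiv i f * pderiv j (l i) = ∑ i, pderiv j (l i) * pderiv i f :=
    Finset.sum_congr rfl fun i _ => mul_comm _ _
  rw [h3] at h1
  have h4 : c * ∑ i, l i * hess f i j = C p * (pderiv j c * γ - c * pderiv j γ) +
      (pderiv j c * (∑ i, l i * pderiv i f) + c * c * pderiv j f -
        c * ∑ i, pderiv j (l i) * pderiv i f) := by
    rw [h2]
    linear_combination pderiv j c * h - c * h1
  rw [h4]
  have hS : ∀ u : σ → MvPolynomial σ R, ∑ i, u i * pderiv i f ∈
      Ideal.span (insert (C p) (Set.range fun j => pderiv j f)) := fun u =>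
    Ideal.sum_mem _ fun i _ => Ideal.mul_mem_left _ _
      (Ideal.subset_span (Set.mem_insert_of_mem _ ⟨i, rfl⟩))
  refine Ideal.add_mem _ (Ideal.mul_mem_right _ _ (Ideal.subset_span (Set.mem_insert _ _)))
    (Ideal.sub_mem _ (Ideal.add_mem _ (Ideal.mul_mem_left _ _ (hS _)) (Ideal.mul_mem_left _ _
      (Ideal.subset_span (Set.mem_insert_of_mem _ ⟨j, rfl⟩)))) (Ideal.mul_mem_left _ _ (hS _)))

theorem sum_aux {D σ : Type} [CommRing D] [Fintype σ] (A t : σ → σ → D)
    (hA : ∀ i j, A i j = A j i) (i j : σ) :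
    ∑ x, ∑ z, (A j z * (t x z * A i x) + t x z * A j x * A i z) =
      ∑ x, (∑ z, A i z * (t z x + t x z)) * A x j := by
  have h1 : ∑ x, (∑ z, A i z * (t z x + t x z)) * A x j =
      ∑ x, ∑ z, (A j x * (t z x * A i z)) + ∑ x, ∑ z, t x z * A j x * A i z := by
    rw [← Finset.sum_add_distrib]
    refine Finset.sum_congr rfl fun x _ => ?_
    rw [Finset.sum_mul, ← Finset.sum_add_distrib]
    refine Finset.sum_congr rfl fun z _ => ?_
    rw [hA x j]
    ring
  rw [h1, Finset.sum_comm (f := fun x z => A j x * (t z x * A i z)), ← Finset.sum_add_distrib]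
  refine Finset.sum_congr rfl fun x _ => ?_
  rw [← Finset.sum_add_distrib]

/-- the second derivatives -/
theorem step4 {R σ : Type} [CommRing R] [Fintype σ] [DecidableEq σ] (f : MvPolynomial σ R)
    (Q : Ideal (MvPolynomial σ R)) [hQ : Q.IsPrime] (p : R) (hp : C p ∈ Q) (hf : f ∈ Q)
    (hy : ∀ j, pderiv j f ∈ Q) (hdet : (hess f).det ∉ Q)
    (c γ : MvPolynomial σ R) (hc : c ∉ Q) (h : σ → σ → MvPolynomial σ R)
    (hcf : c * f = C p * γ + ∑ i, ∑ j, h i j * pderiv i f * pderiv j f) :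
    (Matrix.of fun i j => h i j + h j i).det ∉ Q := by
  let D := MvPolynomial σ R ⧸ Q
  let π : MvPolynomial σ R →+* D := Ideal.Quotient.mk Q
  have hπ : ∀ x, π x = 0 ↔ x ∈ Q := fun x => Ideal.Quotient.eq_zero_iff_mem
  have hπf : π f = 0 := (hπ _).2 hf
  have hπp : π (C p) = 0 := (hπ _).2 hp
  have hπy : ∀ j, π (pderiv j f) = 0 := fun j => (hπ _).2 (hy j)
  let Hm : Matrix σ σ D := π.mapMatrix (hess f)
  let S : Matrix σ σ D := π.mapMatrix (Matrix.of fun i j => h i j + h j i)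
  have hsym : ∀ i j, π (pderiv i (pderiv j f)) = π (pderiv j (pderiv i f)) := fun i j => by
    rw [LgL.pderiv_swap]
  have key : π c • Hm = Hm * S * Hm := by
    ext i j
    have h1 := congrArg (fun x => π (pderiv i (pderiv j x))) hcf
    simp only [Derivation.leibniz, map_add, map_sum, map_mul, smul_eq_mul, pderiv_C, hπf, hπp,
      hπy, mul_zero, zero_mul, add_zero, zero_add] at h1
    rw [Matrix.smul_apply, smul_eq_mul, Matrix.mul_apply]
    simp only [Matrix.mul_apply, Hm, S, RingHom.mapMatrix_apply, Matrix.map_apply, hess,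
      Matrix.of_apply, map_add]
    rw [h1]
    exact sum_aux (fun a b => π (pderiv a (pderiv b f))) (fun a b => π (h a b)) hsym i j
  intro h0
  have hS : S.det = 0 := by
    rw [← RingHom.map_det]
    exact (hπ _).2 h0
  have hk := congrArg Matrix.det key
  rw [Matrix.det_mul, Matrix.det_mul, Matrix.det_smul, hS, mul_zero,
    zero_mul, ← RingHom.map_det] at hk
  rcases mul_eq_zero.1 hk with h | h
  · exact hc ((hπ _).1 (pow_eq_zero_iff'.1 h).1)
  · exact hdet ((hπ _).1 h)

/-- collecting the terms -/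
theorem assemble {B σ : Type} [CommRing B] [Fintype σ] (f c γ d p : B) (y l a : σ → B)
    (b : σ → σ → B) (hcf : c * f = p * γ + ∑ i, l i * y i)
    (hab : ∀ i, d * l i = p * a i + ∑ j, b i j * y j) :
    (d * c) * f = p * (d * γ + ∑ i, a i * y i) + ∑ i, ∑ j, b i j * y i * y j := by
  have h4 : ∑ i, (d * l i) * y i = p * (∑ i, a i * y i) + ∑ i, ∑ j, b i j * y i * y j := by
    rw [Finset.mul_sum, ← Finset.sum_add_distrib]
    refine Finset.sum_congr rfl fun i _ => ?_
    rw [hab i, add_mul, Finset.sum_mul]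
    congr 1
    · ring
    · exact Finset.sum_congr rfl fun j _ => by ring
  have h5 : ∑ i, (d * l i) * y i = d * ∑ i, l i * y i := by
    rw [Finset.mul_sum]
    exact Finset.sum_congr rfl fun i _ => by ring
  rw [h5] at h4
  linear_combination d * hcf + h4

end RepL

open RepL in
/-- [REP] -/
theorem rep (lg : S_LG) : S_REP := by
  intro R σ _ _ _ _ _ ϖ hϖ f Q hQ hC hf hy hdet v hv
  classical
  obtain ⟨-, hht, hgen⟩ := lg R σ ϖ hϖ f Q hQ hC hy hdet
  have hϖQ : C ϖ ∈ Q := (hC ϖ).2 hϖ.not_isUnit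
  obtain ⟨k, c, γ, l, hk1, hkv, hc, hγ, hcf⟩ :=
    exists_k Q (C ϖ) (fun j => pderiv j f) hϖQ hy hht hgen f hf v hv
  have hH := step3 f (ϖ ^ k) c γ l (by rw [C_pow]; exact hcf)
  have h2 := step2 _ (hess f) l c hH
  have h3 : ∀ i, ∃ (a : MvPolynomial σ R) (b : σ → MvPolynomial σ R),
      (c * (hess f).det) * l i = C (ϖ ^ k) * a + ∑ j, b j * pderiv j f := fun i =>
    mem_iff.1 (h2 i)
  choose a b hab using h3
  have hd : c * (hess f).det ∉ Q := fun h => (hQ.mem_or_mem h).elim hc hdet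
  obtain ⟨d, hdd⟩ : ∃ d, d = c * (hess f).det := ⟨_, rfl⟩
  rw [← hdd] at hd
  have hab' : ∀ i, d * l i = C ϖ ^ k * a i + ∑ j, b i j * pderiv j f := fun i => by
    rw [hdd, hab i, C_pow]
  have hmain := assemble f c γ d (C ϖ ^ k) (fun j => pderiv j f) l a b hcf hab'
  have hc1 : d * c ∉ Q := fun h => (hQ.mem_or_mem h).elim hd hc
  refine ⟨k, d * c, _, b, hk1, hkv, hc1, ?_, hmain, ?_⟩
  · intro h
    have h6 : ∑ i, a i * pderiv i f ∈ Q := Ideal.sum_mem _ fun i _ =>
      Ideal.mul_mem_left _ _ (hy i)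
    have h7 := Q.sub_mem h h6
    rw [add_sub_cancel_right] at h7
    exact (hQ.mem_or_mem h7).elim hd hγ
  · refine step4 f Q (ϖ ^ k) ?_ hf hy hdet _ _ hc1 b (by rw [C_pow]; exact hmain)
    rw [C_pow]
    exact Ideal.pow_mem_of_mem _ hϖQ _ (by omega)

end Pool.Agent.Helper21K9.OD
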