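import Pool.Agent.Helper21K9.OD.Forms
import Pool.Agent.TH214.RM.Smooth

/-! Smooth forms over the prime fields: the Fermat form if `p` does not divide `d`, and
`x_0 ^ d + ∑ x_i x_(i+1) ^ (d-1)` otherwise. -/

set_option autoImplicit false

open MvPolynomial

namespace Pool.Agent.Helper21K9.OD

open Pool.Agent.TH214.RM Pool.Agent.Helper21K9.SV Pool.Agent.H918R2.Quad

namespace SmL

theorem form_coeff {R : Type} [CommRing R] {n d : ℕ} (G : MvPolynomial (Fin (n + 2)) R)
    (hG : G.IsHomogeneous d) : form (n := n) (d := d) (fun m => coeff m.1 G) = G := by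
  classical
  ext m'
  unfold form
  rw [coeff_sum]
  simp only [coeff_monomial]
  by_cases h : m' ∈ Finset.finsuppAntidiag (Finset.univ : Finset (Fin (n + 2))) d
  · rw [Finset.sum_eq_single (⟨m', h⟩ : Mon n d)]
    · simp
    · intro b _ hb
      rw [if_neg]
      intro h'
      exact hb (Subtype.ext h')
    · intro h'
      exact absurd (Finset.mem_univ _) h'
  · rw [Finset.sum_eq_zero]
    · symm
      by_contra hne
      apply h
      rw [Finset.mem_finsuppAntidiag]
      refine ⟨?_, Finset.subset_univ _⟩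
      have h1 := hG hne
      rw [Finsupp.weight_apply] at h1
      simp only [Pi.one_apply, smul_eq_mul, mul_one] at h1
      rw [← h1, Finsupp.sum_fintype]
      intro i
      rfl
    · intro b _
      rw [if_neg]
      rintro rfl
      exact h b.2

theorem form_add {R : Type} [CommRing R] {n d : ℕ} (a b : Mon n d → R) :
    form (fun m => a m + b m) = form a + form b := by
  unfold form
  rw [← Finset.sum_add_distrib]
  exact Finset.sum_congr rfl fun m _ => by rw [map_add]

theorem form_mul {R : Type} [CommRing R] {n d : ℕ} (c : R) (b : Mon n d → R) :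
    form (fun m => c * b m) = C c * form b := by
  unfold form
  rw [Finset.mul_sum]
  exact Finset.sum_congr rfl fun m _ => by rw [C_mul_monomial]

theorem form_hom {R : Type} [CommRing R] {n d : ℕ} (a : Mon n d → R) :
    (form a).IsHomogeneous d := by
  unfold form
  refine IsHomogeneous.sum _ _ _ fun m _ => ?_
  refine isHomogeneous_monomial _ ?_
  have h := (Finset.mem_finsuppAntidiag.1 m.2).1
  rw [Finsupp.degree_eq_sum]
  exact h

theorem transfer {n d p : ℕ} (G₀ : MvPolynomial (Fin (n + 2)) ℤ) (hG₀ : G₀.IsHomogeneous d)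
    (h : ∀ (s : Fin (n + 2)) (Q : Ideal (MvPolynomial {j // j ≠ s} ℤ)), Q.IsPrime →
      (∀ z : ℤ, C z ∈ Q ↔ (p : ℤ) ∣ z) → deh s G₀ ∈ Q → (∀ j, deh s (pderiv j G₀) ∈ Q) → False) :
    ∃ r : Mon n d → ℤ, ∀ a : Mon n d → ℤ,
    (∀ m, (p : ℤ) ∣ a m - r m) → ∀ (s : Fin (n + 2)) (Q : Ideal (MvPolynomial {j // j ≠ s} ℤ)),
    Q.IsPrime → (∀ z : ℤ, C z ∈ Q ↔ (p : ℤ) ∣ z) → deh s (form a) ∈ Q →
    ∃ j, pderiv j (deh s (form a)) ∉ Q := by
  refine ⟨fun m => coeff m.1 G₀, ?_⟩
  intro a ha s Q hQ hCQ hdeh
  by_contra hcon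
  push Not at hcon
  choose c hc using ha
  have hform : form a = G₀ + C (p : ℤ) * form c := by
    have h1 : a = fun m : Mon n d => coeff m.1 G₀ + (p : ℤ) * c m := by
      funext m
      have h1 := hc m
      simp only at h1
      linarith
    rw [← form_mul]
    conv_rhs => rw [← form_coeff G₀ hG₀]
    rw [← form_add, h1]
  have hpQ : (C (p : ℤ) : MvPolynomial {j // j ≠ s} ℤ) ∈ Q := (hCQ _).2 dvd_rfl
  have hall := all_pderiv_mem (form a) d (form_hom a) s Q hdeh hcon
  have hC : ∀ G : MvPolynomial (Fin (n + 2)) ℤ, deh s (C (p : ℤ) * G) ∈ Q := by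
    intro G
    rw [deh_hom]
    refine Ideal.mul_mem_right _ _ ?_
    have : deh s (C (p : ℤ) : MvPolynomial (Fin (n + 2)) ℤ) = C (p : ℤ) := by
      unfold deh
      rw [aeval_C]
      rfl
    rw [this]
    exact hpQ
  have hadd : ∀ G G' : MvPolynomial (Fin (n + 2)) ℤ, deh s (G + G') = deh s G + deh s G' :=
    fun G G' => map_add _ _ _
  refine h s Q hQ hCQ ?_ ?_
  · rw [hform, hadd] at hdeh
    exact (Submodule.add_mem_iff_left Q (hC _)).1 hdeh
  · intro j
    have h2 := hall j
    rw [hform, map_add, pderiv_C_mul, hadd] at h2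
    exact (Submodule.add_mem_iff_left Q (hC _)).1 h2

end SmL

open SmL in
/-- [SM] -/
theorem sm : S_SM := by
  classical
  intro n d p hd hp
  have hdX : ∀ (s i : Fin (n + 2)), deh s (X i : MvPolynomial (Fin (n + 2)) ℤ) = tau s i := by
    intro s i
    unfold deh
    rw [aeval_X]
  have hdC : ∀ (s : Fin (n + 2)) (z : ℤ), deh s (C z : MvPolynomial (Fin (n + 2)) ℤ) = C z := by
    intro s z
    unfold deh
    rw [aeval_C]
    rfl
  have hss : ∀ s : Fin (n + 2), (tau s s : MvPolynomial {j // j ≠ s} ℤ) = 1 := by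
    intro s
    unfold tau
    rw [dif_pos rfl]
  have hpow : ∀ (s : Fin (n + 2)) (G : MvPolynomial (Fin (n + 2)) ℤ) (k : ℕ),
      deh s (G ^ k) = deh s G ^ k := fun s G k => map_pow _ _ _
  by_cases hpd : (p : ℤ) ∣ d
  · -- the chain form
    have hG : (X 0 ^ d + ∑ i : Fin (n + 1), X i.castSucc * X i.succ ^ (d - 1) :
        MvPolynomial (Fin (n + 2)) ℤ).IsHomogeneous d := by
      refine IsHomogeneous.add (isHomogeneous_X_pow 0 d) ?_
      refine IsHomogeneous.sum _ _ _ fun i _ => ?_
      have h1 := (isHomogeneous_X ℤ (i.castSucc : Fin (n + 2))).mul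
        (isHomogeneous_X_pow (R := ℤ) (i.succ : Fin (n + 2)) (d - 1))
      have h2 : 1 + (d - 1) = d := by omega
      rwa [h2] at h1
    refine transfer _ hG ?_
    intro s Q hQ hCQ hdeh hall
    have hadd : ∀ G G' : MvPolynomial (Fin (n + 2)) ℤ, deh s (G + G') = deh s G + deh s G' :=
      fun G G' => map_add _ _ _
    have hsum : ∀ g : Fin (n + 1) → MvPolynomial (Fin (n + 2)) ℤ,
        deh s (∑ i, g i) = ∑ i, deh s (g i) := fun g => map_sum _ _ _
    have hpd' : ∀ (j i : Fin (n + 2)), pderiv j (X i ^ d : MvPolynomial (Fin (n + 2)) ℤ) =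
        C (d : ℤ) * (X i ^ (d - 1) * pderiv j (X i)) := by
      intro j i
      rw [Derivation.leibniz_pow]
      simp
    have hterm : ∀ (j : Fin (n + 2)) (i : Fin (n + 1)),
        pderiv j (X i.castSucc * X i.succ ^ (d - 1) : MvPolynomial (Fin (n + 2)) ℤ) =
          X i.castSucc * (C ((d - 1 : ℕ) : ℤ) * (X i.succ ^ (d - 1 - 1) * pderiv j (X i.succ))) +
          X i.succ ^ (d - 1) * pderiv j (X i.castSucc) := by
      intro j i
      rw [Derivation.leibniz, Derivation.leibniz_pow]
      simp
    have key : ∀ k : ℕ, ∀ i : Fin (n + 1), i.val = k →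
        (tau s i.succ : MvPolynomial {j // j ≠ s} ℤ) ∈ Q := by
      intro k
      induction k using Nat.strong_induction_on with
      | _ k ih =>
        intro i hik
        have h1 := hall i.castSucc
        rw [map_add, hadd, map_sum, hsum] at h1
        have h2 : deh s (pderiv i.castSucc (X 0 ^ d : MvPolynomial (Fin (n + 2)) ℤ)) ∈ Q := by
          rw [hpd', deh_hom, hdC]
          exact Ideal.mul_mem_right _ _ ((hCQ _).2 hpd)
        have h3 := (Submodule.add_mem_iff_right Q h2).1 h1
        rw [Finset.sum_eq_add_sum_sdiff_singleton_of_mem (Finset.mem_univ i)] at h3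
        have h4 : ∑ i' ∈ Finset.univ \ {i}, deh s (pderiv i.castSucc
            (X i'.castSucc * X i'.succ ^ (d - 1) : MvPolynomial (Fin (n + 2)) ℤ)) ∈ Q := by
          refine Ideal.sum_mem _ fun i' hi' => ?_
          have hne : i' ≠ i := by
            intro h
            rw [h] at hi'
            simp at hi'
          have hne' : i'.castSucc ≠ i.castSucc := fun h => hne (Fin.castSucc_injective _ h)
          rw [hterm, pderiv_X_of_ne hne', mul_zero, add_zero]
          by_cases h5 : i'.succ = i.castSucc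
          · have h6 : i'.val < k := by
              have := congrArg Fin.val h5
              simp only [Fin.val_succ, Fin.val_castSucc] at this
              omega
            have h7 := ih i'.val h6 i' rfl
            rw [deh_hom, deh_hom, deh_hom, hpow, hdX s i'.succ]
            refine Ideal.mul_mem_left _ _ (Ideal.mul_mem_left _ _ (Ideal.mul_mem_right _ _ ?_))
            exact Ideal.pow_mem_of_mem _ h7 _ (by omega)
          · rw [pderiv_X_of_ne h5]
            simp only [mul_zero]
            have : deh s (0 : MvPolynomial (Fin (n + 2)) ℤ) = 0 := map_zero _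
            rw [this]
            exact Q.zero_mem
        have h5 := (Submodule.add_mem_iff_left Q h4).1 h3
        have h6 : i.succ ≠ i.castSucc := (Fin.castSucc_lt_succ).ne'
        rw [hterm, pderiv_X_of_ne h6, pderiv_X_self, mul_zero, mul_zero, mul_zero, zero_add,
          mul_one, hpow, hdX] at h5
        exact hQ.mem_of_pow_mem _ h5
    have h0 : (tau s 0 : MvPolynomial {j // j ≠ s} ℤ) ∈ Q := by
      rw [hadd, hsum, hpow, hdX] at hdeh
      have h4 : ∑ i : Fin (n + 1), deh s
          (X i.castSucc * X i.succ ^ (d - 1) : MvPolynomial (Fin (n + 2)) ℤ) ∈ Q := by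
        refine Ideal.sum_mem _ fun i' _ => ?_
        rw [deh_hom, hpow, hdX s i'.succ]
        refine Ideal.mul_mem_left _ _ ?_
        exact Ideal.pow_mem_of_mem _ (key i'.val i' rfl) _ (by omega)
      exact hQ.mem_of_pow_mem _ ((Submodule.add_mem_iff_left Q h4).1 hdeh)
    have hj : ∀ j : Fin (n + 2), (tau s j : MvPolynomial {j // j ≠ s} ℤ) ∈ Q := by
      intro j
      rcases Fin.eq_zero_or_eq_succ j with rfl | ⟨i, rfl⟩
      · exact h0
      · exact key i.val i rfl
    have hs := hj s
    rw [hss] at hs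
    exact hQ.ne_top ((Ideal.eq_top_iff_one _).2 hs)
  · -- the Fermat form
    have hG : (∑ i : Fin (n + 2), X i ^ d : MvPolynomial (Fin (n + 2)) ℤ).IsHomogeneous d :=
      IsHomogeneous.sum _ _ _ fun i _ => isHomogeneous_X_pow i d
    refine transfer _ hG ?_
    intro s Q hQ hCQ hdeh hall
    have h1 := hall s
    have h2 : pderiv s (∑ i : Fin (n + 2), X i ^ d : MvPolynomial (Fin (n + 2)) ℤ) =
        C (d : ℤ) * X s ^ (d - 1) := by
      rw [map_sum, Finset.sum_eq_single s]
      · rw [Derivation.leibniz_pow, pderiv_X_self]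
        simp
      · intro i _ his
        rw [Derivation.leibniz_pow, pderiv_X_of_ne his]
        simp
      · simp
    rw [h2, deh_hom, hdC, hpow, hdX, hss, one_pow, mul_one, hCQ] at h1
    exact hpd h1

end Pool.Agent.Helper21K9.OD
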