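import Pool.Agent.Helper21K9.OD.Forms

/-!
[SMQ] A form which is smooth modulo a prime is smooth over the rational numbers.

A singular point over a field `K` of characteristic zero has coordinates with valuations at most one,
one of them equal to one, for a valuation ring of `K` above `p`; reduction modulo the maximal ideal
gives a singular point in characteristic `p`.
-/

set_option autoImplicit false

open MvPolynomial

namespace Pool.Agent.Helper21K9.OD

open Pool.Agent.TH214.RM Pool.Agent.Helper21K9.SV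

namespace SmqL

/-- A valuation ring above `p`. -/
theorem exists_val (K : Type) [Field K] [CharZero K] {p : ℕ} (hp : p.Prime) :
    ∃ B : ValuationSubring K, (p : K) ∈ B.nonunits := by
  let A : Subring K := (Int.castRingHom K).range
  let q : A := ⟨(p : K), ⟨(p : ℤ), by simp⟩⟩
  have hI : Ideal.span {q} ≠ ⊤ := by
    intro h
    rw [Ideal.span_singleton_eq_top] at h
    obtain ⟨⟨b, z, hz⟩, hb⟩ := isUnit_iff_exists_inv.mp h
    have h1 : (p : K) * b = 1 := congrArg Subtype.val hb
    rw [← hz] at h1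
    have h2 : (p : ℤ) * z = 1 := by
      have h3 : (((p : ℤ) * z : ℤ) : K) = ((1 : ℤ) : K) := by
        push_cast
        exact h1
      exact_mod_cast h3
    have h3 := Int.isUnit_iff.mp (IsUnit.of_mul_eq_one _ h2)
    have h4 := hp.two_le
    omega
  obtain ⟨B, -, hB⟩ := Ideal.image_subset_nonunits_valuationSubring (Ideal.span {q}) hI
  exact ⟨B, hB ⟨q, Ideal.mem_span_singleton_self q, rfl⟩⟩

/-- Reduction of a singular point. -/
theorem key (K : Type) [Field K] [CharZero K] {n d p : ℕ} (hd : 1 ≤ d) (hp : p.Prime)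
    (G : MvPolynomial (Fin (n + 2)) ℤ) (hG : G.IsHomogeneous d) (x : Fin (n + 2) → K)
    (i : Fin (n + 2)) (hxi : x i ≠ 0)
    (hz' : ∀ j, eval₂ (Int.castRingHom K) x (pderiv j G) = 0) :
    ∃ (s : Fin (n + 2)) (Q : Ideal (MvPolynomial {j // j ≠ s} ℤ)), Q.IsPrime ∧
      (∀ z : ℤ, C z ∈ Q ↔ (p : ℤ) ∣ z) ∧ deh s G ∈ Q ∧ ∀ j, pderiv j (deh s G) ∈ Q := by
  classical
  have hz : ∀ j, aeval x (pderiv j G) = 0 := by
    intro j
    rw [aeval_def, RingHom.ext_int (algebraMap ℤ K) (Int.castRingHom K)]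
    exact hz' j
  -- Euler
  have hG0 : aeval x G = 0 := by
    have h1 := congrArg (aeval x) hG.sum_X_mul_pderiv
    rw [map_sum, map_nsmul] at h1
    simp only [map_mul, hz, mul_zero, Finset.sum_const_zero] at h1
    rw [nsmul_eq_mul] at h1
    have h2 : (d : K) ≠ 0 := by
      rw [Nat.cast_ne_zero]
      omega
    exact (mul_eq_zero.mp h1.symm).resolve_left h2
  obtain ⟨B, hB⟩ := exists_val K hp
  obtain ⟨s, -, hs⟩ := Finset.exists_max_image Finset.univ (fun j => B.valuation (x j))
    ⟨i, Finset.mem_univ i⟩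
  have hxs : x s ≠ 0 := by
    intro h
    have h1 := hs i (Finset.mem_univ i)
    simp only [h, map_zero] at h1
    have h2 := le_antisymm h1 zero_le
    rw [map_eq_zero] at h2
    exact hxi h2
  let t : Fin (n + 2) → K := fun j => x j * (x s)⁻¹
  have hts : t s = 1 := mul_inv_cancel₀ hxs
  have htB : ∀ j, t j ∈ B := by
    intro j
    rw [← B.valuation_le_one_iff]
    have h1 := hs j (Finset.mem_univ j)
    show B.valuation (x j * (x s)⁻¹) ≤ 1
    rw [map_mul, map_inv₀]
    have h2 : 0 < B.valuation (x s) := by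
      rw [zero_lt_iff, Ne, map_eq_zero]
      exact hxs
    rwa [mul_inv_le_iff₀ h2, one_mul]
  let ψ : MvPolynomial {j : Fin (n + 2) // j ≠ s} ℤ →+* B :=
    (aeval (fun j : {j : Fin (n + 2) // j ≠ s} => (⟨t j, htB j⟩ : B))).toRingHom
  have hψ : ∀ f, ((ψ f : B) : K) = aeval (fun j : {j : Fin (n + 2) // j ≠ s} => t j) f := by
    intro f
    have h1 : (B.subtype.comp ψ) =
        (aeval (fun j : {j : Fin (n + 2) // j ≠ s} => t j)).toRingHom := by
      apply MvPolynomial.ringHom_ext
      · intro z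
        simp [ψ]
      · intro j
        simp [ψ]
    exact congrArg (fun g => g f) h1
  have hzero : ∀ (P : MvPolynomial (Fin (n + 2)) ℤ) (e : ℕ), P.IsHomogeneous e →
      aeval x P = 0 → ψ (deh s P) = 0 := by
    intro P e hP h0
    apply Subtype.ext
    rw [hψ, aeval_deh s t hts P, aeval_scale x _ e P hP, h0, zero_mul]
    rfl
  refine ⟨s, (IsLocalRing.maximalIdeal B).comap ψ, Ideal.comap_isPrime _ _, ?_, ?_, ?_⟩
  · have hpB : ((p : ℤ) : B) ∈ IsLocalRing.maximalIdeal B := by
      rw [← ValuationSubring.coe_mem_nonunits_iff]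
      have h1 : ((((p : ℤ) : B)) : K) = (p : K) := by simp
      rw [h1]
      exact hB
    intro z
    rw [Ideal.mem_comap]
    have h0 : ψ (C z) = (z : B) := by simp [ψ]
    rw [h0]
    constructor
    · intro hzm
      by_contra hnd
      have hc : IsCoprime (p : ℤ) z :=
        (Nat.prime_iff_prime_int.mp hp).irreducible.coprime_iff_not_dvd.mpr hnd
      obtain ⟨a, b, hab⟩ := hc
      have h1 : (1 : B) ∈ IsLocalRing.maximalIdeal B := by
        have h2 : ((a * (p : ℤ) + b * z : ℤ) : B) = 1 := by rw [hab]; simp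
        rw [← h2]
        push_cast
        exact Ideal.add_mem _ (Ideal.mul_mem_left _ _ (by simpa using hpB))
          (Ideal.mul_mem_left _ _ hzm)
      exact (Ideal.ne_top_iff_one _).mp (IsLocalRing.maximalIdeal.isMaximal B).ne_top h1
    · rintro ⟨w, rfl⟩
      push_cast
      exact Ideal.mul_mem_right _ _ (by simpa using hpB)
  · rw [Ideal.mem_comap, hzero G d hG hG0]
    exact Ideal.zero_mem _
  · intro j
    rw [Ideal.mem_comap, pderiv_deh, hzero _ (d - 1) hG.pderiv (hz j)]
    exact Ideal.zero_mem _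

end SmqL

open SmqL in
/-- [SMQ] -/
theorem smq : S_SMQ := by
  intro n d p hd hp G hG hsm i
  rw [Ideal.radical_eq_sInf, Submodule.mem_sInf]
  rintro 𝔮 ⟨hle, hprime⟩
  by_contra hX
  let D := MvPolynomial (Fin (n + 2)) ℚ ⧸ 𝔮
  let K := FractionRing D
  let θ : MvPolynomial (Fin (n + 2)) ℚ →+* K := (algebraMap D K).comp (Ideal.Quotient.mk 𝔮)
  have hθ : ∀ f, θ f = 0 ↔ f ∈ 𝔮 := by
    intro f
    show algebraMap D K (Ideal.Quotient.mk 𝔮 f) = 0 ↔ _
    rw [map_eq_zero_iff _ (IsFractionRing.injective D K), Ideal.Quotient.eq_zero_iff_mem]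
  have : CharZero K := by
    let g : ℚ →+* K := θ.comp C
    exact charZero_of_injective_ringHom g.injective
  have hev : ∀ P : MvPolynomial (Fin (n + 2)) ℤ,
      eval₂ (Int.castRingHom K) (fun j => θ (X j)) P = θ (map (Int.castRingHom ℚ) P) := by
    intro P
    have h1 : (eval₂Hom (Int.castRingHom K) (fun j => θ (X j)))
        = θ.comp (map (Int.castRingHom ℚ)) := by
      apply MvPolynomial.ringHom_ext
      · intro z
        simp
      · intro j
        simp
    exact congrArg (fun g => g P) h1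
  obtain ⟨s, Q, hQ, hC, hdeh, hpd⟩ := key K hd hp G hG (fun j => θ (X j)) i
    (fun h => hX ((hθ _).mp h)) (fun j => by
      rw [hev, hθ, ← pderiv_map]
      exact hle (Ideal.subset_span ⟨j, rfl⟩))
  obtain ⟨j, hj⟩ := hsm s Q hQ hC hdeh
  exact hj (hpd j)

end Pool.Agent.Helper21K9.OD
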