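import Pool.Agent.TH214.RM.Smooth

/-!
[SMT] Smoothness is invariant under linear changes of the coordinates.
-/

set_option autoImplicit false

open MvPolynomial

namespace Pool.Agent.Helper21K9.OD

open Pool.Agent.TH214.RM

namespace SmtL

variable {K : Type} [Field K] {m : ℕ}

/-- The chain rule for linear substitutions. -/
theorem chain (T : Matrix (Fin m) (Fin m) K) (j : Fin m) (P : MvPolynomial (Fin m) K) :
    pderiv j (aeval (fun i => ∑ j, C (T i j) * X j) P) =
      ∑ i, C (T i j) * aeval (fun i => ∑ j, C (T i j) * X j) (pderiv i P) := by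
  classical
  induction P using MvPolynomial.induction_on with
  | C a => simp
  | add p q hp hq =>
    simp only [map_add, mul_add, Finset.sum_add_distrib]
    rw [hp, hq]
  | mul_X p k hp =>
    have h1 : pderiv j (∑ j, C (T k j) * X j : MvPolynomial (Fin m) K) = C (T k j) := by
      rw [map_sum, Finset.sum_eq_single j]
      · rw [pderiv_C_mul, pderiv_X_self, mul_one]
      · intro b _ hb
        rw [pderiv_C_mul, pderiv_X_of_ne hb, mul_zero]
      · intro h
        exact absurd (Finset.mem_univ j) h
    rw [map_mul, aeval_X, Derivation.leibniz, h1, hp]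
    have h2 : ∀ i, C (T i j) * aeval (fun i => ∑ j, C (T i j) * X j) (pderiv i (p * X k)) =
        (if i = k then C (T k j) * aeval (fun i => ∑ j, C (T i j) * X j) p else 0) +
        (∑ j, C (T k j) * X j) *
          (C (T i j) * aeval (fun i => ∑ j, C (T i j) * X j) (pderiv i p)) := by
      intro i
      rw [Derivation.leibniz]
      by_cases hik : i = k
      · subst hik
        rw [pderiv_X_self, if_pos rfl]
        simp only [smul_eq_mul, mul_one, map_add, map_mul, aeval_X]
        ring
      · rw [pderiv_X_of_ne (Ne.symm hik), if_neg hik]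
        simp only [smul_eq_mul, mul_zero, map_add, map_mul, aeval_X, map_zero]
        ring
    rw [Finset.sum_congr rfl (fun i _ => h2 i), Finset.sum_add_distrib, Finset.sum_ite_eq',
      if_pos (Finset.mem_univ k), ← Finset.mul_sum]
    simp only [smul_eq_mul]
    ring

end SmtL

open SmtL in
/-- [SMT] -/
theorem smt {K : Type} [Field K] {n : ℕ} (G : MvPolynomial (Fin (n + 2)) K)
    (T T' : Matrix (Fin (n + 2)) (Fin (n + 2)) K) (l : K) (hl : l ≠ 0) (h : T * T' = 1)
    (hG : Smooth G) : Smooth (C l * aeval (fun i => ∑ j, C (T i j) * X j) G) := by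
  classical
  have h' : T' * T = 1 := mul_eq_one_comm.mp h
  set φ : MvPolynomial (Fin (n + 2)) K →ₐ[K] MvPolynomial (Fin (n + 2)) K :=
    aeval (fun i => ∑ j, C (T i j) * X j) with hφ
  set I := Ideal.span (Set.range fun j => pderiv j (C l * φ G)) with hI
  have hd : ∀ j, pderiv j (C l * φ G) = C l * ∑ i, C (T i j) * φ (pderiv i G) := by
    intro j
    rw [pderiv_C_mul, hφ, chain]
  -- the images of the partial derivatives
  have h1 : ∀ k, φ (pderiv k G) ∈ I := by
    intro k
    have h2 : φ (pderiv k G) = ∑ j, C (l⁻¹ * T' j k) * pderiv j (C l * φ G) := by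
      have h3 : ∀ j, C (l⁻¹ * T' j k) * pderiv j (C l * φ G) =
          ∑ i, C (T i j * T' j k) * φ (pderiv i G) := by
        intro j
        rw [hd, Finset.mul_sum, Finset.mul_sum]
        refine Finset.sum_congr rfl fun i _ => ?_
        have h4 : (C l : MvPolynomial (Fin (n + 2)) K) * C l⁻¹ = 1 := by
          rw [← C_mul, mul_inv_cancel₀ hl, C_1]
        rw [C_mul, C_mul]
        linear_combination (C (T' j k) * C (T i j) * φ (pderiv i G)) * h4
      rw [Finset.sum_congr rfl (fun j _ => h3 j), Finset.sum_comm]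
      have h5 : ∀ i, ∑ j, C (T i j * T' j k) * φ (pderiv i G) =
          C ((1 : Matrix (Fin (n + 2)) (Fin (n + 2)) K) i k) * φ (pderiv i G) := by
        intro i
        rw [← Finset.sum_mul, ← map_sum, ← h, Matrix.mul_apply]
      rw [Finset.sum_congr rfl (fun i _ => h5 i), Finset.sum_eq_single k]
      · rw [Matrix.one_apply_eq, C_1, one_mul]
      · intro b _ hb
        rw [Matrix.one_apply_ne hb, C_0, zero_mul]
      · intro h
        exact absurd (Finset.mem_univ k) h
    rw [h2]
    exact Ideal.sum_mem _ fun j _ => Ideal.mul_mem_left _ _ (Ideal.subset_span ⟨j, rfl⟩)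
  have h2 : (Ideal.span (Set.range fun j => pderiv j G)) ≤ I.comap (φ : _ →+* _) := by
    rw [Ideal.span_le]
    rintro _ ⟨k, rfl⟩
    exact h1 k
  have h3 : ∀ i, (∑ j, C (T i j) * X j) ∈ I.radical := by
    intro i
    obtain ⟨e, he⟩ := hG i
    refine ⟨e, ?_⟩
    have h4 := h2 he
    rw [Ideal.mem_comap] at h4
    have h5 : (φ : MvPolynomial (Fin (n + 2)) K →+* MvPolynomial (Fin (n + 2)) K) (X i ^ e) =
        (∑ j, C (T i j) * X j) ^ e := by
      show φ (X i ^ e) = _
      rw [map_pow, hφ, aeval_X]
    rwa [h5] at h4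
  intro k
  have h4 : (X k : MvPolynomial (Fin (n + 2)) K) =
      ∑ i, C (T' k i) * ∑ j, C (T i j) * X j := by
    have h5 : ∀ i, C (T' k i) * ∑ j, C (T i j) * X j =
        ∑ j, C (T' k i * T i j) * (X j : MvPolynomial (Fin (n + 2)) K) := by
      intro i
      rw [Finset.mul_sum]
      refine Finset.sum_congr rfl fun j _ => ?_
      rw [C_mul, mul_assoc]
    rw [Finset.sum_congr rfl (fun i _ => h5 i), Finset.sum_comm]
    have h6 : ∀ j, ∑ i, C (T' k i * T i j) * (X j : MvPolynomial (Fin (n + 2)) K) =
        C ((1 : Matrix (Fin (n + 2)) (Fin (n + 2)) K) k j) * X j := by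
      intro j
      rw [← Finset.sum_mul, ← map_sum, ← h', Matrix.mul_apply]
    rw [Finset.sum_congr rfl (fun j _ => h6 j), Finset.sum_eq_single k]
    · rw [Matrix.one_apply_eq, C_1, one_mul]
    · intro b _ hb
      rw [Matrix.one_apply_ne (Ne.symm hb), C_0, zero_mul]
    · intro h
      exact absurd (Finset.mem_univ k) h
  rw [h4]
  exact Ideal.sum_mem _ fun i _ => Ideal.mul_mem_left _ _ (h3 i)

end Pool.Agent.Helper21K9.OD
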