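import Pool.Agent.Helper21K9.OD.UniB
import Pool.Agent.Helper21K9.OD.Forms

/-! [UNI] Two coprime polynomials in the coefficients of a form which vanish at the forms with a
degenerate singular point in a chart. -/

set_option autoImplicit false

open MvPolynomial

namespace Pool.Agent.Helper21K9.OD

namespace UniL

open Pool.Agent.TH214.RM Pool.Agent.Helper21K9.SV Pool.Agent.H918R2.Quad
open Finsupp (single single_eq_same single_eq_of_ne)

variable {n d : ℕ} (s : Fin (n + 2))

/-- the monomials of degree at least 2 in the chart -/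
abbrev Big (n d : ℕ) (s : Fin (n + 2)) : Type := {m : Mon n d // m.1 s + 2 ≤ d}

theorem mem_mon {m : Fin (n + 2) →₀ ℕ} :
    m ∈ Finset.finsuppAntidiag (Finset.univ : Finset (Fin (n + 2))) d ↔ ∑ i, m i = d := by
  rw [Finset.mem_finsuppAntidiag]
  exact ⟨fun h => h.1, fun h => ⟨h, Finset.subset_univ _⟩⟩

theorem sum_single (i : Fin (n + 2)) (k : ℕ) : ∑ x, (single i k : Fin (n + 2) →₀ ℕ) x = k := by
  rw [Finset.sum_eq_single i]
  · exact single_eq_same
  · intro b _ hb
    exact single_eq_of_ne hb
  · intro h
    exact absurd (Finset.mem_univ _) h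

/-- the constant monomial -/
noncomputable def cst : Mon n d := ⟨single s d, mem_mon.2 (sum_single s d)⟩

/-- the monomials `x_i ^ (d - k) x_j ^ k` -/
noncomputable def pw (j : {j // j ≠ s}) (k : ℕ) (hk : k ≤ d) : Mon n d :=
  ⟨single s (d - k) + single j.1 k, mem_mon.2 (by
    simp only [Finsupp.add_apply, Finset.sum_add_distrib, sum_single]
    omega)⟩

theorem eq_of_le {m m' : Fin (n + 2) →₀ ℕ} (h : ∀ i, m i ≤ m' i) (hs : ∑ i, m i = ∑ i, m' i) :
    m = m' := by
  ext i
  exact (Finset.sum_eq_sum_iff_of_le fun i _ => h i).1 hs i (Finset.mem_univ i)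

/-- all the monomials -/
noncomputable def enum (hd : 2 ≤ d) : Option (Big n d s ⊕ {j // j ≠ s}) → Mon n d
  | none => cst s
  | some (Sum.inl m) => m.1
  | some (Sum.inr j) => pw s j 1 (by omega)

theorem pw_s (j : {j // j ≠ s}) (k : ℕ) (hk : k ≤ d) : (pw s j k hk).1 s = d - k := by
  rw [pw, Finsupp.add_apply, single_eq_same, single_eq_of_ne (Ne.symm j.2), add_zero]

theorem enum_bij (hd : 2 ≤ d) : Function.Bijective (enum s hd) := by
  constructor
  · have hc : (cst s : Mon n d).1 s = d := single_eq_same
    intro o o' h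
    have h1 : (enum s hd o).1 s = (enum s hd o').1 s := by rw [h]
    rcases o with _ | m | j <;> rcases o' with _ | m' | j'
    · rfl
    · have := m'.2
      simp only [enum] at h1
      omega
    · simp only [enum, pw_s] at h1
      omega
    · have := m.2
      simp only [enum] at h1
      omega
    · simp only [enum] at h
      rw [Subtype.ext h]
    · have := m.2
      simp only [enum, pw_s] at h1
      omega
    · simp only [enum, pw_s] at h1
      omega
    · have := m'.2
      simp only [enum, pw_s] at h1
      omega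
    · simp only [enum] at h
      have h2 := congrArg (fun m : Mon n d => m.1 j.1) h
      simp only [pw, Finsupp.add_apply, single_eq_same, single_eq_of_ne j.2] at h2
      have h3 : j.1 = j'.1 := by
        by_contra hne
        rw [single_eq_of_ne hne] at h2
        omega
      rw [Subtype.ext h3]
  · intro m
    have hm := mem_mon.1 m.2
    by_cases h1 : m.1 s + 2 ≤ d
    · exact ⟨some (Sum.inl ⟨m, h1⟩), rfl⟩
    · by_cases h2 : m.1 s = d
      · refine ⟨none, Subtype.ext ?_⟩
        refine eq_of_le (fun i => ?_) ?_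
        · by_cases hi : i = s
          · subst hi
            rw [h2]
            exact single_eq_same.le
          · exact (single_eq_of_ne hi).trans_le (Nat.zero_le _)
        · rw [hm]
          exact sum_single s d
      · have h3 : ∃ j, j ≠ s ∧ m.1 j ≠ 0 := by
          by_contra hcon
          push Not at hcon
          rw [Finset.sum_eq_single s (fun b _ hb => hcon b hb)
            (fun h => absurd (Finset.mem_univ _) h)] at hm
          exact h2 hm
        obtain ⟨j, hj, hj0⟩ := h3
        have h4 : m.1 s + m.1 j ≤ d := by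
          have h5 := Finset.sum_le_univ_sum_of_nonneg (s := {s, j}) (f := fun i => m.1 i)
            (fun i => Nat.zero_le _)
          rw [Finset.sum_pair (Ne.symm hj), hm] at h5
          exact h5
        refine ⟨some (Sum.inr ⟨j, hj⟩), Subtype.ext ?_⟩
        refine eq_of_le (fun i => ?_) ?_
        · simp only [enum, pw, Finsupp.add_apply]
          by_cases hi : i = s
          · subst hi
            rw [single_eq_same, single_eq_of_ne (Ne.symm hj)]
            omega
          · rw [single_eq_of_ne hi]
            by_cases hi' : i = j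
            · subst hi'
              rw [single_eq_same]
              omega
            · rw [single_eq_of_ne hi']
              omega
        · rw [hm]
          exact mem_mon.1 (enum s hd (some (Sum.inr ⟨j, hj⟩))).2

/-- the enumeration -/
noncomputable def ee (hd : 2 ≤ d) : Option (Big n d s ⊕ {j // j ≠ s}) ≃ Mon n d :=
  Equiv.ofBijective _ (enum_bij s hd)

/-- the monomials in the chart -/
noncomputable def mo (m : Mon n d) : MvPolynomial {j // j ≠ s} ℤ := deh s (monomial m.1 1)

theorem deh_X_self : deh s (X s : MvPolynomial (Fin (n + 2)) ℤ) = 1 := by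
  rw [deh, aeval_X, tau, dif_pos rfl]

theorem deh_X_ne (j : {j // j ≠ s}) : deh s (X j.1 : MvPolynomial (Fin (n + 2)) ℤ) = X j := by
  rw [deh, aeval_X, tau, dif_neg j.2]

theorem mo_cst : mo s (cst s : Mon n d) = 1 := by
  rw [mo, cst, ← X_pow_eq_monomial, deh, map_pow, ← deh, deh_X_self, one_pow]

theorem mo_pw (j : {j // j ≠ s}) (k : ℕ) (hk : k ≤ d) : mo s (pw s j k hk) = X j ^ k := by
  have h1 : (monomial (pw s j k hk).1 (1 : ℤ)) = X s ^ (d - k) * X j.1 ^ k := by
    rw [X_pow_eq_monomial, X_pow_eq_monomial, monomial_mul, one_mul]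
    rfl
  rw [mo, h1, deh, map_mul, map_pow, map_pow, ← deh, ← deh, deh_X_self, deh_X_ne, one_pow,
    one_mul]

theorem deh_gform : deh s (gform n d) = ∑ m, C (X m) * map C (mo s m) := by
  rw [gform, form, deh, map_sum]
  refine Finset.sum_congr rfl fun m _ => ?_
  have h1 : (monomial m.1 (X m : MvPolynomial (Mon n d) ℤ)) =
      C (X m) * map C (monomial m.1 1) := by
    rw [map_monomial, C_1, C_mul_monomial, mul_one]
  rw [h1, map_mul, aeval_C, algebraMap_eq, mo, map_deh, ← deh]

theorem deh_gform_eq (hd : 2 ≤ d) :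
    deh s (gform n d) = ff (ee s hd) (fun m : Big n d s => mo s m.1) := by
  rw [deh_gform, ff, ← (ee s hd).sum_comp, Fintype.sum_option, Fintype.sum_sum_type]
  have h1 : C (X (ee s hd none)) * map C (mo s (ee s hd none)) =
      (C (X (ee s hd none)) : MvPolynomial {j // j ≠ s} (MvPolynomial (Mon n d) ℤ)) := by
    have : mo s (ee s hd none) = 1 := mo_cst s
    rw [this, map_one, mul_one]
  have h2 : ∀ j, C (X (ee s hd (some (Sum.inr j)))) * map C (mo s (ee s hd (some (Sum.inr j)))) =
      (C (X (ee s hd (some (Sum.inr j)))) * X j :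
        MvPolynomial {j // j ≠ s} (MvPolynomial (Mon n d) ℤ)) := by
    intro j
    have : mo s (ee s hd (some (Sum.inr j))) = X j := by
      have := mo_pw s j 1 (by omega : 1 ≤ d)
      rw [pow_one] at this
      exact this
    rw [this, map_X]
  have h3 : JJ (ee s hd) (gg fun m : Big n d s => mo s m.1) =
      ∑ m, C (X (ee s hd (some (Sum.inl m)))) * map C (mo s (ee s hd (some (Sum.inl m)))) := by
    rw [gg, map_sum]
    refine Finset.sum_congr rfl fun m _ => ?_
    have h4 : ((rename fun m : Big n d s => ee s hd (some (Sum.inl m)) :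
        MvPolynomial (Big n d s) ℤ →ₐ[ℤ] MvPolynomial (Mon n d) ℤ).toRingHom).comp
        (C : ℤ →+* MvPolynomial (Big n d s) ℤ) = C := RingHom.ext_int _ _
    rw [map_mul, JJ_C, rename_X, JJ, map_map, h4]
    rfl
  rw [h1, h3]
  simp only [h2]
  ring

theorem hess_sq (N : Type) [Fintype N] [DecidableEq N] :
    (hess (∑ j : N, (X j : MvPolynomial N ℤ) ^ 2)).det ≠ 0 := by
  have h1 : hess (∑ j : N, (X j : MvPolynomial N ℤ) ^ 2) = (2 : MvPolynomial N ℤ) • 1 := by
    ext1 i j
    have h2 : pderiv j (∑ j : N, (X j : MvPolynomial N ℤ) ^ 2) = 2 * X j := by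
      rw [map_sum, Finset.sum_eq_single j]
      · rw [pderiv_pow, pderiv_X_self]
        simp
      · intro k _ hk
        rw [pderiv_pow, pderiv_X_of_ne hk]
        simp
      · intro h
        exact absurd (Finset.mem_univ _) h
    rw [hess, Matrix.of_apply, h2, Matrix.smul_apply, Matrix.one_apply]
    have h3 : (2 : MvPolynomial N ℤ) = C 2 := by simp
    rw [h3, pderiv_C_mul]
    split_ifs with h
    · subst h
      rw [pderiv_X_self, smul_eq_mul]
    · rw [pderiv_X_of_ne (Ne.symm h), smul_zero, mul_zero]
  rw [h1, Matrix.det_smul, Matrix.det_one, mul_one]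
  exact pow_ne_zero _ two_ne_zero

theorem det_gg (hd : 2 ≤ d) : (hess (gg fun m : Big n d s => mo s m.1)).det ≠ 0 := by
  classical
  let quad : {j // j ≠ s} → Big n d s := fun j => ⟨pw s j 2 hd, by rw [pw_s]; omega⟩
  refine det_ne_zero _ (fun m => ∑ j, if m = quad j then 1 else 0) ?_
  have h1 : ∑ m : Big n d s, C (∑ j, if m = quad j then (1 : ℤ) else 0) * mo s m.1 =
      ∑ j : {j // j ≠ s}, (X j : MvPolynomial {j // j ≠ s} ℤ) ^ 2 := by
    simp only [map_sum, Finset.sum_mul]
    rw [Finset.sum_comm]
    refine Finset.sum_congr rfl fun j _ => ?_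
    rw [Finset.sum_eq_single (quad j)]
    · rw [if_pos rfl, C_1, one_mul]
      exact mo_pw s j 2 hd
    · intro m _ hm
      rw [if_neg hm, C_0, zero_mul]
    · intro h
      exact absurd (Finset.mem_univ _) h
  rw [h1]
  exact hess_sq _

end UniL

open UniL in
/-- [UNI] -/
theorem uni : S_UNI := by
  intro n d hd s
  have hf := deh_gform_eq (n := n) (d := d) s hd
  unfold degIdeal
  rw [hf]
  refine exists_cop_ff (ee s hd) _ (det_gg s hd) _ ?_ ?_ ?_
  · exact Ideal.subset_span (Set.mem_insert _ _)
  · intro j
    exact Ideal.subset_span (Set.mem_insert_of_mem _ (Set.mem_insert_of_mem _ ⟨j, rfl⟩))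
  · exact Ideal.subset_span (Set.mem_insert_of_mem _ (Set.mem_insert _ _))

end Pool.Agent.Helper21K9.OD
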