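import Pool.Agent.Helper21K9.SV.Stm

/-! [UNI], abstract part: coprime elements in a contracted ideal. -/

set_option autoImplicit false

open MvPolynomial

namespace Pool.Agent.Helper21K9.OD

namespace UniL

open Pool.Agent.Helper21K9.SV

/-- dependence on the other elements -/
theorem exists_rel {σ T : Type} [CommRing T] [IsDomain T] (ψ : MvPolynomial σ ℤ →ₐ[ℤ] T) (D : T)
    (hD : D ≠ 0)
    (h : ¬ AlgebraicIndependent ℤ (fun o : Option σ => o.elim D fun i => ψ (X i))) :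
    ∃ P : MvPolynomial σ ℤ, P ≠ 0 ∧ D ∣ ψ P := by
  rw [AlgebraicIndependent, injective_iff_map_eq_zero] at h
  push Not at h
  obtain ⟨P, hP0, hP⟩ := h
  let e := optionEquivLeft ℤ σ
  have hev : ∀ P, Polynomial.eval₂ (ψ : MvPolynomial σ ℤ →+* T) D (e P) =
      aeval (fun o : Option σ => o.elim D fun i => ψ (X i)) P := by
    intro P
    induction P using MvPolynomial.induction_on with
    | C a =>
      simp only [e, optionEquivLeft_C, Polynomial.eval₂_C, aeval_C, algebraMap_int_eq]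
      exact ψ.commutes a
    | add p q hp hq => rw [map_add, Polynomial.eval₂_add, hp, hq, map_add]
    | mul_X p o hp =>
      rw [map_mul, Polynomial.eval₂_mul, hp, map_mul, aeval_X]
      cases o <;> simp [e]
  have hp : e P ≠ 0 := by
    rw [Ne, EmbeddingLike.map_eq_zero_iff]
    exact hP
  obtain ⟨q, hq, hnd⟩ := Polynomial.exists_eq_pow_rootMultiplicity_mul_and_not_dvd (e P) hp 0
  have h1 := hev P
  rw [hP0, hq, Polynomial.eval₂_mul, Polynomial.eval₂_pow] at h1
  have h2 : Polynomial.eval₂ (ψ : MvPolynomial σ ℤ →+* T) D q = 0 := by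
    rcases mul_eq_zero.1 h1 with h3 | h3
    · exfalso
      have h4 := pow_eq_zero_iff'.1 h3
      simp only [map_zero, sub_zero, Polynomial.eval₂_X] at h4
      exact hD h4.1
    · exact h3
  rw [map_zero, sub_zero, Polynomial.X_dvd_iff] at hnd
  refine ⟨q.coeff 0, hnd, ?_⟩
  rw [← Polynomial.divX_mul_X_add q, Polynomial.eval₂_add, Polynomial.eval₂_mul,
    Polynomial.eval₂_X, Polynomial.eval₂_C] at h2
  exact ⟨-Polynomial.eval₂ (ψ : MvPolynomial σ ℤ →+* T) D q.divX, by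
    have h5 : ψ (q.coeff 0) = (ψ : MvPolynomial σ ℤ →+* T) (q.coeff 0) := rfl
    rw [h5]
    linear_combination h2⟩

/-- clearing denominators -/
theorem exists_int {ι : Type} (h : MvPolynomial ι ℚ) : ∃ (m : ℤ) (h' : MvPolynomial ι ℤ), m ≠ 0 ∧
    map (Int.castRingHom ℚ) h' = C (m : ℚ) * h := by
  induction h using MvPolynomial.induction_on with
  | C a =>
    refine ⟨a.den, C a.num, by exact_mod_cast a.den_ne_zero, ?_⟩
    rw [map_C, ← C_mul]
    congr 1
    rw [Int.cast_natCast, Rat.den_mul_eq_num]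
    rfl
  | add p q hp hq =>
    obtain ⟨m1, p', h1, h2⟩ := hp
    obtain ⟨m2, q', h3, h4⟩ := hq
    refine ⟨m1 * m2, C m2 * p' + C m1 * q', mul_ne_zero h1 h3, ?_⟩
    rw [map_add, map_mul, map_mul, h2, h4, map_C, map_C, Int.cast_mul, C_mul]
    simp only [Int.coe_castRingHom]
    ring
  | mul_X p i hp =>
    obtain ⟨m, p', h1, h2⟩ := hp
    exact ⟨m, p' * X i, h1, by rw [map_mul, h2, map_X, mul_assoc]⟩

theorem map_inj {ι : Type} : Function.Injective (map (Int.castRingHom ℚ) :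
    MvPolynomial ι ℤ → MvPolynomial ι ℚ) :=
  map_injective _ Int.cast_injective

/-- a criterion for coprimality -/
theorem cop_of {ι : Type} (Φ Ψ : MvPolynomial ι ℤ) (i : ι) (hΨ : Prime Ψ)
    (hi : degreeOf i Ψ ≠ 0) (hΦ : Φ ≠ 0) (hi' : degreeOf i Φ = 0) : Cop Φ Ψ := by
  intro h h1 h2
  obtain ⟨a, ha⟩ := h1
  obtain ⟨b, hb⟩ := h2
  obtain ⟨m, h', hm, hh'⟩ := exists_int h
  obtain ⟨ma, a', hma, ha'⟩ := exists_int a
  obtain ⟨mb, b', hmb, hb'⟩ := exists_int b
  have e1 : h' * a' = C (m * ma) * Φ := by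
    apply map_inj
    rw [map_mul, map_mul, hh', ha', ha, map_C, eq_intCast, Int.cast_mul, C_mul]
    ring
  have e2 : h' * b' = C (m * mb) * Ψ := by
    apply map_inj
    rw [map_mul, map_mul, hh', hb', hb, map_C, eq_intCast, Int.cast_mul, C_mul]
    ring
  have hC1 : (C (m * ma) : MvPolynomial ι ℤ) ≠ 0 := by
    rw [Ne, C_eq_zero]; exact mul_ne_zero hm hma
  have hC2 : (C (m * mb) : MvPolynomial ι ℤ) ≠ 0 := by
    rw [Ne, C_eq_zero]; exact mul_ne_zero hm hmb
  have hne1 : h' * a' ≠ 0 := by rw [e1]; exact mul_ne_zero hC1 hΦ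
  have hh0 : h' ≠ 0 := left_ne_zero_of_mul hne1
  have ha0 : a' ≠ 0 := right_ne_zero_of_mul hne1
  have d1 : degreeOf i h' = 0 := by
    have h3 := congrArg (degreeOf i) e1
    rw [degreeOf_mul_eq hh0 ha0, degreeOf_mul_eq hC1 hΦ, degreeOf_C, hi'] at h3
    omega
  have h4 : Ψ ∣ h' * b' := ⟨C (m * mb), by rw [e2, mul_comm]⟩
  rcases hΨ.dvd_or_dvd h4 with ⟨u, hu⟩ | ⟨u, hu⟩
  · exfalso
    have hu0 : u ≠ 0 := by
      rintro rfl
      rw [mul_zero] at hu
      exact hh0 hu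
    rw [hu, degreeOf_mul_eq hΨ.ne_zero hu0] at d1
    omega
  · have e3 : h' * u = C (m * mb) := by
      apply mul_right_cancel₀ hΨ.ne_zero
      rw [← e2, hu]
      ring
    have e4 : C (m : ℚ) * h * map (Int.castRingHom ℚ) u = C ((m * mb : ℤ) : ℚ) := by
      rw [← hh', ← map_mul, e3, map_C]
      rfl
    have e5 : h ∣ (C ((m * mb : ℤ) : ℚ) : MvPolynomial ι ℚ) :=
      ⟨C (m : ℚ) * map (Int.castRingHom ℚ) u, by rw [← e4]; ring⟩
    refine isUnit_of_dvd_unit e5 ?_
    refine IsUnit.map C ?_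
    rw [isUnit_iff_ne_zero]
    exact_mod_cast mul_ne_zero hm hmb

/-- the abstract form -/
theorem exists_cop {ι T : Type} [Finite ι] [CommRing T] [IsDomain T] [CharZero T]
    (φ : MvPolynomial ι ℤ →ₐ[ℤ] T) (D : T) (hD : D ≠ 0)
    (hT : ∀ (κ : Type) (v : κ → T), AlgebraicIndependent ℤ v → Nat.card κ < Nat.card ι) :
    ∃ Φ Ψ : MvPolynomial ι ℤ, Cop Φ Ψ ∧ φ Ψ = 0 ∧ D ∣ φ Φ := by
  classical
  have h1 : ¬ AlgebraicIndependent ℤ (fun i => φ (X i)) := fun h => lt_irrefl _ (hT ι _ h)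
  rw [AlgebraicIndependent, injective_iff_map_eq_zero] at h1
  push Not at h1
  obtain ⟨F, hF0, hF⟩ := h1
  have hae : ∀ P, aeval (fun i => φ (X i)) P = φ P := fun P => by
    have := MvPolynomial.comp_aeval (R := ℤ) (X : ι → MvPolynomial ι ℤ) φ
    rw [← this]
    simp
  rw [hae] at hF0
  -- a prime factor in the kernel
  obtain ⟨Ψ, hΨ, hΨ0⟩ : ∃ Ψ, Prime Ψ ∧ φ Ψ = 0 := by
    have key : ∀ F : MvPolynomial ι ℤ, F ≠ 0 → φ F = 0 → ∃ Ψ, Prime Ψ ∧ φ Ψ = 0 := by
      intro F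
      induction F using UniqueFactorizationMonoid.induction_on_prime with
      | h₁ => intro h; exact absurd rfl h
      | h₂ x hx =>
        intro _ h
        exact absurd h (IsUnit.map φ hx).ne_zero
      | h₃ a p ha hp ih =>
        intro _ h
        rw [map_mul] at h
        rcases mul_eq_zero.1 h with h | h
        · exact ⟨p, hp, h⟩
        · exact ih ha h
    exact key F hF hF0
  -- a variable in it
  obtain ⟨i, hi⟩ : ∃ i, i ∈ Ψ.vars := by
    by_contra hcon
    push Not at hcon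
    have h2 : Ψ.vars = ∅ := Finset.eq_empty_of_forall_notMem hcon
    rw [vars_eq_empty_iff_eq_C] at h2
    rw [h2, ← algebraMap_eq, AlgHom.commutes, algebraMap_int_eq, eq_intCast,
      Int.cast_eq_zero] at hΨ0
    rw [hΨ0, C_0] at h2
    exact hΨ.ne_zero h2
  rw [mem_vars_iff_degreeOf_ne_zero] at hi
  let ψ : MvPolynomial {j // j ≠ i} ℤ →ₐ[ℤ] T := φ.comp (rename Subtype.val)
  have h2 : ¬ AlgebraicIndependent ℤ
      (fun o : Option {j // j ≠ i} => o.elim D fun j => ψ (X j)) := by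
    intro h
    have h3 := hT _ _ h
    have : Fintype ι := Fintype.ofFinite ι
    rw [Nat.card_congr (Equiv.optionSubtypeNe i)] at h3
    exact lt_irrefl _ h3
  obtain ⟨P, hP, hdvd⟩ := exists_rel ψ D hD h2
  refine ⟨rename Subtype.val P, Ψ, cop_of _ _ i hΨ hi ?_ ?_, hΨ0, hdvd⟩
  · rw [Ne, map_eq_zero_iff _ (rename_injective _ Subtype.val_injective)]
    exact hP
  · by_contra h
    rw [← Ne, ← mem_vars_iff_degreeOf_ne_zero] at h
    have h4 := vars_rename Subtype.val P h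
    obtain ⟨j, -, hj⟩ := Finset.mem_image.1 h4
    exact j.2 hj

/-- independent families in polynomial rings -/
theorem card_le {κ τ : Type} [Finite τ] (v : κ → MvPolynomial τ ℤ)
    (h : AlgebraicIndependent ℤ v) : Nat.card κ ≤ Nat.card τ := by
  have h1 := h.cardinalMk_le_trdeg
  rw [MvPolynomial.trdeg_of_isDomain, Cardinal.lift_id] at h1
  exact Cardinal.toNat_le_toNat h1 (Cardinal.lt_aleph0_of_finite τ)

end UniL

end Pool.Agent.Helper21K9.OD
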