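import Pool.Agent.Helper21K9.OD.UniA
import Pool.Agent.Helper21K9.OD.Lg

/-! [UNI], the universal polynomial: elimination of the linear and the constant coefficients. -/

set_option autoImplicit false
set_option linter.unusedSectionVars false

open MvPolynomial

namespace Pool.Agent.Helper21K9.OD

namespace UniL

open Pool.Agent.Helper21K9.SV

section

variable {M N ι : Type} [Fintype M] [Fintype N] [DecidableEq N] (e : Option (M ⊕ N) ≃ ι)
  (mo : M → MvPolynomial N ℤ)

/-- the ring of the incidence variety -/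
abbrev TT (M N : Type) : Type := MvPolynomial N (MvPolynomial M ℤ)

/-- the part of degree at least 2 -/
noncomputable def gg : TT M N := ∑ m, C (X m) * map C (mo m)

/-- the inclusion -/
noncomputable def JJ : TT M N →+* MvPolynomial N (MvPolynomial ι ℤ) :=
  map (rename fun m => e (some (Sum.inl m)) : MvPolynomial M ℤ →ₐ[ℤ] MvPolynomial ι ℤ).toRingHom

/-- the values of the coefficients -/
noncomputable def vv : Option (M ⊕ N) → TT M N
  | none => -gg mo + ∑ j, X j * pderiv j (gg mo)
  | some (Sum.inl m) => C (X m)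
  | some (Sum.inr j) => -pderiv j (gg mo)

/-- the coefficients on the incidence variety -/
noncomputable def phi : MvPolynomial ι ℤ →ₐ[ℤ] TT M N := aeval fun i => vv mo (e.symm i)

noncomputable def theta : MvPolynomial N (MvPolynomial ι ℤ) →+* TT M N :=
  eval₂Hom (phi e mo : MvPolynomial ι ℤ →+* TT M N) X

/-- the universal polynomial -/
noncomputable def ff : MvPolynomial N (MvPolynomial ι ℤ) :=
  JJ e (gg mo) + ∑ j, C (X (e (some (Sum.inr j)))) * X j + C (X (e none))

theorem phi_X (o : Option (M ⊕ N)) : phi e mo (X (e o)) = vv mo o := by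
  rw [phi, aeval_X, Equiv.symm_apply_apply]

theorem theta_C (a : MvPolynomial ι ℤ) : theta e mo (C a) = phi e mo a := by
  rw [theta, coe_eval₂Hom, eval₂_C]
  rfl

theorem theta_X (j : N) : theta e mo (X j) = X j := by
  rw [theta, coe_eval₂Hom, eval₂_X]

theorem JJ_C (a : MvPolynomial M ℤ) :
    JJ e (C a : TT M N) = C (rename (fun m => e (some (Sum.inl m))) a) := by
  rw [JJ, map_C]
  rfl

theorem JJ_X (j : N) : JJ e (X j : TT M N) = X j := by
  rw [JJ, map_X]

theorem pderiv_JJ (j : N) (t : TT M N) : pderiv j (JJ e t) = JJ e (pderiv j t) := by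
  rw [JJ, pderiv_map]

theorem theta_JJ (t : TT M N) : theta e mo (JJ e t) = t := by
  have h : (theta e mo).comp (JJ e) = RingHom.id (TT M N) := by
    refine MvPolynomial.ringHom_ext' (MvPolynomial.ringHom_ext' ?_ ?_) ?_
    · exact RingHom.ext_int _ _
    · intro m
      simp only [RingHom.comp_apply, RingHom.id_apply]
      rw [JJ_C, rename_X, theta_C, phi_X]
      rfl
    · intro j
      simp only [RingHom.comp_apply, RingHom.id_apply]
      rw [JJ_X, theta_X]
  exact congrFun (congrArg DFunLike.coe h) t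

theorem pderiv_ff (j : N) :
    pderiv j (ff e mo) = JJ e (pderiv j (gg mo)) + C (X (e (some (Sum.inr j)))) := by
  rw [ff, map_add, map_add, pderiv_JJ, map_sum, pderiv_C, add_zero]
  congr 1
  rw [Finset.sum_eq_single j]
  · rw [pderiv_C_mul, pderiv_X_self, mul_one]
  · intro i _ hi
    rw [pderiv_C_mul, pderiv_X_of_ne hi, mul_zero]
  · intro h
    exact absurd (Finset.mem_univ _) h

theorem hess_ff : hess (ff e mo) = (JJ e).mapMatrix (hess (gg mo)) := by
  ext1 i j
  rw [hess, Matrix.of_apply, pderiv_ff, map_add, pderiv_C, add_zero, pderiv_JJ]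
  rfl

theorem det_hess_ff : (hess (ff e mo)).det = JJ e (hess (gg mo)).det := by
  rw [hess_ff, RingHom.map_det]

/-- every polynomial is equal to its normal form modulo the critical ideal -/
theorem normal (I : Ideal (MvPolynomial N (MvPolynomial ι ℤ))) (hf : ff e mo ∈ I)
    (hd : ∀ j, pderiv j (ff e mo) ∈ I) (F : MvPolynomial N (MvPolynomial ι ℤ)) :
    F - JJ e (theta e mo F) ∈ I := by
  have h : (Ideal.Quotient.mk I) = ((Ideal.Quotient.mk I).comp (JJ e)).comp (theta e mo) := by
    refine MvPolynomial.ringHom_ext' (MvPolynomial.ringHom_ext' ?_ ?_) ?_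
    · exact RingHom.ext_int _ _
    · intro i
      obtain ⟨o, rfl⟩ := e.surjective i
      simp only [RingHom.comp_apply]
      rw [theta_C, phi_X, Ideal.Quotient.eq]
      rcases o with _ | m | j
      · have h1 : C (X (e none)) - JJ e (vv mo none) =
            ff e mo - ∑ j, X j * pderiv j (ff e mo) := by
          rw [vv, map_add, map_neg, map_sum]
          simp only [map_mul, JJ_X, pderiv_ff, mul_add, Finset.sum_add_distrib]
          rw [ff]
          have h2 : ∑ j, C (X (e (some (Sum.inr j)))) * X j =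
              ∑ j, (X j : MvPolynomial N (MvPolynomial ι ℤ)) * C (X (e (some (Sum.inr j)))) :=
            Finset.sum_congr rfl fun j _ => mul_comm _ _
          rw [h2]
          ring
        rw [h1]
        exact I.sub_mem hf (I.sum_mem fun j _ => I.mul_mem_left _ (hd j))
      · rw [vv, JJ_C, rename_X, sub_self]
        exact I.zero_mem
      · have h1 : C (X (e (some (Sum.inr j)))) - JJ e (vv mo (some (Sum.inr j))) =
            pderiv j (ff e mo) := by
          rw [vv, map_neg, pderiv_ff]
          ring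
        rw [h1]
        exact hd j
    · intro j
      simp only [RingHom.comp_apply]
      rw [theta_X, JJ_X]
  rw [← Ideal.Quotient.eq]
  exact congrFun (congrArg DFunLike.coe h) F

/-- the coprime elements -/
theorem exists_cop_ff [Finite ι] (hdet : (hess (gg mo)).det ≠ 0)
    (I : Ideal (MvPolynomial N (MvPolynomial ι ℤ))) (hf : ff e mo ∈ I)
    (hd : ∀ j, pderiv j (ff e mo) ∈ I) (hh : (hess (ff e mo)).det ∈ I) :
    ∃ Φ Ψ : MvPolynomial ι ℤ, Cop Φ Ψ ∧ C Φ ∈ I ∧ C Ψ ∈ I := by
  obtain ⟨Φ, Ψ, h1, h2, E, h3⟩ := exists_cop (phi e mo) (hess (gg mo)).det hdet (by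
    intro κ v hv
    have h4 := hv.map' (f := (sumAlgEquiv ℤ N M).symm.toAlgHom) (sumAlgEquiv ℤ N M).symm.injective
    have h5 := card_le _ h4
    rw [← Nat.card_congr e, Finite.card_option]
    rw [Nat.card_congr (Equiv.sumComm N M)] at h5
    omega)
  have h2' : phi e mo Ψ = 0 := h2
  have h3' : phi e mo Φ = (hess (gg mo)).det * E := h3
  refine ⟨Φ, Ψ, h1, ?_, ?_⟩
  · have h4 := normal e mo I hf hd (C Φ)
    rw [theta_C, h3', map_mul, ← det_hess_ff] at h4
    have h5 := I.add_mem h4 (I.mul_mem_right (JJ e E) hh)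
    rwa [sub_add_cancel] at h5
  · have h4 := normal e mo I hf hd (C Ψ)
    rwa [theta_C, h2', map_zero, sub_zero] at h4

/-- nonvanishing of the Hessian determinant by specialization -/
theorem det_ne_zero (a : M → ℤ) (h : (hess (∑ m, C (a m) * mo m)).det ≠ 0) :
    (hess (gg mo)).det ≠ 0 := by
  intro h0
  apply h
  have h1 : ∑ m, C (a m) * mo m = map (eval a) (gg mo) := by
    rw [gg, map_sum]
    refine Finset.sum_congr rfl fun m _ => ?_
    rw [map_mul, map_C, eval_X, map_map]
    congr 1
    have h2 : (eval a).comp (C : ℤ →+* MvPolynomial M ℤ) = RingHom.id ℤ := RingHom.ext_int _ _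
    rw [h2, map_id]
  have h2 : hess (∑ m, C (a m) * mo m) = (map (eval a)).mapMatrix (hess (gg mo)) := by
    ext1 i j
    rw [hess, Matrix.of_apply, h1, pderiv_map, pderiv_map]
    rfl
  rw [h2, ← RingHom.map_det, h0, map_zero]

end

end UniL

end Pool.Agent.Helper21K9.OD
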